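import Pool.Agent.Helper58.Edge.ClaimE

set_option linter.unusedSectionVars false

/-!
From the combinatorial claim to the families `F ↦ ¬ Mat G (a + 1_F) (q + 1)`.
-/

namespace Pool.Agent.Helper58.Edge

open Finset

variable {V : Type*} [LinearOrder V] [Fintype V] {G : SimpleGraph V} {k : Type*} [Field k]

/-- Suspensions along an induced matching. -/
theorem susp_im {S : Finset V} {m : ℕ} (him : IM G S m) :
    ∀ (W : Finset V) (p : ℕ), (∀ x ∈ S, x ∉ W ∧ ∀ y ∈ W, ¬ G.Adj x y) → ¬ Van k (Ind G W) p →
      ∃ W2 ⊆ W ∪ S, ¬ Van k (Ind G W2) (p + m) := by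
  induction him with
  | zero S => intro W p _ h; exact ⟨W, subset_union_left, h⟩
  | @succ S m x y hx hy hxy _ ih =>
    intro W p hS h
    obtain ⟨W2, hW2, h2⟩ := ih W p (fun z hz => hS z (mem_sdiff.mp hz).1) h
    have hadj : ∀ z ∈ W2, ¬ G.Adj x z ∧ ¬ G.Adj y z ∧ z ≠ x ∧ z ≠ y := by
      intro z hz
      rcases mem_union.mp (hW2 hz) with hz | hz
      · exact ⟨(hS x hx).2 z hz, (hS y hy).2 z hz, fun h => (hS x hx).1 (h ▸ hz),
          fun h => (hS y hy).1 (h ▸ hz)⟩
      · rw [mem_sdiff, mem_union, mem_nbr_singleton, mem_nbr_singleton, not_or] at hz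
        refine ⟨hz.2.1, hz.2.2, ?_, ?_⟩
        · rintro rfl; exact hz.2.2 hxy.symm
        · rintro rfl; exact hz.2.1 hxy
    refine ⟨insert x (insert y W2), ?_, fun hvan2 => h2 ?_⟩
    · intro v hv
      rcases mem_insert.mp hv with hv | hv
      · rw [hv]; exact mem_union_right _ hx
      · rcases mem_insert.mp hv with hv | hv
        · rw [hv]; exact mem_union_right _ hy
        · rcases mem_union.mp (hW2 hv) with hv | hv
          · exact mem_union_left _ hv
          · exact mem_union_right _ (mem_sdiff.mp hv).1
    · refine van_of_susp (Γ := Ind G (insert x (insert y W2))) (G.ne_of_adj hxy) ?_ ?_ ?_ ?_ ?_ hvan2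
      · intro F hF hxF; exact (hadj x (hF.1 hxF)).2.2.1 rfl
      · intro F hF hyF; exact (hadj y (hF.1 hyF)).2.2.2 rfl
      · intro F hF
        refine ⟨insert_subset_insert _ (hF.1.trans (subset_insert _ _)), indep_insert.mpr ⟨hF.2, ?_⟩⟩
        rw [disjoint_left]
        intro v hv hv'
        exact (hadj v (hF.1 hv)).1 (mem_nbr_singleton.mp hv')
      · intro F hF
        refine ⟨?_, indep_insert.mpr ⟨hF.2, ?_⟩⟩
        · exact (insert_subset_insert _ hF.1).trans (subset_insert _ _)
        · rw [disjoint_left]
          intro v hv hv'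
          exact (hadj v (hF.1 hv)).2.1 (mem_nbr_singleton.mp hv')
      · intro F hF hxF
        refine ⟨fun v hv => ?_, hF.2.mono (erase_subset _ _)⟩
        rw [mem_erase] at hv
        rcases mem_insert.mp (hF.1 hv.2) with h | h
        · exact absurd h hv.1
        · rcases mem_insert.mp h with h | h
          · rw [h] at hv; exact absurd hxy (hF.2 x hxF y hv.2)
          · exact h

/-- The bound for the degree complexes. -/
theorem general : ∀ (N : ℕ) (a : V → ℕ) (n : ℤ) (W : Finset V) (d : ℕ), W.card = N →
    supp a ⊆ W → ¬ Van k (Del G a n W) d →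
      ∃ W2 ⊆ W, ∃ p : ℕ, ¬ Van k (Ind G W2) p ∧ (d : ℤ) + wt a univ - 2 * n ≤ p := by
  intro N
  induction N using Nat.strong_induction_on with
  | _ N ih =>
  intro a n W d hN hsupp hvan
  by_cases hx : ∃ x ∈ W \ supp a, ∃ y, G.Adj x y ∧ a y ≠ 0
  · obtain ⟨x, hx, y, hxy, hay⟩ := hx
    rw [mem_sdiff] at hx
    rcases del_step hx.1 hvan with h1 | ⟨d', rfl, h1⟩
    · obtain ⟨W2, g1, p, g2, g3⟩ := ih _ (by
        rw [← hN]; exact card_lt_card (erase_ssubset hx.1)) a n (W.erase x) d rfl (by
          intro v hv
          exact mem_erase.mpr ⟨fun h => hx.2 (h ▸ hv), hsupp hv⟩) h1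
      exact ⟨W2, g1.trans (erase_subset _ _), p, g2, g3⟩
    · obtain ⟨W2, g1, p, g2, g3⟩ := ih _ (by
        rw [← hN]
        exact card_lt_card ⟨sdiff_subset, fun h => (mem_sdiff.mp (h hx.1)).2
          (mem_insert_self _ _)⟩) (off (insert x (nbr G {x})) a) (n - wt a (nbr G {x}))
          (W \ insert x (nbr G {x})) d' rfl (by
            rw [supp_off]; exact sdiff_subset_sdiff hsupp subset_rfl) h1
      refine ⟨W2, g1.trans sdiff_subset, p, g2, ?_⟩
      have h2 := wt_off_insert (G := G) (a := a) (x := x)
      have h3 : a x = 0 := by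
        by_contra h; exact hx.2 (mem_supp.mpr h)
      have h4 : a y ≤ wt a (nbr G {x}) := by
        unfold wt
        exact single_le_sum (f := a) (fun _ _ => Nat.zero_le _) (mem_nbr_singleton.mpr hxy)
      push_cast
      omega
  · push Not at hx
    obtain ⟨p, X, m, g1, g2, g3, g4, g5⟩ := claimE _ a n W d rfl hx hvan
    have hXe : X = ∅ := by
      rw [eq_empty_iff_forall_notMem]
      intro v hv
      have := mem_sdiff.mp (g2 hv)
      exact this.2 (hsupp this.1)
    subst hXe
    rw [nbr_empty, union_empty, sdiff_empty] at g4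
    obtain ⟨W2, k1, k2⟩ := susp_im g4 (W \ supp a) p (fun z hz => ⟨fun h => (mem_sdiff.mp h).2 hz,
      fun y hy hzy => by
        have := hx y hy z hzy.symm
        exact mem_supp.mp hz this⟩) g1
    refine ⟨W2, k1.trans (union_subset sdiff_subset hsupp), p + m, k2, ?_⟩
    have : hh G a ∅ = 0 := by unfold hh; rw [nbr_empty]; simp [wt]
    rw [this] at g5
    push_cast
    omega

/-- Capacities may be truncated. -/
theorem Mat.cap {a b : V → ℕ} {m : ℕ} (h : Mat G a m) (hb : ∀ v, min (a v) m ≤ b v) :
    Mat G b m := by
  obtain ⟨s, h1, h2, h3⟩ := h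
  refine ⟨s, h1, h2, fun v => le_trans ?_ (hb v)⟩
  refine le_min (h3 v) ?_
  rw [← h1]
  unfold use
  have : ∀ x ∈ s.map (fun p => ep p v), x ≤ 1 := by
    intro x hx
    obtain ⟨p, hp, rfl⟩ := Multiset.mem_map.mp hx
    have hne := G.ne_of_adj (h2 p hp)
    unfold ep
    split_ifs with q1 q2
    · exact absurd (q1.trans q2.symm) hne
    · omega
    · omega
    · omega
  have := Multiset.sum_le_card_nsmul _ 1 this
  rw [Multiset.card_map] at this
  simpa using this

/-- The weights `b`, set to `N` on `T`. -/
def mix (b : V → ℕ) (N : ℕ) (T : Finset V) : V → ℕ := fun v => if v ∈ T then N else b v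

theorem mix_mem {b : V → ℕ} {N : ℕ} {T : Finset V} {v : V} (h : v ∈ T) : mix b N T v = N :=
  if_pos h
theorem mix_notMem {b : V → ℕ} {N : ℕ} {T : Finset V} {v : V} (h : v ∉ T) : mix b N T v = b v :=
  if_neg h

theorem mat_mix_iff {b : V → ℕ} {N q : ℕ} (hN : q + 1 ≤ N) (T : Finset V) :
    ¬ Mat G (mix b N T) (q + 1) ↔ Indep G T ∧ ff G b (nbr G T) ≤ q := by
  constructor
  · intro h
    have hind : Indep G T := by
      intro x hx y hy hxy
      refine h ⟨Multiset.replicate (q + 1) (x, y), Multiset.card_replicate _ _, ?_, ?_⟩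
      · intro p hp
        rw [Multiset.eq_of_mem_replicate hp]; exact hxy
      · intro v
        unfold use
        rw [Multiset.map_replicate, Multiset.sum_replicate, smul_eq_mul]
        unfold ep
        have hne := G.ne_of_adj hxy
        by_cases h1 : x = v
        · have h2 : ¬ y = v := fun h => hne (h1.trans h.symm)
          rw [mix_mem (h1 ▸ hx)]
          simp only [h1, h2, if_true, if_false]
          omega
        · by_cases h2 : y = v
          · rw [mix_mem (h2 ▸ hy)]
            simp only [h1, h2, if_true, if_false]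
            omega
          · simp only [h1, h2, if_false]
            omega
    refine ⟨hind, ?_⟩
    by_contra hcon
    push Not at hcon
    apply h
    have hTN : Disjoint T (nbr G T) := indep_iff_disjoint.mp hind
    set N' := max (q + 1) (wt b (nbr G T)) with hN'
    have m1 : Mat G (fun v => if v ∈ nbr G T ∨ v ∈ T then mix b N' T v else 0)
        (∑ v, (if v ∈ nbr G T then b v else 0)) := by
      refine mat_of_hall (b := fun v => if v ∈ nbr G T then b v else 0)
        (c := fun v => if v ∈ T then N' else 0) (fun S => ?_) (fun v => ?_)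
      · have e1 : wt (fun v => if v ∈ nbr G T then b v else 0) S = wt b (S ∩ nbr G T) := by
          unfold wt
          rw [← sum_filter]
          refine sum_congr ?_ (fun _ _ => rfl)
          ext v; simp
        rw [e1]
        rcases (S ∩ nbr G T).eq_empty_or_nonempty with h0 | ⟨y, hy⟩
        · rw [h0, wt_empty]; exact Nat.zero_le _
        · rw [mem_inter] at hy
          obtain ⟨x, hx, hxy⟩ := mem_nbr.mp hy.2
          have e2 : (if x ∈ T then N' else 0) ≤ wt (fun v => if v ∈ T then N' else 0) (nbr G S) := by
            unfold wt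
            exact single_le_sum (f := fun v => if v ∈ T then N' else 0) (fun _ _ => Nat.zero_le _)
              (mem_nbr.mpr ⟨y, hy.1, hxy.symm⟩)
          rw [if_pos hx] at e2
          have e3 := wt_mono b (inter_subset_right (s₁ := S) (s₂ := nbr G T))
          have e4 : wt b (nbr G T) ≤ N' := le_max_right _ _
          omega
      · by_cases h1 : v ∈ T
        · have h2 : v ∉ nbr G T := disjoint_left.mp hTN h1
          simp [h1, h2, mix]
        · by_cases h2 : v ∈ nbr G T
          · simp [h1, h2, mix]
          · simp [h1, h2]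
    have e0 : (∑ v, (if v ∈ nbr G T then b v else 0)) = wt b (nbr G T) := by
      unfold wt; rw [← sum_filter]; refine sum_congr ?_ (fun _ _ => rfl); ext v; simp
    rw [e0] at m1
    have m2 : Mat G (off T (off (nbr G T) b)) (nu G (off (nbr G T) b)) := by
      refine (mat_nu _).off_iso T (fun x hx y hxy => ?_)
      exact off_mem (mem_nbr.mpr ⟨x, hx, hxy⟩)
    have m3 := m1.add m2 (c := mix b N' T) (fun v => by
      by_cases h1 : v ∈ T
      · rw [off_mem h1]; simp [h1]
      · by_cases h2 : v ∈ nbr G T
        · rw [off_notMem h1, off_mem h2]; simp [h2]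
        · rw [off_notMem h1, off_notMem h2, mix_notMem h1]
          simp [h1, h2])
    have m4 : Mat G (mix b N' T) (q + 1) := m3.le (by unfold ff at hcon; omega)
    refine m4.cap (fun v => ?_)
    by_cases h1 : v ∈ T
    · rw [mix_mem h1, mix_mem h1]
      exact (min_le_right _ _).trans hN
    · rw [mix_notMem h1, mix_notMem h1]
      exact min_le_left _ _
  · rintro ⟨hind, hff⟩ hmat
    have hTN : Disjoint T (nbr G T) := indep_iff_disjoint.mp hind
    have h1 := le_nu_iff.mpr hmat
    have h2 := nu_off (G := G) (mix b N T) (nbr G T)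
    have h3 : wt (mix b N T) (nbr G T) = wt b (nbr G T) := wt_congr (fun v hv =>
      mix_notMem (fun h => disjoint_left.mp hTN h hv))
    have h4 : nu G (off (nbr G T) (mix b N T)) ≤ nu G (off (nbr G T) b) := by
      rw [← nu_off_iso (T := T) (a := off (nbr G T) (mix b N T)) (fun x hx y hxy =>
        off_mem (mem_nbr.mpr ⟨x, hx, hxy⟩))]
      refine nu_mono (fun v => ?_)
      by_cases h5 : v ∈ T
      · rw [off_mem h5]; exact Nat.zero_le _
      · rw [off_notMem h5]
        unfold off
        split_ifs
        · exact le_rfl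
        · rw [mix_notMem h5]
    unfold ff at hff
    omega

/-- The capacities attached to `F`: vertices of `F0` and of `F \ K` get `N`, vertices of `F ∩ K`
get `b v + 1`, and the others get `b v`. -/
def val (b : V → ℕ) (N : ℕ) (F0 K F : Finset V) : V → ℕ := fun v =>
  if v ∈ F0 then N else if v ∈ F then (if v ∈ K then b v + 1 else N) else b v

/-- The family attached to these capacities. -/
def GG (G : SimpleGraph V) (b : V → ℕ) (N q : ℕ) (F0 K B : Finset V) : Finset V → Prop :=
  fun F => F ⊆ B ∧ ¬ Mat G (val b N F0 K F) (q + 1)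

theorem val_empty (b : V → ℕ) (N : ℕ) (F0 F : Finset V) : val b N F0 ∅ F = mix b N (F0 ∪ F) := by
  funext v
  unfold val mix
  by_cases h1 : v ∈ F0 <;> by_cases h2 : v ∈ F <;> simp [h1, h2]

/-- The final family as a degree complex. -/
theorem gg_iff {b : V → ℕ} {N q : ℕ} (hN : q + 1 ≤ N) {F0 : Finset V} (hF0 : Indep G F0)
    (F : Finset V) : GG G b N q F0 ∅ (univ \ F0) F ↔
      Del G (off (F0 ∪ nbr G F0) b) (q - wt b (nbr G F0)) (univ \ (F0 ∪ nbr G F0)) F := by
  have key : Disjoint F F0 → Disjoint F (nbr G F0) →
      ff G b (nbr G (F0 ∪ F)) = wt b (nbr G F0) + ff G (off (F0 ∪ nbr G F0) b) (nbr G F) := by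
    intro h1 h2
    rw [nbr_union, ff_off, ← off_off]
    congr 1
    refine (ff_off_iso (disjoint_nbr_comm.mp h2) ?_).symm
    intro z hz y hy
    rw [off_off]
    exact off_mem (mem_union_right _ (mem_nbr.mpr ⟨z, hz, hy⟩))
  unfold GG Del
  rw [val_empty, mat_mix_iff hN]
  constructor
  · rintro ⟨h1, h2, h3⟩
    have d1 : Disjoint F F0 := by
      rw [disjoint_left]; intro v hv hv'; exact (mem_sdiff.mp (h1 hv)).2 hv'
    have d2 : Disjoint F (nbr G F0) := by
      rw [disjoint_left]; intro v hv hv'
      obtain ⟨z, hz, hzv⟩ := mem_nbr.mp hv'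
      exact h2 z (mem_union_left _ hz) v (mem_union_right _ hv) hzv
    rw [key d1 d2] at h3
    refine ⟨?_, h2.mono subset_union_right, by omega⟩
    intro v hv
    rw [mem_sdiff, mem_union, not_or]
    exact ⟨mem_univ _, disjoint_left.mp d1 hv, disjoint_left.mp d2 hv⟩
  · rintro ⟨h1, h2, h3⟩
    have d1 : Disjoint F F0 := by
      rw [disjoint_left]; intro v hv hv'
      exact (mem_sdiff.mp (h1 hv)).2 (mem_union_left _ hv')
    have d2 : Disjoint F (nbr G F0) := by
      rw [disjoint_left]; intro v hv hv'
      exact (mem_sdiff.mp (h1 hv)).2 (mem_union_right _ hv')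
    rw [key d1 d2]
    refine ⟨?_, ?_, by omega⟩
    · intro v hv
      rw [mem_sdiff]
      exact ⟨mem_univ _, disjoint_left.mp d1 hv⟩
    · intro u hu v hv huv
      rcases mem_union.mp hu with hu | hu
      · rcases mem_union.mp hv with hv | hv
        · exact hF0 u hu v hv huv
        · exact disjoint_left.mp d2 hv (mem_nbr.mpr ⟨u, hu, huv⟩)
      · rcases mem_union.mp hv with hv | hv
        · exact disjoint_left.mp d2 hu (mem_nbr.mpr ⟨v, hv, huv.symm⟩)
        · exact h2 u hu v hv huv

/-- Bringing in the vertices outside `B`. -/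
theorem cech_bound {r : ℤ} (hr : ∀ (W : Finset V) (p : ℕ), ¬ Van k (Ind G W) p → (p : ℤ) ≤ r)
    {N q : ℕ} (hN : q + 1 ≤ N) {b : V → ℕ} (hbN : ∀ v, b v ≤ N) {d : ℕ} :
    ∀ (n : ℕ) (F0 B : Finset V), (univ \ (F0 ∪ B)).card = n → Disjoint F0 B → supp b ⊆ B →
      ¬ Van k (GG G b N q F0 ∅ B) d → (wt b univ : ℤ) + d ≤ 2 * q + r := by
  intro n
  induction n with
  | zero =>
    intro F0 B hn hd hb hvan
    have hB : B = univ \ F0 := by
      ext v
      rw [mem_sdiff]
      constructor
      · intro h; exact ⟨mem_univ _, disjoint_right.mp hd h⟩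
      · rintro ⟨_, h⟩
        by_contra hcon
        have : v ∈ univ \ (F0 ∪ B) := by
          rw [mem_sdiff, mem_union, not_or]; exact ⟨mem_univ _, h, hcon⟩
        rw [card_eq_zero.mp hn] at this
        simp at this
    rw [hB] at hvan
    by_cases hF0 : Indep G F0
    · rw [van_congr (k := k) (gg_iff hN hF0)] at hvan
      obtain ⟨W2, g1, p, g2, g3⟩ := general _ _ _ _ _ rfl (by
        rw [supp_off]
        exact sdiff_subset_sdiff (subset_univ _) subset_rfl) hvan
      have h1 := hr W2 p g2
      rw [wt_off] at g3
      have h2 := wt_sdiff_add b (subset_univ (F0 ∪ nbr G F0))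
      have h3 : wt b (F0 ∪ nbr G F0) = wt b F0 + wt b (nbr G F0) :=
        wt_union (indep_iff_disjoint.mp hF0)
      have h4 : wt b F0 = 0 := by
        unfold wt
        refine sum_eq_zero (fun v hv => ?_)
        by_contra hcon
        exact disjoint_left.mp hd hv (hb (mem_supp.mpr hcon))
      omega
    · refine absurd (van_void (fun F hF => hF0 ?_) d) hvan
      have := hF.2
      rw [val_empty, mat_mix_iff hN] at this
      exact this.1.mono subset_union_left
  | succ n ih =>
    intro F0 B hn hd hb hvan
    obtain ⟨x, hx⟩ : (univ \ (F0 ∪ B)).Nonempty := by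
      rw [← card_pos, hn]; omega
    rw [mem_sdiff, mem_union, not_or] at hx
    obtain ⟨_, hx1, hx2⟩ := hx
    by_contra hcon
    refine hvan (van_out (x := x) (YN := GG G b N q (insert x F0) ∅ B) ?_ ?_ ?_ ?_)
    · intro F hF h; exact hx2 (hF.1 h)
    · rintro F ⟨h1, h2⟩
      refine ⟨h1, fun h => h2 (h.mono (fun v => ?_))⟩
      rw [val_empty, val_empty]
      unfold mix
      by_cases h3 : v ∈ F0 ∪ F
      · rw [if_pos h3, if_pos (by rw [insert_union]; exact mem_insert_of_mem h3)]
      · rw [if_neg h3]
        split_ifs
        · exact hbN v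
        · exact le_rfl
    · by_contra hv
      refine hcon (ih F0 (insert x B) ?_ ?_ (hb.trans (subset_insert _ _)) ?_)
      · have : univ \ (F0 ∪ insert x B) = (univ \ (F0 ∪ B)).erase x := by
          ext v; simp only [mem_sdiff, mem_union, mem_insert, mem_erase, not_or]; tauto
        rw [this, card_erase_of_mem (by
          rw [mem_sdiff, mem_union, not_or]; exact ⟨mem_univ _, hx1, hx2⟩), hn]
        omega
      · rw [disjoint_insert_right]; exact ⟨hx1, hd⟩
      · intro h
        refine hv ((van_congr (k := k) (fun F => ?_)).mp h)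
        unfold KK GG
        rw [val_empty, val_empty]
        by_cases hxF : x ∈ F
        · have e : insert x F0 ∪ F.erase x = F0 ∪ F := by
            ext v; simp only [mem_union, mem_insert, mem_erase]
            constructor
            · rintro ((rfl | h) | h)
              · exact Or.inr hxF
              · exact Or.inl h
              · exact Or.inr h.2
            · rintro (h | h)
              · exact Or.inl (Or.inr h)
              · by_cases hvx : v = x
                · exact Or.inl (Or.inl hvx)
                · exact Or.inr ⟨hvx, h⟩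
          rw [e]
          have e2 : F ⊆ insert x B ↔ F.erase x ⊆ B := by
            rw [← erase_subset_iff_of_mem (mem_insert_self x B), ]
            constructor
            · intro h v hv
              have := h hv
              rcases mem_insert.mp this with h' | h'
              · exact absurd h' (mem_erase.mp hv).1
              · exact h'
            · intro h; exact h.trans (subset_insert _ _)
          rw [e2]
          tauto
        · have e2 : F ⊆ insert x B ↔ F ⊆ B := by
            constructor
            · intro h v hv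
              rcases mem_insert.mp (h hv) with h' | h'
              · exact absurd (h' ▸ hv) hxF
              · exact h'
            · intro h; exact h.trans (subset_insert _ _)
          rw [e2]
          tauto
    · by_contra hv
      refine hcon (ih (insert x F0) B ?_ ?_ hb hv)
      · have : univ \ (insert x F0 ∪ B) = (univ \ (F0 ∪ B)).erase x := by
          ext v; simp only [mem_sdiff, mem_union, mem_insert, mem_erase, not_or]; tauto
        rw [this, card_erase_of_mem (by
          rw [mem_sdiff, mem_union, not_or]; exact ⟨mem_univ _, hx1, hx2⟩), hn]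
        omega
      · rw [disjoint_insert_left]; exact ⟨hx2, hd⟩

/-- Replacing the intervals `[b, b + 1]` by the rays `[b, ∞)`. -/
theorem kos_bound {r : ℤ} (hr : ∀ (W : Finset V) (p : ℕ), ¬ Van k (Ind G W) p → (p : ℤ) ≤ r)
    {N q : ℕ} (hN : q + 1 ≤ N) {B : Finset V} :
    ∀ (n : ℕ) (K : Finset V) (b : V → ℕ) (d : ℕ), K.card = n → K ⊆ B → supp b ⊆ B →
      (∀ v ∈ K, b v + 1 ≤ N) → (∀ v, b v ≤ N) →
      ¬ Van k (GG G b N q ∅ K B) d → (wt b univ : ℤ) + d ≤ 2 * q + r := by
  intro n
  induction n with
  | zero =>
    intro K b d hn hK hb hbK hbN hvan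
    rw [card_eq_zero] at hn
    subst hn
    exact cech_bound hr hN hbN _ ∅ B rfl (disjoint_empty_left _) hb hvan
  | succ n ih =>
    intro K b d hn hK hb hbK hbN hvan
    obtain ⟨x, hx⟩ : K.Nonempty := by rw [← card_pos, hn]; omega
    have hxB := hK hx
    set Yn : Finset V → Prop := fun F => F ⊆ B.erase x ∧ ¬ Mat G (val b N ∅ K F) (q + 1) with hYn
    set Yp : Finset V → Prop :=
      fun F => F ⊆ B.erase x ∧ ¬ Mat G (val b N ∅ K (insert x F)) (q + 1) with hYp
    set Ym : Finset V → Prop :=
      fun F => F ⊆ B.erase x ∧ ¬ Mat G (val b N ∅ (K.erase x) (insert x F)) (q + 1) with hYm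
    have hsub1 : ∀ F : Finset V, x ∉ F → (F ⊆ B.erase x ↔ F ⊆ B) := by
      intro F hF
      rw [subset_erase]; tauto
    have hsub2 : ∀ F : Finset V, x ∈ F → (F.erase x ⊆ B.erase x ↔ F ⊆ B) := by
      intro F hF
      constructor
      · intro h v hv
        by_cases hvx : v = x
        · rw [hvx]; exact hxB
        · exact mem_of_mem_erase (h (mem_erase.mpr ⟨hvx, hv⟩))
      · intro h; exact erase_subset_erase x h
    have e1 : ∀ F, KK x Yn Yp F ↔ GG G b N q ∅ K B F := by
      intro F
      unfold KK GG
      by_cases hxF : x ∈ F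
      · have := hsub2 F hxF
        simp only [hYp, insert_erase hxF, this]
        tauto
      · have := hsub1 F hxF
        simp only [hYn, this]
        tauto
    have e2 : ∀ F, KK x Yn Ym F ↔ GG G b N q ∅ (K.erase x) B F := by
      intro F
      unfold KK GG
      by_cases hxF : x ∈ F
      · have := hsub2 F hxF
        simp only [hYm, insert_erase hxF, this]
        tauto
      · have := hsub1 F hxF
        have e : val b N ∅ K F = val b N ∅ (K.erase x) F := by
          funext v
          unfold val
          by_cases hv : v ∈ F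
          · have hvx : v ≠ x := fun h => hxF (h ▸ hv)
            simp [hv, hvx]
          · simp [hv]
        simp only [hYn, this, e]
        tauto
    set b' : V → ℕ := fun v => b v + if v = x then 1 else 0 with hb'
    have e3 : ∀ F, KK x Yp Ym F ↔ GG G b' N q ∅ (K.erase x) B F := by
      intro F
      unfold KK GG
      by_cases hxF : x ∈ F
      · have := hsub2 F hxF
        have e : val b N ∅ (K.erase x) F = val b' N ∅ (K.erase x) F := by
          funext v
          unfold val
          by_cases hv : v = x
          · subst hv; simp [hxF]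
          · simp [hb', hv]
        simp only [hYm, insert_erase hxF, this, e]
        tauto
      · have := hsub1 F hxF
        have e : val b N ∅ K (insert x F) = val b' N ∅ (K.erase x) F := by
          funext v
          unfold val
          by_cases hv : v = x
          · subst hv; simp [hxF, hb', hx]
          · simp [hb', hv]
        simp only [hYp, this, e]
        tauto
    have hpn : ∀ F, Yp F → Yn F := by
      rintro F ⟨h1, h2⟩
      refine ⟨h1, fun h => h2 (h.mono (fun v => ?_))⟩
      have hxF : x ∉ F := fun h => (mem_erase.mp (h1 h)).1 rfl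
      unfold val
      by_cases hv : v = x
      · subst hv; simp [hxF, hx]
      · simp [hv]
    have hmp : ∀ F, Ym F → Yp F := by
      rintro F ⟨h1, h2⟩
      refine ⟨h1, fun h => h2 (h.mono (fun v => ?_))⟩
      unfold val
      by_cases hv : v = x
      · subst hv; simp [hx]; exact hbK v hx
      · simp [hv]
    have hb'sum : wt b' univ = wt b univ + 1 := by
      unfold wt
      rw [hb', sum_add_distrib]
      simp
    have hb'supp : supp b' ⊆ B := by
      intro v hv
      rw [mem_supp, hb'] at hv
      by_cases hvx : v = x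
      · rw [hvx]; exact hxB
      · simp only [hvx, if_false, add_zero] at hv
        exact hb (mem_supp.mpr hv)
    have hcard : (K.erase x).card = n := by rw [card_erase_of_mem hx, hn]; omega
    have hK' : K.erase x ⊆ B := (erase_subset _ _).trans hK
    rw [← van_congr (k := k) e1] at hvan
    rcases d with _ | d
    · have h1 : ¬ Van k (KK x Yn Ym) 0 := fun h => hvan (van_split_zero hmp h)
      rw [van_congr (k := k) e2] at h1
      exact ih _ b 0 hcard hK' hb (fun v hv => hbK v (mem_of_mem_erase hv)) hbN h1
    · by_cases h1 : Van k (KK x Yn Ym) (d + 1)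
      · have h2 : ¬ Van k (KK x Yp Ym) d := fun h => hvan (van_split hpn hmp h1 h)
        rw [van_congr (k := k) e3] at h2
        have := ih _ b' d hcard hK' hb'supp (fun v hv => by
          rw [hb']
          simp only [if_neg (mem_erase.mp hv).1, add_zero]
          exact hbK v (mem_of_mem_erase hv)) (fun v => by
          rw [hb']
          by_cases hvx : v = x
          · simp only [hvx, if_true]; exact hbK x hx
          · simp only [hvx, if_false, add_zero]; exact hbN v) h2
        rw [hb'sum] at this
        push_cast at this ⊢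
        omega
      · rw [van_congr (k := k) e2] at h1
        exact ih _ b (d + 1) hcard hK' hb (fun v hv => hbK v (mem_of_mem_erase hv)) hbN h1

/-- The combinatorial main theorem. -/
theorem comb_main {r : ℤ} (hr : ∀ (W : Finset V) (p : ℕ), ¬ Van k (Ind G W) p → (p : ℤ) ≤ r)
    {a : V → ℕ} {B : Finset V} (hB : supp a ⊆ B) {q d : ℕ}
    (h : ¬ Van k (fun F => F ⊆ B ∧ ¬ Mat G (fun v => a v + if v ∈ F then 1 else 0) (q + 1)) d) :
    (wt a univ : ℤ) + d ≤ 2 * q + r := by
  have ha : ∀ v, a v ≤ wt a univ := fun v => by
    unfold wt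
    exact single_le_sum (f := a) (fun _ _ => Nat.zero_le _) (mem_univ v)
  refine kos_bound hr (N := q + 1 + wt a univ + 1) (by omega) _ B a d rfl subset_rfl hB
    (fun v _ => by have := ha v; omega) (fun v => by have := ha v; omega)
    (fun hv => h ((van_congr (k := k) (fun F => ?_)).mp hv))
  unfold GG
  constructor
  · rintro ⟨h1, h2⟩
    refine ⟨h1, fun h => h2 (h.mono (fun v => ?_))⟩
    unfold val
    by_cases hv : v ∈ F
    · simp [hv, h1 hv]
    · simp [hv]
  · rintro ⟨h1, h2⟩
    refine ⟨h1, fun h => h2 (h.mono (fun v => ?_))⟩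
    unfold val
    by_cases hv : v ∈ F
    · simp [hv, h1 hv]
    · simp [hv]

/-- Bound for the independence complexes from a bound for the complements of closed
neighbourhoods. -/
theorem ind_bound {r : ℤ} (hr1 : 1 ≤ r)
    (h : ∀ (x : V) (W : Finset V), W.Nonempty → Disjoint W (insert x (nbr G {x})) →
      ∀ p : ℕ, ¬ Van k (Ind G W) p → (p : ℤ) + 1 ≤ r) :
    ∀ (n : ℕ) (W : Finset V) (p : ℕ), W.card = n → ¬ Van k (Ind G W) p → (p : ℤ) ≤ r := by
  have h0 : ∀ p : ℕ, ¬ Van k (Ind G ∅) p → p = 0 := by
    intro p hp
    by_contra hne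
    refine hp (fun φ _ => ⟨fun _ => 0, fun F hF hc => ?_⟩)
    have : F = ∅ := subset_empty.mp hF.1
    rw [this, card_empty] at hc
    exact absurd hc.symm hne
  intro n
  induction n with
  | zero =>
    intro W p hn hp
    rw [card_eq_zero] at hn
    subst hn
    have := h0 p hp
    omega
  | succ n ih =>
    intro W p hn hp
    obtain ⟨x, hx⟩ : W.Nonempty := by rw [← card_pos, hn]; omega
    by_cases h1 : Van k (Ind G (W.erase x)) p
    · have h1' : Van k (fun F => Ind G W F ∧ x ∉ F) p := by
        refine (van_congr (k := k) (fun F => ?_)).mp h1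
        unfold Ind
        rw [subset_erase]; tauto
      rcases p with _ | p
      · exact absurd (van_zero_of_del x h1') hp
      · have h2 : ¬ Van k (Ind G (W \ insert x (nbr G {x}))) p := by
          intro hv
          refine hp (van_of_del_link (down_ind W) x h1' ?_)
          refine (van_congr (k := k) (fun F => ?_)).mp hv
          unfold Ind
          rw [indep_insert]
          constructor
          · rintro ⟨g1, g2⟩
            have g3 : x ∉ F := fun h => (mem_sdiff.mp (g1 h)).2 (mem_insert_self _ _)
            refine ⟨g3, insert_subset hx (g1.trans sdiff_subset), g2, ?_⟩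
            rw [disjoint_left]
            intro v hv hv'
            exact (mem_sdiff.mp (g1 hv)).2 (mem_insert_of_mem hv')
          · rintro ⟨g1, g2, g3, g4⟩
            refine ⟨fun v hv => ?_, g3⟩
            rw [mem_sdiff, mem_insert, not_or]
            exact ⟨g2 (mem_insert_of_mem hv), fun h => g1 (h ▸ hv), disjoint_left.mp g4 hv⟩
        rcases (W \ insert x (nbr G {x})).eq_empty_or_nonempty with he | hne
        · rw [he] at h2
          have := h0 p h2
          push_cast
          omega
        · have := h x _ hne sdiff_disjoint p h2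
          push_cast
          exact this
    · exact ih _ p (by rw [card_erase_of_mem hx, hn]; omega) h1

end Pool.Agent.Helper58.Edge
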