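import Pool.Agent.Helper58.Edge.Hall

set_option linter.unusedSectionVars false

/-!
If no independent set is heavier than its neighbourhood, then the deficiency of a maximum
weighted matching is at most the size of some induced matching.
-/

namespace Pool.Agent.Helper58.Edge

open Finset

/-- Induced matchings inside a vertex set. -/
inductive IM {V : Type*} [LinearOrder V] [Fintype V] (G : SimpleGraph V) : Finset V → ℕ → Prop
  | zero (S : Finset V) : IM G S 0
  | succ {S : Finset V} {m : ℕ} {x y : V} (hx : x ∈ S) (hy : y ∈ S) (hxy : G.Adj x y)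
      (h : IM G (S \ (nbr G {x} ∪ nbr G {y})) m) : IM G S (m + 1)

variable {V : Type*} [LinearOrder V] [Fintype V] {G : SimpleGraph V}

theorem IM.mono {S T : Finset V} {m : ℕ} (h : IM G S m) (hST : S ⊆ T) : IM G T m := by
  induction h generalizing T with
  | zero S => exact IM.zero T
  | succ hx hy hxy _ ih => exact IM.succ (hST hx) (hST hy) hxy (ih (sdiff_subset_sdiff hST subset_rfl))

theorem cyc_rep {α : Type*} (z : Cycle α) : ∃ l : List α, z = (↑l : Cycle α) :=
  ⟨Quotient.out z, (Quotient.out_eq z).symm⟩

/-- Decomposition of a permutation into cycles. -/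
theorem orbit_decomp {H : Type*} [Fintype H] [DecidableEq H] (π : H → H)
    (hπ : Function.Injective π) (r : H → H → Prop) (hr : ∀ c, r c (π c)) :
    ∀ (n : ℕ) (s : Finset H), s.card = n → (∀ c, c ∈ s ↔ π c ∈ s) →
      ∃ D : Multiset (Cycle H), (∀ z ∈ D, z.Chain r) ∧
        ∀ c, ((D.map Cycle.toMultiset).sum).count c = if c ∈ s then 1 else 0 := by
  intro n
  induction n using Nat.strong_induction_on with
  | _ n ih =>
    intro s hs hinv
    rcases s.eq_empty_or_nonempty with rfl | ⟨u, hu⟩
    · exact ⟨0, by simp, by simp⟩
    · have hper : ∀ x, x ∈ Function.periodicPts π := fun x => hπ.mem_periodicPts x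
      set z := Function.periodicOrbit π u with hz
      have hmem : ∀ y, y ∈ z ↔ ∃ n, π^[n] u = y := fun y => Function.mem_periodicOrbit_iff (hper u)
      have hnext : ∀ c, c ∈ z ↔ π c ∈ z := by
        intro c
        constructor
        · intro hc
          obtain ⟨n, rfl⟩ := (hmem c).mp hc
          exact (hmem _).mpr ⟨n + 1, by rw [Function.iterate_succ_apply']⟩
        · intro hc
          obtain ⟨n, hn⟩ := (hmem _).mp hc
          obtain ⟨m, hm, hm'⟩ := hper c
          have h1 : π^[m] c = c := hm'
          obtain ⟨m', rfl⟩ : ∃ m', m = m' + 1 := ⟨m - 1, by omega⟩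
          rw [Function.iterate_succ_apply] at h1
          rw [← hn, ← Function.iterate_add_apply] at h1
          exact (hmem _).mpr ⟨_, h1⟩
      have hzs : ∀ y ∈ z, y ∈ s := by
        intro y hy
        obtain ⟨n, rfl⟩ := (hmem y).mp hy
        clear hy
        induction n with
        | zero => exact hu
        | succ n ihn => rw [Function.iterate_succ_apply']; exact (hinv _).mp ihn
      have hnd : z.Nodup := Function.nodup_periodicOrbit
      set s' := s.filter (fun c => c ∉ z) with hs'
      have huz : u ∈ z := (hmem u).mpr ⟨0, rfl⟩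
      have hlt : s'.card < n := by
        rw [← hs]
        refine card_lt_card ⟨filter_subset _ _, fun hsub => ?_⟩
        have := hsub hu
        rw [hs', mem_filter] at this
        exact this.2 huz
      obtain ⟨D, hD1, hD2⟩ := ih s'.card hlt s' rfl (by
        intro c
        rw [hs', mem_filter, mem_filter, hinv c, hnext c])
      refine ⟨z ::ₘ D, ?_, ?_⟩
      · intro w hw
        rcases Multiset.mem_cons.mp hw with rfl | hw
        · rw [hz, Function.periodicOrbit_chain]
          intro n _
          rw [Function.iterate_succ_apply']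
          exact hr _
        · exact hD1 w hw
      · intro c
        rw [Multiset.map_cons, Multiset.sum_cons, Multiset.count_add, hD2 c]
        have hcz : z.toMultiset.count c = if c ∈ z then 1 else 0 := by
          clear_value z
          induction z using Quotient.inductionOn with
          | _ l =>
            have hl : l.Nodup := hnd
            change Multiset.count c (l : Multiset H) = if c ∈ l then 1 else 0
            split_ifs with h
            · exact Multiset.count_eq_one_of_mem (Multiset.coe_nodup.mpr hl) h
            · exact Multiset.count_eq_zero_of_notMem h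
        rw [hcz, hs']
        simp only [mem_filter]
        by_cases h1 : c ∈ z
        · simp [h1, hzs c h1]
        · simp [h1]

/-- Consecutive pairs of a list. -/
def prs {V : Type*} : List V → Multiset (V × V)
  | x :: y :: l => (x, y) ::ₘ prs l
  | _ => 0

theorem use_prs : ∀ (l : List V), Even l.length → ∀ v, use (prs l) v = l.count v
  | [], _, v => by simp [prs, use]
  | [x], h, v => by simp at h
  | x :: y :: l, h, v => by
    have h' : Even l.length := by
      simp only [List.length_cons] at h
      rw [Nat.even_add_one, Nat.even_add_one] at h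
      simpa using h
    rw [prs, use_cons, use_prs l h' v, List.count_cons, List.count_cons]
    unfold ep
    by_cases h1 : x = v <;> by_cases h2 : y = v <;> simp [h1, h2] <;> omega

theorem card_prs : ∀ (l : List V), Even l.length → 2 * (prs l).card = l.length
  | [], _ => by simp [prs]
  | [x], h => by simp at h
  | x :: y :: l, h => by
    have h' : Even l.length := by
      simp only [List.length_cons] at h
      rw [Nat.even_add_one, Nat.even_add_one] at h
      simpa using h
    rw [prs, Multiset.card_cons, List.length_cons, List.length_cons, mul_add, card_prs l h']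

theorem adj_prs {r : V → V → Prop} : ∀ (l : List V), List.IsChain r l → ∀ p ∈ prs l, r p.1 p.2
  | [], _, p, hp => by simp [prs] at hp
  | [x], h, p, hp => by simp [prs] at hp
  | x :: y :: l, h, p, hp => by
    rw [prs, Multiset.mem_cons] at hp
    rw [List.isChain_cons_cons] at h
    rcases hp with rfl | hp
    · exact h.1
    · refine adj_prs l ?_ p hp
      exact h.2.tail

theorem exists_rot {α : Type*} {z : Cycle α} {u : α} (hu : u ∈ z) : ∃ l : List α, z = ↑(u :: l) := by
  obtain ⟨l0, rfl⟩ := cyc_rep z
  have hu' : u ∈ l0 := hu
  obtain ⟨s, t, rfl⟩ := List.append_of_mem hu'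
  refine ⟨t ++ s, ?_⟩
  rw [Cycle.coe_eq_coe]
  have := @List.isRotated_append α s (u :: t)
  simpa using this

theorem chain_tail {α : Type*} {r : α → α → Prop} {u : α} {l : List α}
    (h : Cycle.Chain r (↑(u :: l) : Cycle α)) : List.IsChain r (u :: l) := by
  rw [Cycle.chain_coe_cons] at h
  rw [← List.cons_append] at h
  exact h.left_of_append

/-- Total vertex use of a multiset of cycles. -/
def cu {V : Type*} (C : Multiset (Cycle V)) : Multiset V := (C.map Cycle.toMultiset).sum

theorem cu_cons (z : Cycle V) (C : Multiset (Cycle V)) : cu (z ::ₘ C) = z.toMultiset + cu C := by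
  unfold cu; simp

/-- A decomposition of the weights into edges and odd closed walks. -/
structure Dec (G : SimpleGraph V) (a : V → ℕ) (M : Multiset (V × V)) (C : Multiset (Cycle V)) :
    Prop where
  adj : ∀ p ∈ M, G.Adj p.1 p.2
  ch : ∀ z ∈ C, z.Chain G.Adj ∧ Odd z.length
  cnt : ∀ v, use M v + (cu C).count v = a v

theorem parity_split (D : Multiset (Cycle V)) (hD : ∀ z ∈ D, z.Chain G.Adj) :
    ∃ (M : Multiset (V × V)) (C : Multiset (Cycle V)), (∀ p ∈ M, G.Adj p.1 p.2) ∧
      (∀ z ∈ C, z.Chain G.Adj ∧ Odd z.length) ∧
      ∀ v, use M v + (cu C).count v = (cu D).count v := by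
  induction D using Multiset.induction_on with
  | empty => exact ⟨0, 0, by simp, by simp, by simp [use, cu]⟩
  | cons z D ih =>
    obtain ⟨M, C, h1, h2, h3⟩ := ih (fun w hw => hD w (Multiset.mem_cons_of_mem hw))
    have hz := hD z (Multiset.mem_cons_self z D)
    rcases Nat.even_or_odd z.length with he | ho
    · obtain ⟨l, rfl⟩ := cyc_rep z
      have he' : Even l.length := he
      have hl : List.IsChain G.Adj l := by
        cases l with
        | nil => exact List.IsChain.nil
        | cons u l => exact chain_tail hz
      refine ⟨prs l + M, C, ?_, h2, fun v => ?_⟩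
      · intro p hp
        rcases Multiset.mem_add.mp hp with hp | hp
        · exact adj_prs l hl p hp
        · exact h1 p hp
      · rw [use_add, cu_cons, Multiset.count_add, use_prs l he', add_assoc, h3 v,
          Cycle.coe_toMultiset, Multiset.coe_count]
    · refine ⟨M, z ::ₘ C, h1, ?_, fun v => ?_⟩
      · intro w hw
        rcases Multiset.mem_cons.mp hw with rfl | hw
        · exact ⟨hz, ho⟩
        · exact h2 w hw
      · rw [cu_cons, cu_cons, Multiset.count_add, Multiset.count_add, ← h3 v]
        ring

theorem odd_match (C : Multiset (Cycle V)) (hC : ∀ z ∈ C, z.Chain G.Adj ∧ Odd z.length) :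
    ∃ M : Multiset (V × V), (∀ p ∈ M, G.Adj p.1 p.2) ∧ (∀ v, use M v ≤ (cu C).count v) ∧
      2 * M.card + C.card = (cu C).card := by
  induction C using Multiset.induction_on with
  | empty => exact ⟨0, by simp, by simp [use], by simp [cu]⟩
  | cons z C ih =>
    obtain ⟨M, h1, h2, h3⟩ := ih (fun w hw => hC w (Multiset.mem_cons_of_mem hw))
    obtain ⟨hz, ho⟩ := hC z (Multiset.mem_cons_self z C)
    obtain ⟨l, rfl⟩ := cyc_rep z
    have ho' : Odd l.length := ho
    cases l with
    | nil => simp at ho'
    | cons u l =>
      have he : Even l.length := by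
        rw [List.length_cons] at ho'
        rcases ho' with ⟨m, hm⟩
        exact ⟨m, by omega⟩
      have hl : List.IsChain G.Adj l := (chain_tail hz).tail
      refine ⟨prs l + M, ?_, ?_, ?_⟩
      · intro p hp
        rcases Multiset.mem_add.mp hp with hp | hp
        · exact adj_prs l hl p hp
        · exact h1 p hp
      · intro v
        rw [use_add, cu_cons, Multiset.count_add, use_prs l he]
        have := h2 v
        have h4 : l.count v ≤ Multiset.count v (Cycle.toMultiset (↑(u :: l) : Cycle V)) := by
          rw [Cycle.coe_toMultiset, Multiset.coe_count]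
          exact List.Sublist.count_le v (List.sublist_cons_self u l)
        exact Nat.add_le_add h4 this
      · rw [cu_cons, Multiset.card_add, Multiset.card_add, Multiset.card_cons]
        have h5 : (Cycle.toMultiset (↑(u :: l) : Cycle V)).card = l.length + 1 := by
          rw [Cycle.coe_toMultiset, Multiset.coe_card, List.length_cons]
        have h6 := card_prs l he
        omega

/-- Pairwise non-adjacent odd closed walks give an induced matching. -/
theorem im_of_cycles : ∀ (C : Multiset (Cycle V)) (_ : ∀ z ∈ C, z.Chain G.Adj ∧ Odd z.length)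
    (_ : ∀ z w C', C = z ::ₘ w ::ₘ C' → ∀ u ∈ z, ∀ v ∈ w, ¬ G.Adj u v)
    (S : Finset V) (_ : ∀ z ∈ C, ∀ v ∈ z, v ∈ S), IM G S C.card := by
  intro C
  induction C using Multiset.induction_on with
  | empty => intro _ _ S _; exact IM.zero S
  | cons z C ih =>
    intro hC hp S hS
    obtain ⟨hz, ho⟩ := hC z (Multiset.mem_cons_self z C)
    obtain ⟨u, w, l, rfl⟩ : ∃ (u w : V) (l : List V), z = (↑(u :: w :: l) : Cycle V) := by
      clear hC hp hS
      obtain ⟨l, rfl⟩ := cyc_rep z
      have ho' : Odd l.length := ho
      match l, hz, ho' with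
      | [], _, h => simp at h
      | [u], h, _ =>
        rw [Cycle.chain_singleton] at h
        exact absurd h (G.loopless.irrefl u)
      | u :: w :: l, _, _ => exact ⟨u, w, l, rfl⟩
    have huw : G.Adj u w := by
      have := chain_tail hz
      rw [List.isChain_cons_cons] at this
      exact this.1
    have hu : u ∈ (↑(u :: w :: l) : Cycle V) := by
      rw [Cycle.mem_coe_iff]; simp
    have hw : w ∈ (↑(u :: w :: l) : Cycle V) := by
      rw [Cycle.mem_coe_iff]; simp
    rw [Multiset.card_cons]
    refine IM.succ (hS _ (Multiset.mem_cons_self _ C) u hu) (hS _ (Multiset.mem_cons_self _ C) w hw)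
      huw (ih (fun z hz => hC z (Multiset.mem_cons_of_mem hz)) ?_ _ ?_)
    · intro z' w' C' hC'
      refine hp z' w' ((↑(u :: w :: l) : Cycle V) ::ₘ C') ?_
      rw [hC', Multiset.cons_swap, Multiset.cons_swap (↑(u :: w :: l) : Cycle V) w']
    · intro z' hz' v hv
      obtain ⟨C', hC'⟩ := Multiset.exists_cons_of_mem hz'
      rw [mem_sdiff, mem_union, mem_nbr_singleton, mem_nbr_singleton]
      refine ⟨hS z' (Multiset.mem_cons_of_mem hz') v hv, ?_⟩
      rintro (h | h)
      · exact hp _ z' C' (by rw [hC']) u hu v hv h
      · exact hp _ z' C' (by rw [hC']) w hw v hv h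

/-- If no independent set is heavier than its neighbourhood, the deficiency is at most the size of
an induced matching in the support. -/
theorem light_bound {a : V → ℕ}
    (hl : ∀ X : Finset V, Indep G X → X ⊆ supp a → wt a X ≤ wt a (nbr G X)) :
    ∃ m, IM G (supp a) m ∧ ∑ v, a v ≤ 2 * nu G a + m := by
  classical
  -- Hall's condition for all sets
  have hall : ∀ S : Finset V, wt a S ≤ wt a (nbr G S) := by
    intro S
    set S0 := (S ∩ supp a) \ nbr G S with hS0
    have hind : Indep G S0 := by
      intro x hx y hy hxy
      rw [hS0, mem_sdiff, mem_inter] at hx hy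
      exact hy.2 (mem_nbr.mpr ⟨x, hx.1.1, hxy⟩)
    have h1 := hl S0 hind (fun v hv => by
      rw [hS0, mem_sdiff, mem_inter] at hv; exact hv.1.2)
    have h2 : wt a S = wt a S0 + wt a (S ∩ nbr G S) := by
      have e1 : wt a S = wt a (S ∩ supp a) := by
        unfold wt
        rw [← sum_subset inter_subset_left]
        intro v hv hv'
        rw [mem_inter, mem_supp] at hv'
        push Not at hv'
        exact hv' hv
      have e2 : wt a (S ∩ nbr G S) = wt a ((S ∩ supp a) ∩ nbr G S) := by
        unfold wt
        rw [← sum_subset (inter_subset_inter inter_subset_left subset_rfl)]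
        intro v hv hv'
        rw [mem_inter] at hv
        rw [mem_inter, mem_inter, mem_supp] at hv'
        by_contra hne
        exact hv' ⟨⟨hv.1, hne⟩, hv.2⟩
      rw [e1, e2, hS0]
      have := wt_sdiff_add a (S := (S ∩ supp a) ∩ nbr G S) (T := S ∩ supp a) inter_subset_left
      rw [sdiff_inter_self_left] at this
      exact this.symm
    have h3 : wt a (nbr G S0) + wt a (S ∩ nbr G S) ≤ wt a (nbr G S) := by
      rw [← wt_union]
      · refine wt_mono a ?_
        intro v hv
        rcases mem_union.mp hv with hv | hv
        · exact nbr_mono (fun w hw => by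
            rw [hS0, mem_sdiff, mem_inter] at hw; exact hw.1.1) hv
        · exact (mem_inter.mp hv).2
      · rw [disjoint_left]
        intro v hv hv'
        obtain ⟨x, hx, hxv⟩ := mem_nbr.mp hv
        rw [hS0, mem_sdiff, mem_inter] at hx
        exact hx.2 (mem_nbr.mpr ⟨v, (mem_inter.mp hv').1, hxv.symm⟩)
    omega
  obtain ⟨g, hg, hg'⟩ := hall_inj hall
  obtain ⟨D, hD1, hD2⟩ := orbit_decomp g hg (fun x y => G.Adj x.1 y.1) hg' _ univ rfl
    (fun c => by simp)
  -- push to `V`
  obtain ⟨M0, C0, h1, h2, h3⟩ := parity_split (G := G) (D.map (Cycle.map (fun x => x.1))) (by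
    intro z hz
    obtain ⟨w, hw, rfl⟩ := Multiset.mem_map.mp hz
    rw [Cycle.chain_map]
    exact hD1 w hw)
  have hcu : ∀ v, (cu (D.map (Cycle.map (fun x : (Σ v, Fin (a v)) => x.1)))).count v = a v := by
    intro v
    have e1 : ∀ D : Multiset (Cycle (Σ v, Fin (a v))),
        cu (D.map (Cycle.map (fun x : (Σ v, Fin (a v)) => x.1))) =
          ((D.map Cycle.toMultiset).sum).map (fun x => x.1) := by
      intro D
      unfold cu
      induction D using Multiset.induction_on with
      | empty => simp
      | cons z D ih =>
        rw [Multiset.map_cons, Multiset.map_cons, Multiset.map_cons, Multiset.sum_cons,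
          Multiset.sum_cons, Multiset.map_add, ih]
        congr 1
        obtain ⟨l, rfl⟩ := cyc_rep z
        rfl
    rw [e1]
    have e2 : (D.map Cycle.toMultiset).sum = (univ : Finset (Σ v, Fin (a v))).val := by
      ext c
      rw [hD2 c]
      simp only [mem_univ, if_true]
      exact (Multiset.count_eq_one_of_mem univ.nodup (mem_univ c)).symm
    rw [e2, Multiset.count_map, ← card_fiber a v]
    rw [card_def, filter_val]
    congr 1
    exact Multiset.filter_congr (fun x _ => eq_comm)
  have hdec : ∃ (n : ℕ) (M : Multiset (V × V)) (C : Multiset (Cycle V)),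
      C.card = n ∧ Dec G a M C :=
    ⟨_, M0, C0, rfl, ⟨h1, h2, fun v => by rw [h3 v, hcu v]⟩⟩
  obtain ⟨M, C, hcard, hd⟩ := Nat.find_spec hdec
  have hmin := fun n (hn : n < Nat.find hdec) => Nat.find_min hdec hn
  -- minimal decompositions have pairwise non-adjacent odd walks
  have hpair : ∀ z w C', C = z ::ₘ w ::ₘ C' → ∀ u ∈ z, ∀ v ∈ w, ¬ G.Adj u v := by
    intro z w C' hC u hu v hv huv
    obtain ⟨l, rfl⟩ := exists_rot hu
    obtain ⟨l', rfl⟩ := exists_rot hv
    obtain ⟨hz1, hz2⟩ := hd.ch _ (by rw [hC]; exact Multiset.mem_cons_self _ _)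
    obtain ⟨hw1, hw2⟩ := hd.ch (↑(v :: l') : Cycle V) (by
      rw [hC]; exact Multiset.mem_cons_of_mem (Multiset.mem_cons_self _ _))
    have he : Even l.length := by
      rw [Cycle.length_coe, List.length_cons] at hz2
      rcases hz2 with ⟨m, hm⟩
      exact ⟨m, by omega⟩
    have he' : Even l'.length := by
      rw [Cycle.length_coe, List.length_cons] at hw2
      rcases hw2 with ⟨m, hm⟩
      exact ⟨m, by omega⟩
    refine hmin C'.card (by rw [← hcard, hC]; simp) ⟨(u, v) ::ₘ (prs l + prs l' + M), C', rfl, ?_, ?_, ?_⟩
    · intro p hp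
      rcases Multiset.mem_cons.mp hp with rfl | hp
      · exact huv
      · rcases Multiset.mem_add.mp hp with hp | hp
        · rcases Multiset.mem_add.mp hp with hp | hp
          · exact adj_prs l (chain_tail hz1).tail p hp
          · exact adj_prs l' (chain_tail hw1).tail p hp
        · exact hd.adj p hp
    · intro z hz
      exact hd.ch z (by rw [hC]; exact Multiset.mem_cons_of_mem (Multiset.mem_cons_of_mem hz))
    · intro x
      rw [← hd.cnt x, hC, cu_cons, cu_cons, use_cons, use_add, use_add, use_prs l he, use_prs l' he',
        Multiset.count_add, Multiset.count_add, Cycle.coe_toMultiset, Cycle.coe_toMultiset,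
        Multiset.coe_count, Multiset.coe_count, List.count_cons, List.count_cons]
      unfold ep
      by_cases h1 : u = x <;> by_cases h2 : v = x <;> simp [h1, h2] <;> omega
  refine ⟨C.card, im_of_cycles C hd.ch hpair _ ?_, ?_⟩
  · intro z hz v hv
    rw [mem_supp]
    have := hd.cnt v
    have h4 : 1 ≤ (cu C).count v := by
      rw [Multiset.one_le_count_iff_mem]
      obtain ⟨C', rfl⟩ := Multiset.exists_cons_of_mem hz
      rw [cu_cons, Multiset.mem_add]
      left
      obtain ⟨l, rfl⟩ := cyc_rep z
      exact hv
    omega
  · obtain ⟨M', hM1, hM2, hM3⟩ := odd_match C hd.ch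
    have h5 : Mat G a (M.card + M'.card) := by
      refine ⟨M + M', Multiset.card_add _ _, ?_, ?_⟩
      · intro p hp
        rcases Multiset.mem_add.mp hp with hp | hp
        · exact hd.adj p hp
        · exact hM1 p hp
      · intro v
        rw [use_add]
        have := hd.cnt v; have := hM2 v
        omega
    have h6 := le_nu_iff.mpr h5
    have h7 : ∑ v, a v = 2 * M.card + (cu C).card := by
      rw [← sum_use, ← Multiset.toFinset_sum_count_eq (cu C)]
      have : ∑ x ∈ (cu C).toFinset, (cu C).count x = ∑ v, (cu C).count v := by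
        refine sum_subset (subset_univ _) (fun v _ hv => ?_)
        rw [Multiset.mem_toFinset] at hv
        exact Multiset.count_eq_zero_of_notMem hv
      rw [this, ← sum_add_distrib]
      exact sum_congr rfl (fun v _ => (hd.cnt v).symm)
    omega

end Pool.Agent.Helper58.Edge
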