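import Pool.Agent.Helper58.Edge.Van
import Pool.Agent.Helper58.Edge.Light

set_option linter.unusedSectionVars false

/-!
Non-vanishing cohomology of the degree complexes gives induced matchings.
-/

namespace Pool.Agent.Helper58.Edge

open Finset

variable {V : Type*} [LinearOrder V] [Fintype V] {G : SimpleGraph V} {k : Type*} [Field k]

/-- The independent sets inside `W`. -/
def Ind (G : SimpleGraph V) (W : Finset V) : Finset V → Prop := fun F => F ⊆ W ∧ Indep G F

/-- The degree complex of the weights `a` at level `n`, restricted to `W`. -/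
def Del (G : SimpleGraph V) (a : V → ℕ) (n : ℤ) (W : Finset V) : Finset V → Prop :=
  fun F => F ⊆ W ∧ Indep G F ∧ (ff G a (nbr G F) : ℤ) ≤ n

theorem down_ind (W : Finset V) : Down (Ind G W) :=
  fun _ _ h h' => ⟨h'.trans h.1, h.2.mono h'⟩

theorem down_del (a : V → ℕ) (n : ℤ) (W : Finset V) : Down (Del G a n W) :=
  fun _ _ h h' => ⟨h'.trans h.1, h.2.1.mono h',
    le_trans (by exact_mod_cast ff_mono a (nbr_mono h')) h.2.2⟩

theorem van_void {Γ : Finset V → Prop} (h : ∀ F, ¬ Γ F) (d : ℕ) : Van k Γ d :=
  fun _ _ => ⟨fun _ => 0, fun F hF => absurd hF (h F)⟩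

theorem ff_off (a : V → ℕ) (S T : Finset V) : ff G a (S ∪ T) = wt a S + ff G (off S a) T := by
  unfold ff
  rw [off_off, wt_off, union_comm T S]
  have : wt a (S ∪ T) = wt a S + wt a (T \ S) := by
    rw [← wt_union disjoint_sdiff]
    congr 1
    ext v; simp
  omega

theorem ff_off_iso {a : V → ℕ} {X T : Finset V} (h1 : Disjoint T X)
    (h2 : ∀ x ∈ X, ∀ y, G.Adj x y → off T a y = 0) : ff G (off X a) T = ff G a T := by
  unfold ff
  rw [wt_off, sdiff_eq_self_of_disjoint h1, off_off, union_comm T X, ← off_off, nu_off_iso h2]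

theorem del_erase {a : V → ℕ} {n : ℤ} {W : Finset V} {x : V} (F : Finset V) :
    (Del G a n W F ∧ x ∉ F) ↔ Del G a n (W.erase x) F := by
  unfold Del
  rw [subset_erase]
  tauto

theorem indep_insert {x : V} {F : Finset V} :
    Indep G (insert x F) ↔ Indep G F ∧ Disjoint F (nbr G {x}) := by
  constructor
  · intro h
    refine ⟨h.mono (subset_insert _ _), ?_⟩
    rw [disjoint_left]
    intro v hv hv'
    exact h x (mem_insert_self _ _) v (mem_insert_of_mem hv) (mem_nbr_singleton.mp hv')
  · rintro ⟨h1, h2⟩ u hu v hv huv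
    rw [disjoint_left] at h2
    rcases mem_insert.mp hu with hu | hu
    · rcases mem_insert.mp hv with hv | hv
      · rw [hu, hv] at huv; exact G.loopless.irrefl _ huv
      · rw [hu] at huv; exact h2 hv (mem_nbr_singleton.mpr huv)
    · rcases mem_insert.mp hv with hv | hv
      · rw [hv] at huv; exact h2 hu (mem_nbr_singleton.mpr huv.symm)
      · exact h1 u hu v hv huv

theorem disjoint_nbr_comm {A B : Finset V} : Disjoint A (nbr G B) ↔ Disjoint (nbr G A) B := by
  rw [disjoint_left, disjoint_left]
  constructor
  · intro h v hv hv'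
    obtain ⟨x, hx, hxv⟩ := mem_nbr.mp hv
    exact h hx (mem_nbr.mpr ⟨v, hv', hxv.symm⟩)
  · intro h v hv hv'
    obtain ⟨x, hx, hxv⟩ := mem_nbr.mp hv'
    exact h (mem_nbr.mpr ⟨v, hv, hxv.symm⟩) hx

theorem del_link {a : V → ℕ} {n : ℤ} {W : Finset V} {x : V} (hx : x ∈ W) (F : Finset V) :
    (x ∉ F ∧ Del G a n W (insert x F)) ↔
      Del G (off (insert x (nbr G {x})) a) (n - wt a (nbr G {x}))
        (W \ insert x (nbr G {x})) F := by
  have key : x ∉ F → Disjoint F (nbr G {x}) →
      (ff G a (nbr G (insert x F)) : ℤ) =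
        wt a (nbr G {x}) + ff G (off (insert x (nbr G {x})) a) (nbr G F) := by
    intro hxF hd
    have e1 : ff G a (nbr G (insert x F)) =
        wt a (nbr G {x}) + ff G (off (insert x (nbr G {x})) a) (nbr G F) := by
      rw [nbr_insert, ff_off]
      have e2 : off (insert x (nbr G {x})) a = off {x} (off (nbr G {x}) a) := by
        rw [off_off, ← insert_eq]
      rw [e2]
      congr 1
      refine (ff_off_iso ?_ ?_).symm
      · rwa [← disjoint_nbr_comm]
      · intro z hz y hy
        rw [mem_singleton] at hz
        subst hz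
        rw [off_off]
        exact off_mem (mem_union_right _ (mem_nbr_singleton.mpr hy))
    exact_mod_cast e1
  unfold Del
  constructor
  · rintro ⟨h1, h2, h3, h4⟩
    rw [indep_insert] at h3
    rw [key h1 h3.2] at h4
    refine ⟨?_, h3.1, by omega⟩
    intro v hv
    rw [mem_sdiff, mem_insert]
    refine ⟨h2 (mem_insert_of_mem hv), ?_⟩
    rintro (rfl | h)
    · exact h1 hv
    · exact disjoint_left.mp h3.2 hv h
  · rintro ⟨h1, h2, h3⟩
    have hxF : x ∉ F := fun h => by
      have := h1 h
      rw [mem_sdiff] at this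
      exact this.2 (mem_insert_self _ _)
    have hd : Disjoint F (nbr G {x}) := by
      rw [disjoint_left]
      intro v hv hv'
      have := h1 hv
      rw [mem_sdiff] at this
      exact this.2 (mem_insert_of_mem hv')
    refine ⟨hxF, ?_, indep_insert.mpr ⟨h2, hd⟩, ?_⟩
    · intro v hv
      rcases mem_insert.mp hv with rfl | hv
      · exact hx
      · exact (mem_sdiff.mp (h1 hv)).1
    · rw [key hxF hd]; omega

/-- The step of removing a vertex. -/
theorem del_step {a : V → ℕ} {n : ℤ} {W : Finset V} {x : V} (hx : x ∈ W) {d : ℕ}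
    (h : ¬ Van k (Del G a n W) d) :
    ¬ Van k (Del G a n (W.erase x)) d ∨ ∃ d', d = d' + 1 ∧
      ¬ Van k (Del G (off (insert x (nbr G {x})) a) (n - wt a (nbr G {x}))
        (W \ insert x (nbr G {x}))) d' := by
  by_contra hcon
  push Not at hcon
  obtain ⟨h1, h2⟩ := hcon
  rw [← van_congr (k := k) (d := d) del_erase] at h1
  rcases d with _ | d
  · exact h (van_zero_of_del x h1)
  · refine h (van_of_del_link (down_del a n W) x h1 ?_)
    rw [van_congr (k := k) (d := d) (del_link hx)]
    exact h2 d rfl

/-- Removing several vertices. -/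
theorem del_iter {a : V → ℕ} {n : ℤ} {W : Finset V} {d : ℕ}
    (h : ¬ Van k (Del G a n W) d) (S : Finset V) (hS : S ⊆ W) :
    ¬ Van k (Del G a n (W \ S)) d ∨ ∃ y ∈ S, ∃ W' ⊆ W, y ∈ W' ∧ W \ S ⊆ W' ∧ ∃ d', d = d' + 1 ∧
      ¬ Van k (Del G (off (insert y (nbr G {y})) a) (n - wt a (nbr G {y}))
        (W' \ insert y (nbr G {y}))) d' := by
  induction S using Finset.induction_on with
  | empty => left; rwa [sdiff_empty]
  | insert y S hy ih =>
    have hS' : S ⊆ W := (subset_insert _ _).trans hS
    rcases ih hS' with h1 | ⟨y', hy', W', h1, h2, h3, h4⟩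
    · have hyW : y ∈ W \ S := mem_sdiff.mpr ⟨hS (mem_insert_self _ _), hy⟩
      have e : W \ insert y S = (W \ S).erase y := by
        ext v; simp only [mem_sdiff, mem_insert, mem_erase]; tauto
      rcases del_step hyW h1 with h2 | h2
      · left; rwa [e]
      · right
        refine ⟨y, mem_insert_self _ _, W \ S, sdiff_subset, hyW, ?_, h2⟩
        rw [e]; exact erase_subset _ _
    · right
      exact ⟨y', mem_insert_of_mem hy', W', h1, h2,
        (sdiff_subset_sdiff subset_rfl (subset_insert _ _)).trans h3, h4⟩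

/-- The weight of a set minus the weight of its neighbourhood. -/
noncomputable def hh (G : SimpleGraph V) (a : V → ℕ) (X : Finset V) : ℤ :=
  (wt a X : ℤ) - wt a (nbr G X)

/-- The conclusion of the main combinatorial claim. -/
def Out (G : SimpleGraph V) (k : Type*) [Field k] (a : V → ℕ) (n : ℤ) (W : Finset V) (d : ℕ) :
    Prop :=
  ∃ (p : ℕ) (X : Finset V) (m : ℕ), ¬ Van k (Ind G (W \ supp a)) p ∧ X ⊆ supp a \ W ∧
    Indep G X ∧ IM G (supp a \ (X ∪ nbr G X)) m ∧
    (d : ℤ) + wt a univ - 2 * n ≤ p + m + hh G a X

/-- Elements of `W` outside the support have no neighbours in the support. -/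
def Pas (G : SimpleGraph V) (a : V → ℕ) (W : Finset V) : Prop :=
  ∀ x ∈ W \ supp a, ∀ y, G.Adj x y → a y = 0

theorem Pas.mono {a a' : V → ℕ} {W W' : Finset V} (h : Pas G a W) (h1 : W' \ supp a' ⊆ W \ supp a)
    (h2 : ∀ v, a' v ≤ a v) : Pas G a' W' := by
  intro x hx y hxy
  have := h x (h1 hx) y hxy
  have := h2 y
  omega

theorem hh_insert {a : V → ℕ} {x : V} {X : Finset V} (hx : x ∉ X) (hd : Disjoint X (nbr G {x})) :
    hh G a (insert x X) = a x - wt a (nbr G {x}) + hh G (off (insert x (nbr G {x})) a) X := by
  unfold hh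
  rw [wt_off, wt_off, nbr_insert]
  have e1 : X \ insert x (nbr G {x}) = X := by
    rw [Finset.sdiff_eq_self_iff_disjoint, disjoint_insert_right]
    exact ⟨hx, hd⟩
  have hxn : x ∉ nbr G X := by
    have := disjoint_nbr_comm.mp hd
    rwa [disjoint_singleton_right] at this
  have e2 : nbr G X \ insert x (nbr G {x}) = nbr G X \ nbr G {x} := by
    ext v
    simp only [mem_sdiff, mem_insert, not_or]
    constructor
    · rintro ⟨h1, h2, h3⟩; exact ⟨h1, h3⟩
    · rintro ⟨h1, h3⟩; exact ⟨h1, fun h => hxn (h ▸ h1), h3⟩
  have e3 : wt a (insert x X) = a x + wt a X := by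
    unfold wt; rw [sum_insert hx]
  have e4 : wt a (nbr G {x} ∪ nbr G X) = wt a (nbr G {x}) + wt a (nbr G X \ nbr G {x}) := by
    rw [← wt_union disjoint_sdiff]
    congr 1
    ext v; simp
  rw [e1, e2, e3, e4]
  push_cast
  ring

theorem wt_off_insert {a : V → ℕ} {x : V} :
    wt (off (insert x (nbr G {x})) a) univ + a x + wt a (nbr G {x}) = wt a univ := by
  rw [wt_off]
  have hx : x ∉ nbr G {x} := by rw [mem_nbr_singleton]; exact G.loopless.irrefl x
  have e3 : wt a (insert x (nbr G {x})) = a x + wt a (nbr G {x}) := by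
    unfold wt; rw [sum_insert hx]
  have := wt_sdiff_add a (subset_univ (insert x (nbr G {x})))
  omega

/-- What the induction hypothesis gives for a link. -/
theorem link_out {a : V → ℕ} {n : ℤ} {W : Finset V} {d : ℕ} (hpas : Pas G a W) {x : V}
    (hxa : x ∈ supp a)
    (h : Out G k (off (insert x (nbr G {x})) a) (n - wt a (nbr G {x}))
      (W \ insert x (nbr G {x})) d) :
    ∃ (p : ℕ) (X : Finset V) (m : ℕ), ¬ Van k (Ind G (W \ supp a)) p ∧ X ⊆ supp a \ W ∧
    Indep G (insert x X) ∧ IM G (supp a \ (insert x X ∪ nbr G (insert x X))) m ∧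
    ((d + 1 : ℕ) : ℤ) + wt a univ - 2 * n ≤ p + m + 1 + hh G a (insert x X) := by
  obtain ⟨p, X, m, h1, h2, h3, h4, h5⟩ := h
  rw [supp_off] at h1 h2 h4
  have e1 : (W \ insert x (nbr G {x})) \ (supp a \ insert x (nbr G {x})) = W \ supp a := by
    ext v
    simp only [mem_sdiff, mem_insert, not_or, not_and, not_not]
    constructor
    · rintro ⟨⟨hv1, hv2⟩, hv3⟩
      exact ⟨hv1, fun hv => by have := hv3 hv; tauto⟩
    · rintro ⟨hv1, hv2⟩
      have hv3 : v ≠ x := fun h => hv2 (h ▸ hxa)
      have hv4 : v ∉ nbr G {x} := by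
        intro hv
        rw [mem_nbr_singleton] at hv
        have := hpas v (mem_sdiff.mpr ⟨hv1, hv2⟩) x hv.symm
        exact (mem_supp.mp hxa) this
      exact ⟨⟨hv1, hv3, hv4⟩, fun h => absurd h hv2⟩
  rw [e1] at h1
  have hX : ∀ v ∈ X, v ∈ supp a ∧ v ≠ x ∧ v ∉ nbr G {x} ∧ v ∉ W := by
    intro v hv
    have := h2 hv
    simp only [mem_sdiff, mem_insert, not_or, not_and, not_not] at this
    obtain ⟨⟨q1, q2, q3⟩, q4⟩ := this
    refine ⟨q1, q2, q3, fun hW => ?_⟩
    exact q3 (q4 hW q2)
  have hxX : x ∉ X := fun h => (hX x h).2.1 rfl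
  have hdis : Disjoint X (nbr G {x}) := by
    rw [disjoint_left]; intro v hv; exact (hX v hv).2.2.1
  refine ⟨p, X, m, h1, fun v hv => mem_sdiff.mpr ⟨(hX v hv).1, (hX v hv).2.2.2⟩,
    indep_insert.mpr ⟨h3, hdis⟩, h4.mono ?_, ?_⟩
  · rw [nbr_insert]
    intro v hv
    simp only [mem_sdiff, mem_union, mem_insert, not_or] at hv ⊢
    tauto
  · rw [hh_insert hxX hdis]
    have := wt_off_insert (G := G) (a := a) (x := x)
    push_cast
    omega

theorem indep_nbr_disjoint {Q Q' : Finset V} (h : Indep G Q) (h' : Q' ⊆ Q) :
    Disjoint Q (nbr G Q') :=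
  (indep_iff_disjoint.mp h).mono_right (nbr_mono h')

/-- The main combinatorial claim. -/
theorem claimE : ∀ (N : ℕ) (a : V → ℕ) (n : ℤ) (W : Finset V) (d : ℕ),
    (supp a).card + W.card = N → Pas G a W → ¬ Van k (Del G a n W) d → Out G k a n W d := by
  intro N
  induction N using Nat.strong_induction_on with
  | _ N ih =>
  intro a n W d hN hpas hvan
  by_cases hheavy : ∃ X : Finset V, X.Nonempty ∧ Indep G X ∧ X ⊆ supp a ∧ wt a (nbr G X) ≤ wt a X
  · -- there is a heavy set
    obtain ⟨X, hX⟩ := exists_minHeavy hheavy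
    set Y := nbr G X with hY
    have hXY : Disjoint X Y := indep_iff_disjoint.mp hX.ind
    have hYW : ∀ y ∈ W, y ∈ Y → y ∈ supp a := by
      intro y hyW hyY
      by_contra hcon
      obtain ⟨x, hx, hxy⟩ := mem_nbr.mp hyY
      exact mem_supp.mp (hX.sub hx) (hpas y (mem_sdiff.mpr ⟨hyW, hcon⟩) x hxy.symm)
    rcases del_iter hvan (Y ∩ W) inter_subset_right with h1 | ⟨y, hy, W', hW'1, hW'2, hW'3, d', rfl, h1⟩
    · -- all neighbours deleted
      have hW1 : W \ (Y ∩ W) = W \ Y := by
        ext v; simp only [mem_sdiff, mem_inter, not_and]; tauto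
      rw [hW1] at h1
      by_cases hXW : ∃ x ∈ X, x ∈ W
      · obtain ⟨x, hx, hxW⟩ := hXW
        exfalso
        refine h1 (van_cone x (fun F hF => ?_) d)
        obtain ⟨f1, f2, f3⟩ := hF
        have hFY : Disjoint F Y := by
          rw [disjoint_left]; intro v hv hv'; exact (mem_sdiff.mp (f1 hv)).2 hv'
        have hNx : nbr G {x} ⊆ Y := nbr_mono (singleton_subset_iff.mpr hx)
        refine ⟨?_, indep_insert.mpr ⟨f2, hFY.mono_right hNx⟩, ?_⟩
        · intro v hv
          rcases mem_insert.mp hv with hv | hv
          · rw [hv]; exact mem_sdiff.mpr ⟨hxW, disjoint_left.mp hXY hx⟩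
          · exact f1 hv
        · have e1 := hX.ff_eq (T := nbr G F) (disjoint_nbr_comm.mp hFY)
          have e2 : ff G a (nbr G (insert x F)) ≤ ff G a (nbr G F ∪ nbr G X) := ff_mono a (by
            rw [nbr_insert]; exact union_subset (hNx.trans subset_union_right) subset_union_left)
          omega
      · push Not at hXW
        have e0 : ∀ F, Del G a n (W \ Y) F ↔ Del G (off (X ∪ Y) a) (n - wt a Y) (W \ Y) F := by
          have key : ∀ F, F ⊆ W \ Y →
              (ff G a (nbr G F) : ℤ) = wt a Y + ff G (off (X ∪ Y) a) (nbr G F) := by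
            intro F f1
            have hFY : Disjoint F Y := by
              rw [disjoint_left]; intro v hv hv'; exact (mem_sdiff.mp (f1 hv)).2 hv'
            have hd := disjoint_nbr_comm.mp hFY
            have e1 := hX.ff_eq (T := nbr G F) hd
            have e2 : ff G (off (X ∪ Y) a) (nbr G F) = ff G (off Y a) (nbr G F) := by
              rw [← off_off]
              refine ff_off_iso hd ?_
              intro z hz y hy
              rw [off_off]
              exact off_mem (mem_union_right _ (mem_nbr.mpr ⟨z, hz, hy⟩))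
            rw [← e1, union_comm, ff_off, e2]
            push_cast
            rfl
          intro F
          unfold Del
          constructor
          · rintro ⟨f1, f2, f3⟩
            rw [key F f1] at f3
            exact ⟨f1, f2, by omega⟩
          · rintro ⟨f1, f2, f3⟩
            refine ⟨f1, f2, ?_⟩
            rw [key F f1]; omega
        have e1 : (W \ Y) \ (supp a \ (X ∪ Y)) = W \ supp a := by
          ext v
          simp only [mem_sdiff, mem_union, not_or, not_and, not_not]
          constructor
          · rintro ⟨⟨hv1, hv2⟩, hv3⟩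
            refine ⟨hv1, fun hv4 => ?_⟩
            have hvX : v ∉ X := fun h => hXW v h hv1
            exact hv2 (hv3 hv4 hvX)
          · rintro ⟨hv1, hv2⟩
            exact ⟨⟨hv1, fun h => hv2 (hYW v hv1 h)⟩, fun h => absurd h hv2⟩
        obtain ⟨p, X', m, g1, g2, g3, g4, g5⟩ := ih _ (by
          rw [← hN, supp_off]
          obtain ⟨x, hx⟩ := hX.ne
          have c1 : (supp a \ (X ∪ Y)).card < (supp a).card :=
            card_lt_card ⟨sdiff_subset, fun h => (mem_sdiff.mp (h (hX.sub hx))).2
              (mem_union_left _ hx)⟩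
          have c2 := card_le_card (sdiff_subset (s := W) (t := Y))
          omega) (off (X ∪ Y) a) (n - wt a Y) (W \ Y) d rfl (hpas.mono (by
            rw [supp_off, e1]) (fun v => off_le _ _ v))
          (fun h => h1 ((van_congr (k := k) e0).mpr h))
        rw [supp_off] at g1 g2 g4
        rw [e1] at g1
        have hX' : ∀ v ∈ X', v ∈ supp a ∧ v ∉ X ∧ v ∉ Y ∧ v ∉ W := by
          intro v hv
          have := g2 hv
          simp only [mem_sdiff, mem_union, not_or, not_and, not_not] at this
          obtain ⟨⟨q1, q2, q3⟩, q4⟩ := this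
          exact ⟨q1, q2, q3, fun h => q3 (q4 h)⟩
        have hd1 : Disjoint X X' := by
          rw [disjoint_right]; intro v hv; exact (hX' v hv).2.1
        have hd2 : Disjoint X' Y := by
          rw [disjoint_left]; intro v hv; exact (hX' v hv).2.2.1
        have hd3 : Disjoint (nbr G X') X := disjoint_nbr_comm.mp hd2
        have hXind : Indep G (X ∪ X') := by
          intro u hu v hv huv
          rcases mem_union.mp hu with hu | hu
          · rcases mem_union.mp hv with hv | hv
            · exact hX.ind u hu v hv huv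
            · exact disjoint_left.mp hd2 hv (mem_nbr.mpr ⟨u, hu, huv⟩)
          · rcases mem_union.mp hv with hv | hv
            · exact disjoint_left.mp hd2 hu (mem_nbr.mpr ⟨v, hv, huv.symm⟩)
            · exact g3 u hu v hv huv
        refine ⟨p, X ∪ X', m, g1, ?_, hXind, g4.mono ?_, ?_⟩
        · intro v hv
          rcases mem_union.mp hv with hv | hv
          · exact mem_sdiff.mpr ⟨hX.sub hv, hXW v hv⟩
          · exact mem_sdiff.mpr ⟨(hX' v hv).1, (hX' v hv).2.2.2⟩
        · rw [nbr_union]
          intro v hv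
          simp only [mem_sdiff, mem_union, not_or] at hv ⊢
          tauto
        · have w1 : wt a (X ∪ X') = wt a X + wt a X' := wt_union hd1
          have w2 : wt a (nbr G (X ∪ X')) = wt a Y + wt a (nbr G X' \ Y) := by
            rw [nbr_union, ← hY, ← wt_union disjoint_sdiff]
            congr 1
            ext v; simp
          have w3 : wt (off (X ∪ Y) a) X' = wt a X' := by
            rw [wt_off]
            congr 1
            rw [Finset.sdiff_eq_self_iff_disjoint, disjoint_left]
            intro v hv hv'
            rcases mem_union.mp hv' with h | h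
            · exact (hX' v hv).2.1 h
            · exact (hX' v hv).2.2.1 h
          have w4 : wt (off (X ∪ Y) a) (nbr G X') = wt a (nbr G X' \ Y) := by
            rw [wt_off]
            congr 1
            ext v
            simp only [mem_sdiff, mem_union, not_or]
            constructor
            · rintro ⟨q1, q2, q3⟩; exact ⟨q1, q3⟩
            · rintro ⟨q1, q3⟩; exact ⟨q1, disjoint_left.mp hd3 q1, q3⟩
          have w5 : wt (off (X ∪ Y) a) univ + wt a X + wt a Y = wt a univ := by
            rw [wt_off]
            have t1 := wt_sdiff_add a (subset_univ (X ∪ Y))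
            have t2 : wt a (X ∪ Y) = wt a X + wt a Y := wt_union hXY
            omega
          unfold hh at g5 ⊢
          rw [w3, w4] at g5
          rw [w1, w2]
          push_cast
          omega
    · -- a link of a neighbour
      have hyY : y ∈ Y := (mem_inter.mp hy).1
      have hya : y ∈ supp a := hYW y (mem_inter.mp hy).2 hyY
      have e1 : W' \ supp a = W \ supp a := by
        ext v
        simp only [mem_sdiff]
        constructor
        · rintro ⟨q1, q2⟩; exact ⟨hW'1 q1, q2⟩
        · rintro ⟨q1, q2⟩
          refine ⟨hW'3 (mem_sdiff.mpr ⟨q1, fun h => q2 (hYW v q1 (mem_inter.mp h).1)⟩), q2⟩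
      have hpas' : Pas G a W' := hpas.mono (by rw [e1]) (fun _ => le_rfl)
      have g := ih _ (by
        rw [← hN, supp_off]
        have c1 : (supp a \ insert y (nbr G {y})).card < (supp a).card :=
          card_lt_card ⟨sdiff_subset, fun h => (mem_sdiff.mp (h hya)).2 (mem_insert_self _ _)⟩
        have c2 := card_le_card ((sdiff_subset (s := W') (t := insert y (nbr G {y}))).trans hW'1)
        omega) (off (insert y (nbr G {y})) a) (n - wt a (nbr G {y}))
          (W' \ insert y (nbr G {y})) d' rfl (hpas'.mono (by
            rw [supp_off]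
            intro v hv
            simp only [mem_sdiff, mem_insert, not_or, not_and, not_not] at hv ⊢
            obtain ⟨⟨hv1, hv2⟩, hv3⟩ := hv
            refine ⟨hv1, fun hv4 => ?_⟩
            have := hv3 hv4
            tauto) (fun v => off_le _ _ v)) h1
      obtain ⟨p, X', m, g1, g2, g3, g4, g5⟩ := link_out hpas' hya g
      rw [e1] at g1
      set Q := insert y X' with hQ
      set Q0 := Q \ Y with hQ0
      set Y1 := Q ∩ Y with hY1
      have hyQ : y ∈ Q := mem_insert_self _ _
      have hQ0Q : Q0 ⊆ Q := sdiff_subset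
      have hQ0W : Q0 ⊆ supp a \ W := by
        intro v hv
        rw [hQ0, mem_sdiff, hQ, mem_insert] at hv
        obtain ⟨hv1 | hv1, hv2⟩ := hv
        · exact absurd hyY (hv1 ▸ hv2)
        · have := mem_sdiff.mp (g2 hv1)
          refine mem_sdiff.mpr ⟨this.1, fun hvW => this.2 (hW'3 (mem_sdiff.mpr ⟨hvW, ?_⟩))⟩
          exact fun h => hv2 (mem_inter.mp h).1
      have hQ0Y : Disjoint Q0 Y := sdiff_disjoint
      have hQ0X : Disjoint (nbr G Q0) X := disjoint_nbr_comm.mp hQ0Y
      have hall := hX.hall (Y := Y1) inter_subset_right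
      have hN1 : wt a (nbr G Q0) + wt a (nbr G Y1 ∩ X) ≤ wt a (nbr G Q) := by
        rw [← wt_union (hQ0X.mono_right inter_subset_right)]
        exact wt_mono a (union_subset (nbr_mono hQ0Q)
          (inter_subset_left.trans (nbr_mono inter_subset_left)))
      have hQsum : wt a Q0 + wt a Y1 = wt a Q := by
        have := wt_sdiff_add a (S := Q ∩ Y) (T := Q) inter_subset_left
        rwa [sdiff_inter_self_left] at this
      have hle : hh G a Q ≤ hh G a Q0 := by
        unfold hh; omega
      have hQ0ind : Indep G Q0 := g3.mono hQ0Q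
      by_cases hlt : hh G a Q + 1 ≤ hh G a Q0
      · refine ⟨p, Q0, m, g1, hQ0W, hQ0ind, g4.mono ?_, by omega⟩
        exact sdiff_subset_sdiff subset_rfl (union_subset_union hQ0Q (nbr_mono hQ0Q))
      · have heq : wt a Y1 = wt a (nbr G Y1 ∩ X) := by
          unfold hh at hlt hle; omega
        obtain ⟨x, hx, hxy⟩ := mem_nbr.mp hyY
        have hyY1 : y ∈ Y1 := mem_inter.mpr ⟨hyQ, hyY⟩
        set X1 := X \ nbr G Y1 with hX1
        have hX1ne : X1 ≠ X := by
          intro he
          have : x ∈ X1 := by rw [he]; exact hx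
          rw [hX1, mem_sdiff] at this
          exact this.2 (mem_nbr.mpr ⟨y, hyY1, hxy.symm⟩)
        have hX1sum : wt a X1 + wt a (nbr G Y1 ∩ X) = wt a X := by
          have := wt_sdiff_add a (S := nbr G Y1 ∩ X) (T := X) inter_subset_right
          have e : X \ (nbr G Y1 ∩ X) = X1 := by rw [hX1]; ext v; simp
          rw [e] at this; exact this
        have hX1N : nbr G X1 ⊆ Y \ Y1 := by
          intro v hv
          rw [mem_sdiff]
          refine ⟨nbr_mono sdiff_subset hv, fun hvY => ?_⟩
          obtain ⟨z, hz, hzv⟩ := mem_nbr.mp hv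
          rw [hX1, mem_sdiff] at hz
          exact hz.2 (mem_nbr.mpr ⟨v, hvY, hzv.symm⟩)
        have hYsum : wt a (Y \ Y1) + wt a Y1 = wt a Y := wt_sdiff_add a inter_subset_right
        have hheavyX : wt a Y ≤ wt a X := hX.heavy
        have hX1e : X1 = ∅ := by
          by_contra hne
          have t1 := hX.min X1 sdiff_subset hX1ne (nonempty_iff_ne_empty.mpr hne)
          have t2 := wt_mono a hX1N
          omega
        rw [hX1e, wt_empty] at hX1sum
        have hzero : wt a (Y \ Y1) = 0 := by omega
        have hYQ : ∀ v ∈ Y, v ∈ supp a → v ∈ Q := by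
          intro v hv hva
          by_contra hcon
          have h0 : a v ≤ wt a (Y \ Y1) := by
            unfold wt
            exact single_le_sum (f := a) (fun _ _ => Nat.zero_le _)
              (mem_sdiff.mpr ⟨hv, fun h => hcon (mem_inter.mp h).1⟩)
          exact mem_supp.mp hva (by omega)
        have hxS : x ∈ supp a \ (Q0 ∪ nbr G Q0) := by
          rw [mem_sdiff, mem_union]
          refine ⟨hX.sub hx, ?_⟩
          rintro (h | h)
          · exact g3 x (hQ0Q h) y hyQ hxy
          · exact disjoint_left.mp hQ0X h hx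
        have hyS : y ∈ supp a \ (Q0 ∪ nbr G Q0) := by
          rw [mem_sdiff, mem_union]
          refine ⟨hya, ?_⟩
          rintro (h | h)
          · exact disjoint_left.mp hQ0Y h hyY
          · obtain ⟨z, hz, hzy⟩ := mem_nbr.mp h
            exact g3 z (hQ0Q hz) y hyQ hzy
        refine ⟨p, Q0, m + 1, g1, hQ0W, hQ0ind, IM.succ hxS hyS hxy (g4.mono ?_), ?_⟩
        · intro v hv
          rw [mem_sdiff, mem_union, not_or] at hv
          obtain ⟨v1, v2, v3⟩ := hv
          rw [mem_sdiff, mem_sdiff, mem_union, mem_union, not_or, not_or]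
          refine ⟨⟨v1, fun h => v2 (hQ0Q h), fun h => v3 (nbr_mono hQ0Q h)⟩, fun h => ?_, fun h => ?_⟩
          · exact v2 (hYQ v (nbr_mono (singleton_subset_iff.mpr hx) h) v1)
          · exact v3 (nbr_mono (singleton_subset_iff.mpr hyQ) h)
        · push_cast at g5 ⊢
          omega
  · -- no heavy set
    push Not at hheavy
    have hneg : ∀ X : Finset V, Indep G X → X ⊆ supp a → X.Nonempty → hh G a X ≤ -1 := by
      intro X h1 h2 h3
      have := hheavy X h3 h1 h2
      unfold hh
      omega
    have hempty : hh G a ∅ = 0 := by unfold hh; rw [nbr_empty]; simp [wt]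
    by_cases hW : ∃ x, x ∈ W ∧ x ∈ supp a
    · obtain ⟨x, hxW, hxa⟩ := hW
      rcases del_step hxW hvan with h1 | ⟨d', rfl, h1⟩
      · have e1 : W.erase x \ supp a = W \ supp a := by
          ext v
          simp only [mem_sdiff, mem_erase]
          constructor
          · rintro ⟨⟨_, h⟩, h'⟩; exact ⟨h, h'⟩
          · rintro ⟨h, h'⟩; exact ⟨⟨fun h2 => h' (h2 ▸ hxa), h⟩, h'⟩
        obtain ⟨p, X, m, g1, g2, g3, g4, g5⟩ := ih _ (by
          rw [← hN, card_erase_of_mem hxW]
          have := card_pos.mpr ⟨x, hxW⟩
          omega) a n (W.erase x) d rfl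
          (hpas.mono (by rw [e1]) (fun _ => le_rfl)) h1
        rw [e1] at g1
        refine ⟨p, ∅, m, g1, by simp, by intro x hx; simp at hx, g4.mono ?_, ?_⟩
        · rw [nbr_empty, union_empty, sdiff_empty]; exact sdiff_subset
        · rw [hempty]
          rcases X.eq_empty_or_nonempty with rfl | hne
          · rw [hempty] at g5; exact g5
          · have := hneg X g3 (g2.trans sdiff_subset) hne
            omega
      · have g := ih _ (by
          rw [← hN, supp_off]
          have c1 : (supp a \ insert x (nbr G {x})).card < (supp a).card :=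
            card_lt_card ⟨sdiff_subset, fun h => (mem_sdiff.mp (h hxa)).2 (mem_insert_self _ _)⟩
          have c2 := card_le_card (sdiff_subset (s := W) (t := insert x (nbr G {x})))
          omega) (off (insert x (nbr G {x})) a) (n - wt a (nbr G {x}))
            (W \ insert x (nbr G {x})) d' rfl (hpas.mono (by
              rw [supp_off]
              intro v hv
              simp only [mem_sdiff, mem_insert, not_or, not_and, not_not] at hv ⊢
              obtain ⟨⟨hv1, hv2⟩, hv3⟩ := hv
              refine ⟨hv1, fun hv4 => ?_⟩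
              have := hv3 hv4
              tauto) (fun v => off_le _ _ v)) h1
        obtain ⟨p, X, m, g1, g2, g3, g4, g5⟩ := link_out hpas hxa g
        refine ⟨p, ∅, m, g1, by simp, by intro x hx; simp at hx, g4.mono ?_, ?_⟩
        · rw [nbr_empty, union_empty, sdiff_empty]; exact sdiff_subset
        · rw [hempty]
          have := hneg (insert x X) g3 (by
            intro v hv
            rcases mem_insert.mp hv with rfl | hv
            · exact hxa
            · exact (mem_sdiff.mp (g2 hv)).1) (insert_nonempty _ _)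
          omega
    · push Not at hW
      obtain ⟨m, hm1, hm2⟩ := light_bound (G := G) (a := a) (by
        intro X h1 h2
        rcases X.eq_empty_or_nonempty with rfl | hne
        · simp [wt]
        · exact (hheavy X hne h1 h2).le)
      have hW' : W \ supp a = W := by
        rw [Finset.sdiff_eq_self_iff_disjoint, disjoint_left]
        exact hW
      have hff : ∀ F, F ⊆ W → ff G a (nbr G F) = nu G a := by
        intro F hF
        have h0 : ∀ v ∈ nbr G F, a v = 0 := by
          intro v hv
          obtain ⟨x, hx, hxv⟩ := mem_nbr.mp hv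
          exact hpas x (by rw [hW']; exact hF hx) v hxv
        have e1 : wt a (nbr G F) = 0 := by
          unfold wt; exact sum_eq_zero h0
        have e2 : off (nbr G F) a = a := by
          funext v
          unfold off
          split_ifs with h
          · exact (h0 v h).symm
          · rfl
        unfold ff
        rw [e1, e2, zero_add]
      refine ⟨d, ∅, m, ?_, by simp, by intro x hx; simp at hx, ?_, ?_⟩
      · intro hcon
        refine hvan ?_
        by_cases hn : (nu G a : ℤ) ≤ n
        · rw [hW'] at hcon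
          refine (van_congr (k := k) (fun F => ?_)).mp hcon
          unfold Ind Del
          constructor
          · rintro ⟨h1, h2⟩; exact ⟨h1, h2, by rw [hff F h1]; exact hn⟩
          · rintro ⟨h1, h2, _⟩; exact ⟨h1, h2⟩
        · refine van_void (fun F hF => hn ?_) d
          rw [← hff F hF.1]; exact hF.2.2
      · rw [nbr_empty, union_empty, sdiff_empty]; exact hm1
      · rw [hempty]
        by_cases hn : (nu G a : ℤ) ≤ n
        · have : wt a univ = ∑ v, a v := rfl
          omega
        · exact absurd (van_void (fun F hF => hn (by rw [← hff F hF.1]; exact hF.2.2)) d) hvan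

end Pool.Agent.Helper58.Edge
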