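import Mathlib

/-!
Edge ideals, Koszul homology with coefficients in an ideal of a polynomial ring, and
Castelnuovo-Mumford regularity.
-/

namespace Pool.Agent.Helper58.Edge

open MvPolynomial

variable {V : Type*} [Fintype V] [LinearOrder V] {k : Type*} [Field k]

/-- The edge ideal of `G`, generated by the products `X x * X y` over the edges `x y`. -/
noncomputable def edgeIdeal (k : Type*) [Field k] (G : SimpleGraph V) : Ideal (MvPolynomial V k) :=
  Ideal.span {f | ∃ x y, G.Adj x y ∧ f = X x * X y}

/-- `c` is a chain of homological degree `i` and internal degree `j` of the Koszul complex of the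
variables with coefficients in the ideal `J`. Here `c τ` is the coefficient, in `J`, of the basis
vector `e_τ`, whose homological degree and internal degree are both `|τ|`. -/
def IsKoszulChain (J : Ideal (MvPolynomial V k)) (i j : ℕ) (c : Finset V → MvPolynomial V k) :
    Prop :=
  ∀ τ, c τ ∈ J ∧ ∀ u ∈ (c τ).support, τ.card = i ∧ u.degree + i = j

/-- The Koszul differential, which maps `e_τ` to the alternating sum of the `X t • e_(τ \ t)`. -/
noncomputable def koszulDiff (c : Finset V → MvPolynomial V k) : Finset V → MvPolynomial V k :=
  fun σ => ∑ t ∈ σᶜ, (-1) ^ (σ.filter (fun s => s < t)).card * X t * c (insert t σ)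

/-- The Koszul homology of `J` in homological degree `i` and internal degree `j`, which is
`Tor_i(J, k)_j`, is nonzero. -/
def TorNonzero (J : Ideal (MvPolynomial V k)) (i j : ℕ) : Prop :=
  ∃ c, IsKoszulChain J i j c ∧ koszulDiff c = 0 ∧
    ∀ b, IsKoszulChain J (i + 1) j b → koszulDiff b ≠ c

/-- The Castelnuovo-Mumford regularity of `J` is at most `r`. -/
def RegLE (J : Ideal (MvPolynomial V k)) (r : ℤ) : Prop :=
  ∀ i j : ℕ, TorNonzero J i j → (j : ℤ) - i ≤ r

end Pool.Agent.Helper58.Edge
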