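import Pool.Agent.Helper58.Edge.Match

set_option linter.unusedSectionVars false

namespace Pool.Agent.Helper58.Edge

open Finset

variable {V : Type*} [LinearOrder V] [Fintype V] {G : SimpleGraph V}

/-- Hall's theorem for weights. -/
theorem hall_inj {b c : V → ℕ} (h : ∀ S : Finset V, wt b S ≤ wt c (nbr G S)) :
    ∃ g : (Σ v, Fin (b v)) → (Σ v, Fin (c v)), Function.Injective g ∧ ∀ x, G.Adj x.1 (g x).1 := by
  classical
  let t : (Σ v, Fin (b v)) → Finset (Σ v, Fin (c v)) := fun x => univ.filter (fun y => G.Adj x.1 y.1)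
  have key := (Finset.all_card_le_biUnion_card_iff_exists_injective t).mp (by
    intro s
    set S : Finset V := s.image (fun x => x.1) with hS
    have h1 : s.card ≤ wt b S := by
      have : s ⊆ S.sigma (fun v => (univ : Finset (Fin (b v)))) := by
        intro x hx
        rw [mem_sigma]
        exact ⟨mem_image_of_mem _ hx, mem_univ _⟩
      refine (card_le_card this).trans ?_
      rw [card_sigma]
      unfold wt
      simp
    have h2 : wt c (nbr G S) ≤ (s.biUnion t).card := by
      have : (nbr G S).sigma (fun v => (univ : Finset (Fin (c v)))) ⊆ s.biUnion t := by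
        intro y hy
        rw [mem_sigma, mem_nbr] at hy
        obtain ⟨⟨x, hx, hxy⟩, _⟩ := hy
        obtain ⟨x', hx', rfl⟩ := mem_image.mp hx
        rw [mem_biUnion]
        exact ⟨x', hx', by simp [t, hxy]⟩
      refine le_trans (le_of_eq ?_) (card_le_card this)
      rw [card_sigma]
      unfold wt
      simp
    exact h1.trans ((h S).trans h2))
  obtain ⟨g, hg, hg'⟩ := key
  exact ⟨g, hg, fun x => by have := hg' x; simpa [t] using this⟩

theorem card_fiber (b : V → ℕ) (v : V) :
    (univ.filter (fun x : (Σ v, Fin (b v)) => x.1 = v)).card = b v := by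
  classical
  have : univ.filter (fun x : (Σ v, Fin (b v)) => x.1 = v) =
      ({v} : Finset V).sigma (fun v => (univ : Finset (Fin (b v)))) := by
    ext x; simp [mem_sigma]
  rw [this, card_sigma]; simp

/-- A saturating matching from Hall's condition. -/
theorem mat_of_hall {b c a : V → ℕ} (h : ∀ S : Finset V, wt b S ≤ wt c (nbr G S))
    (ha : ∀ v, b v + c v ≤ a v) : Mat G a (∑ v, b v) := by
  classical
  obtain ⟨g, hg, hg'⟩ := hall_inj h
  refine ⟨(univ : Finset (Σ v, Fin (b v))).val.map (fun x => (x.1, (g x).1)), ?_, ?_, ?_⟩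
  · rw [Multiset.card_map, card_val, card_univ, Fintype.card_sigma]; simp
  · intro p hp
    obtain ⟨x, _, rfl⟩ := Multiset.mem_map.mp hp
    exact hg' x
  · intro v
    refine le_trans ?_ (ha v)
    have e : use ((univ : Finset (Σ v, Fin (b v))).val.map (fun x => (x.1, (g x).1))) v =
        ∑ x : (Σ v, Fin (b v)), ((if x.1 = v then 1 else 0) + (if (g x).1 = v then 1 else 0)) := by
      unfold use
      rw [Multiset.map_map]
      rfl
    rw [e, sum_add_distrib]
    refine Nat.add_le_add ?_ ?_
    · rw [← card_filter, card_fiber]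
    · rw [← card_filter]
      have : ((univ.filter (fun x : (Σ v, Fin (b v)) => (g x).1 = v)).image g) ⊆
          univ.filter (fun y : (Σ v, Fin (c v)) => y.1 = v) := by
        intro y hy
        obtain ⟨x, hx, rfl⟩ := mem_image.mp hy
        simpa using (mem_filter.mp hx).2
      have h1 := card_le_card this
      rw [card_image_of_injective _ hg, card_fiber] at h1
      exact h1

/-- `X` is a minimal nonempty independent set in the support with weight at least that of its
neighbourhood. -/
structure MinHeavy (G : SimpleGraph V) (a : V → ℕ) (X : Finset V) : Prop where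
  ne : X.Nonempty
  ind : Indep G X
  sub : X ⊆ supp a
  heavy : wt a (nbr G X) ≤ wt a X
  min : ∀ X' : Finset V, X' ⊆ X → X' ≠ X → X'.Nonempty → wt a X' < wt a (nbr G X')

theorem exists_minHeavy {a : V → ℕ}
    (h : ∃ X : Finset V, X.Nonempty ∧ Indep G X ∧ X ⊆ supp a ∧ wt a (nbr G X) ≤ wt a X) :
    ∃ X, MinHeavy G a X := by
  classical
  obtain ⟨X, hX⟩ := h
  obtain ⟨Y, hYX, hY⟩ := exists_minimal_le_of_wellFoundedLT
    (fun X : Finset V => X.Nonempty ∧ Indep G X ∧ X ⊆ supp a ∧ wt a (nbr G X) ≤ wt a X) X hX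
  refine ⟨Y, hY.prop.1, hY.prop.2.1, hY.prop.2.2.1, hY.prop.2.2.2, fun X' h1 h2 h3 => ?_⟩
  by_contra hcon
  push Not at hcon
  have := hY.le_of_le ⟨h3, hY.prop.2.1.mono h1, h1.trans hY.prop.2.2.1, hcon⟩ h1
  exact h2 (subset_antisymm h1 this)

/-- Hall's condition for a minimal heavy set. -/
theorem MinHeavy.hall {a : V → ℕ} {X : Finset V} (h : MinHeavy G a X) {Y : Finset V}
    (hY : Y ⊆ nbr G X) : wt a Y ≤ wt a (nbr G Y ∩ X) := by
  by_contra hcon
  push Not at hcon
  have hYne : Y.Nonempty := by
    rw [nonempty_iff_ne_empty]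
    rintro rfl
    rw [nbr_empty, empty_inter] at hcon
    exact lt_irrefl _ hcon
  set X1 := X \ nbr G Y with hX1
  have hne : X1 ≠ X := by
    intro he
    obtain ⟨y, hy⟩ := hYne
    obtain ⟨x, hx, hxy⟩ := mem_nbr.mp (hY hy)
    have : x ∈ X1 := by rw [he]; exact hx
    rw [hX1, mem_sdiff] at this
    exact this.2 (mem_nbr.mpr ⟨y, hy, hxy.symm⟩)
  have hsub : nbr G X1 ⊆ nbr G X \ Y := by
    intro v hv
    rw [mem_sdiff]
    refine ⟨nbr_mono sdiff_subset hv, fun hvY => ?_⟩
    obtain ⟨x, hx, hxv⟩ := mem_nbr.mp hv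
    rw [hX1, mem_sdiff] at hx
    exact hx.2 (mem_nbr.mpr ⟨v, hvY, hxv.symm⟩)
  have e1 : wt a X1 + wt a (nbr G Y ∩ X) = wt a X := by
    have := wt_sdiff_add a (S := nbr G Y ∩ X) (T := X) inter_subset_right
    have e : X \ (nbr G Y ∩ X) = X1 := by rw [hX1]; ext v; simp
    rw [e] at this; exact this
  have e2 : wt a (nbr G X \ Y) + wt a Y = wt a (nbr G X) := wt_sdiff_add a hY
  have e3 := wt_mono a hsub
  have e4 := h.heavy
  have hX1ne : X1.Nonempty := by
    rw [nonempty_iff_ne_empty]
    intro he
    rw [he] at e1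
    rw [wt_empty] at e1
    omega
  have := h.min X1 sdiff_subset hne hX1ne
  omega

/-- The heavy lemma. -/
theorem MinHeavy.ff_eq {a : V → ℕ} {X : Finset V} (h : MinHeavy G a X) {T : Finset V}
    (hT : Disjoint T X) : ff G a (T ∪ nbr G X) = ff G a T := by
  classical
  refine le_antisymm ?_ (ff_mono a subset_union_left)
  set Y := nbr G X with hY
  have hXY : Disjoint X Y := indep_iff_disjoint.mp h.ind
  -- matching saturating `Y \ T` into `X`
  have m1 : Mat G (fun v => if v ∈ Y \ T ∨ v ∈ X then a v else 0)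
      (∑ v, (if v ∈ Y \ T then a v else 0)) := by
    refine mat_of_hall (b := fun v => if v ∈ Y \ T then a v else 0)
      (c := fun v => if v ∈ X then a v else 0) (fun S => ?_) (fun v => ?_)
    · have e1 : wt (fun v => if v ∈ Y \ T then a v else 0) S = wt a (S ∩ (Y \ T)) := by
        unfold wt
        rw [← sum_filter]
        refine sum_congr ?_ (fun _ _ => rfl)
        ext v; simp
      have e2 : wt (fun v => if v ∈ X then a v else 0) (nbr G S) = wt a (nbr G S ∩ X) := by
        unfold wt
        rw [← sum_filter]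
        refine sum_congr ?_ (fun _ _ => rfl)
        ext v; simp
      rw [e1, e2]
      refine (h.hall (Y := S ∩ (Y \ T)) (fun v hv => (mem_sdiff.mp (mem_inter.mp hv).2).1)).trans ?_
      exact wt_mono a (inter_subset_inter (nbr_mono inter_subset_left) subset_rfl)
    · by_cases h1 : v ∈ X
      · have h2 : v ∉ Y := disjoint_left.mp hXY h1
        simp [h1, h2]
      · simp only [h1, if_false, or_false, add_zero, le_refl]
  have e0 : (∑ v, (if v ∈ Y \ T then a v else 0)) = wt a (Y \ T) := by
    unfold wt; rw [← sum_filter]; refine sum_congr ?_ (fun _ _ => rfl); ext v; simp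
  rw [e0] at m1
  -- the matching avoiding `Y` and `T` may avoid `X`
  have m2 : Mat G (off X (off (T ∪ Y) a)) (nu G (off (T ∪ Y) a)) := by
    refine (mat_nu _).off_iso X (fun x hx y hxy => ?_)
    exact off_mem (mem_union_right _ (mem_nbr.mpr ⟨x, hx, hxy⟩))
  have m3 := m1.add m2 (c := off T a) (fun v => by
    by_cases h1 : v ∈ X
    · have h2 : v ∉ T := disjoint_right.mp hT h1
      rw [off_mem h1, off_notMem h2]
      simp [h1]
    · by_cases h2 : v ∈ T
      · rw [off_off, off_mem (mem_union_right _ (mem_union_left _ h2)), off_mem h2]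
        simp [h1, h2]
      · by_cases h3 : v ∈ Y
        · rw [off_off, off_mem (mem_union_right _ (mem_union_right _ h3)), off_notMem h2]
          simp [h2, h3]
        · rw [off_notMem h2]
          have h4 := off_le X (off (T ∪ Y) a) v
          have h5 := off_le (T ∪ Y) a v
          simp only [mem_sdiff, h3, h2, h1, false_and, or_self, if_false, zero_add]
          omega)
  have m4 := le_nu_iff.mpr m3
  unfold ff
  have e1 : wt a (T ∪ Y) = wt a T + wt a (Y \ T) := by
    rw [← wt_union (disjoint_sdiff)]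
    congr 1
    ext v; simp
  omega

end Pool.Agent.Helper58.Edge
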