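import Pool.Agent.Helper58.Edge.Van

set_option linter.unusedSectionVars false

/-!
Koszul chains in a fixed multidegree, and duality with cochains of a family of sets.
-/

namespace Pool.Agent.Helper58.Edge

open Finset

variable {V : Type*} [LinearOrder V] [Fintype V] {k : Type*} [Field k]

/-- The Koszul differential on coefficients. -/
def kd (φ : Finset V → k) : Finset V → k := fun σ => ∑ t ∈ σᶜ, sg k t σ * φ (insert t σ)

/-- The sign of a set. -/
def eps (k : Type*) [Field k] (B F : Finset V) : k := ∏ s ∈ F, sg k s B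

theorem eps_mul_self (B F : Finset V) : eps k B F * eps k B F = 1 := by
  unfold eps
  rw [← prod_mul_distrib]
  exact prod_eq_one (fun s _ => sg_mul_self s B)

theorem eps_erase {B F : Finset V} {t : V} (ht : t ∈ F) :
    eps k B F * eps k B (F.erase t) = sg k t B := by
  have : eps k B F = sg k t B * eps k B (F.erase t) := by
    unfold eps
    rw [mul_prod_erase F (fun s => sg k s B) ht]
  rw [this, mul_assoc, eps_mul_self, mul_one]

/-- Passing to complements in `B`. -/
def tw (B : Finset V) (φ : Finset V → k) : Finset V → k := fun F => eps k B F * φ (B \ F)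

theorem sg_sdiff {B F : Finset V} (hF : F ⊆ B) (t : V) :
    sg k t (B \ F) = sg k t B * sg k t F := by
  have h1 : sg k t B = sg k t (B \ F) * sg k t F := by
    unfold sg
    rw [← pow_add]
    congr 1
    rw [← card_union_of_disjoint]
    · congr 1
      rw [← filter_union, sdiff_union_of_subset hF]
    · exact disjoint_filter_filter sdiff_disjoint
  rw [h1, mul_assoc, sg_mul_self, mul_one]

theorem kd_tw {B F : Finset V} (hF : F ⊆ B) {φ : Finset V → k}
    (hφ : ∀ τ, ¬ τ ⊆ B → φ τ = 0) :
    kd φ (B \ F) = eps k B F * cob (tw B φ) F := by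
  unfold kd cob
  have hsub : F ⊆ (B \ F)ᶜ := by
    intro v hv
    rw [mem_compl, mem_sdiff]
    exact fun h => h.2 hv
  rw [← sum_subset hsub, mul_sum]
  · refine sum_congr rfl (fun t ht => ?_)
    have htB := hF ht
    have e1 : insert t (B \ F) = B \ F.erase t := by
      ext v
      simp only [mem_insert, mem_sdiff, mem_erase, not_and]
      constructor
      · rintro (rfl | h)
        · exact ⟨htB, fun h => absurd rfl h⟩
        · exact ⟨h.1, fun _ => h.2⟩
      · rintro ⟨h1, h2⟩
        by_cases hv : v = t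
        · exact Or.inl hv
        · exact Or.inr ⟨h1, h2 hv⟩
    rw [e1, sg_sdiff hF t]
    unfold tw
    have e2 := eps_erase (k := k) (B := B) ht
    linear_combination (-(sg k t F * φ (B \ F.erase t))) * e2
  · intro t ht htF
    rw [mem_compl, mem_sdiff, not_and, not_not] at ht
    have htB : t ∉ B := fun h => htF (ht h)
    rw [hφ _ (fun h => htB (h (mem_insert_self _ _))), mul_zero]

/-- Exactness of the Koszul complex in a fixed multidegree. -/
theorem piece_exact {B : Finset V} {Q : Finset V → Prop} {i : ℕ} {φ : Finset V → k}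
    (hφ : ∀ τ, φ τ ≠ 0 → τ ⊆ B ∧ τ.card = i ∧ Q (B \ τ)) (hcyc : ∀ σ, kd φ σ = 0)
    (hQ : B = ∅ → ¬ Q ∅)
    (hvan : ∀ d, i + d + 1 = B.card → Van k (fun F => F ⊆ B ∧ ¬ Q F) d) :
    ∃ θ : Finset V → k, (∀ τ, θ τ ≠ 0 → τ ⊆ B ∧ τ.card = i + 1 ∧ Q (B \ τ)) ∧ kd θ = φ := by
  classical
  have hφB : ∀ τ, ¬ τ ⊆ B → φ τ = 0 := fun τ h => by
    by_contra h'; exact h (hφ τ h').1
  by_cases hzero : ∀ τ, φ τ = 0
  · refine ⟨fun _ => 0, fun τ h => absurd rfl h, ?_⟩
    funext σ
    rw [hzero σ]
    unfold kd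
    simp
  push Not at hzero
  obtain ⟨τ0, hτ0⟩ := hzero
  obtain ⟨q1, q2, q3⟩ := hφ τ0 hτ0
  have hiB : i ≤ B.card := by rw [← q2]; exact card_le_card q1
  obtain ⟨x, hx⟩ : B.Nonempty := by
    rw [nonempty_iff_ne_empty]
    intro hB
    have : B \ τ0 = ∅ := by rw [hB]; simp
    rw [this] at q3
    exact hQ hB q3
  have hcob : ∀ F, F ⊆ B → cob (tw B φ) F = 0 := by
    intro F hF
    have h1 := kd_tw hF hφB
    rw [hcyc] at h1
    have h2 := eps_mul_self (k := k) B F
    linear_combination (- eps k B F) * h1 - (cob (tw B φ) F) * h2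
  obtain ⟨θ, hθ⟩ := van_cone (k := k) (Γ := fun F => F ⊆ B) x
    (fun F hF => insert_subset hx hF) (B.card - i) (tw B φ) (fun F hF _ => hcob F hF)
  have hcard : ∀ τ, τ ⊆ B → (B \ τ).card = B.card - τ.card := fun τ h => card_sdiff_of_subset h
  rcases Nat.eq_zero_or_pos (B.card - i) with h0 | hpos
  · -- the cycle is zero
    exfalso
    have h1 := hθ (B \ τ0) sdiff_subset (by rw [hcard _ q1, q2])
    have h2 : B \ τ0 = ∅ := by rw [← card_eq_zero, hcard _ q1, q2, h0]
    rw [h2] at h1
    unfold tw cob eps at h1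
    rw [sum_empty, prod_empty, one_mul, sdiff_empty] at h1
    have h3 : τ0 = B := subset_antisymm q1 (sdiff_eq_empty_iff_subset.mp h2)
    rw [h3] at hτ0
    exact hτ0 h1
  obtain ⟨d, hd⟩ : ∃ d, B.card - i = d + 1 := ⟨B.card - i - 1, by omega⟩
  rw [hd] at hθ
  obtain ⟨η, hη⟩ := hvan d (by omega) θ (by
    rintro F ⟨hF, hFQ⟩ hc
    rw [← hθ F hF hc]
    unfold tw
    have : φ (B \ F) = 0 := by
      by_contra hne
      have := (hφ _ hne).2.2
      rw [sdiff_sdiff_right_self, inf_eq_inter, inter_eq_right.mpr hF] at this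
      exact hFQ this
    rw [this, mul_zero])
  set θ' : Finset V → k := fun F => θ F - cob η F with hθ'
  have hcobθ' : ∀ F, cob θ' F = cob θ F := by
    intro F
    rw [hθ', cob_sub, cob_cob, sub_zero]
  set Θ : Finset V → k := fun τ => if τ ⊆ B ∧ τ.card = i + 1 ∧ Q (B \ τ) then
    eps k B (B \ τ) * θ' (B \ τ) else 0 with hΘ
  have hΘB : ∀ τ, ¬ τ ⊆ B → Θ τ = 0 := by
    intro τ h
    rw [hΘ]
    simp only
    rw [if_neg (fun h' => h h'.1)]
  refine ⟨Θ, ?_, ?_⟩
  · intro τ hτ
    by_contra hne
    rw [hΘ] at hτ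
    simp only at hτ
    rw [if_neg hne] at hτ
    exact hτ rfl
  · funext σ
    by_cases hσB : σ ⊆ B
    · by_cases hσc : σ.card = i
      · set F := B \ σ with hF
        have hFB : F ⊆ B := sdiff_subset
        have hσF : σ = B \ F := by
          rw [hF, sdiff_sdiff_right_self, inf_eq_inter, inter_eq_right.mpr hσB]
        have hFc : F.card = d + 1 := by rw [hF, hcard _ hσB, hσc, hd]
        rw [hσF, kd_tw hFB hΘB]
        have e1 : cob (tw B Θ) F = cob θ' F := by
          refine cob_congr (fun t ht => ?_)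
          have hsub : F.erase t ⊆ B := (erase_subset _ _).trans hFB
          have e2 : B \ (B \ F.erase t) = F.erase t := by
            rw [sdiff_sdiff_right_self, inf_eq_inter, inter_eq_right.mpr hsub]
          unfold tw
          rw [hΘ]
          simp only
          rw [e2]
          by_cases hq : Q (F.erase t)
          · rw [if_pos ⟨sdiff_subset, by
              rw [hcard _ hsub, card_erase_of_mem ht, hFc]; omega, hq⟩, ← mul_assoc,
              eps_mul_self, one_mul]
          · rw [if_neg (fun h => hq h.2.2), mul_zero]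
            have := hη (F.erase t) ⟨hsub, hq⟩ (by rw [card_erase_of_mem ht, hFc]; omega)
            rw [hθ']
            simp only
            rw [this, sub_self]
        rw [e1, hcobθ', ← hθ F hFB hFc]
        unfold tw
        rw [← mul_assoc, eps_mul_self, one_mul]
      · have : φ σ = 0 := by
          by_contra hne; exact hσc (hφ σ hne).2.1
        rw [this]
        unfold kd
        refine sum_eq_zero (fun t ht => ?_)
        have : Θ (insert t σ) = 0 := by
          rw [hΘ]
          simp only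
          rw [if_neg]
          rintro ⟨_, h, _⟩
          rw [card_insert_of_notMem (by simpa using ht)] at h
          omega
        rw [this, mul_zero]
    · rw [hφB σ hσB]
      unfold kd
      refine sum_eq_zero (fun t _ => ?_)
      rw [hΘB _ (fun h => hσB ((subset_insert _ _).trans h)), mul_zero]

/-- Non-exactness of the Koszul complex in a fixed multidegree. -/
theorem piece_nonexact {B : Finset V} (hB : B.Nonempty) {Q : Finset V → Prop}
    (hQ : ∀ F F', F ⊆ F' → Q F → Q F') {d : ℕ}
    (h : ¬ Van k (fun F => F ⊆ B ∧ ¬ Q F) d) :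
    ∃ i, i + d + 1 = B.card ∧ ∃ φ : Finset V → k,
      (∀ τ, φ τ ≠ 0 → τ ⊆ B ∧ τ.card = i ∧ Q (B \ τ)) ∧ (∀ σ, kd φ σ = 0) ∧
      ∀ θ : Finset V → k, (∀ τ, θ τ ≠ 0 → τ ⊆ B ∧ Q (B \ τ)) → kd θ ≠ φ := by
  classical
  obtain ⟨x, hx⟩ := hB
  have hcard : ∀ τ, τ ⊆ B → (B \ τ).card = B.card - τ.card := fun τ h => card_sdiff_of_subset h
  have hdB : d < B.card := by
    by_contra hcon
    push Not at hcon
    refine h ?_
    by_cases hQB : Q B
    · intro φ _
      refine ⟨fun _ => 0, fun F hF hc => ?_⟩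
      have : F = B := eq_of_subset_of_card_le hF.1 (by omega)
      rw [this] at hF
      exact absurd hQB hF.2
    · exact van_cone x (fun F hF => ⟨insert_subset hx hF.1, fun h' =>
        hQB (hQ _ _ (insert_subset hx hF.1) h')⟩) d
  unfold Van at h
  push Not at h
  obtain ⟨ψ0, h1, h2⟩ := h
  set θ0 : Finset V → k := fun F => if F ⊆ B ∧ ¬ Q F ∧ F.card = d then ψ0 F else 0 with hθ0
  have hdd : ∀ F, F ⊆ B → B \ (B \ F) = F := by
    intro F hF
    rw [sdiff_sdiff_right_self, inf_eq_inter, inter_eq_right.mpr hF]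
  set φ : Finset V → k := fun τ => if τ ⊆ B then eps k B (B \ τ) * cob θ0 (B \ τ) else 0 with hφ
  have hφB : ∀ τ, ¬ τ ⊆ B → φ τ = 0 := by
    intro τ hτ; rw [hφ]; simp only; rw [if_neg hτ]
  have htwφ : ∀ F, F ⊆ B → tw B φ F = cob θ0 F := by
    intro F hF
    unfold tw
    rw [hφ]
    simp only
    rw [if_pos sdiff_subset, hdd F hF, ← mul_assoc, eps_mul_self, one_mul]
  refine ⟨B.card - d - 1, by omega, φ, ?_, ?_, ?_⟩
  · intro τ hτ
    have hτB : τ ⊆ B := by
      by_contra hcon; exact hτ (hφB τ hcon)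
    have hne : cob θ0 (B \ τ) ≠ 0 := by
      intro h0
      apply hτ
      rw [hφ]
      simp only
      rw [h0, mul_zero, ite_self]
    obtain ⟨y, hy, hy'⟩ := exists_ne_zero_of_sum_ne_zero hne
    have hy2 : θ0 ((B \ τ).erase y) ≠ 0 := fun h0 => hy' (by rw [h0, mul_zero])
    have hcd : ((B \ τ).erase y).card = d := by
      by_contra hcon
      apply hy2
      rw [hθ0]
      simp only
      rw [if_neg (fun h => hcon h.2.2)]
    rw [card_erase_of_mem hy, hcard τ hτB] at hcd
    have hpos : 0 < (B \ τ).card := card_pos.mpr ⟨y, hy⟩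
    rw [hcard τ hτB] at hpos
    refine ⟨hτB, by omega, ?_⟩
    by_contra hcon
    apply hne
    have : cob θ0 (B \ τ) = cob ψ0 (B \ τ) := by
      refine cob_congr (fun z hz => ?_)
      rw [hθ0]
      simp only
      rw [if_pos]
      refine ⟨(erase_subset _ _).trans sdiff_subset, fun h => hcon (hQ _ _ (erase_subset _ _) h), ?_⟩
      rw [card_erase_of_mem hz, hcard τ hτB]; omega
    rw [this]
    exact h1 _ ⟨sdiff_subset, hcon⟩ (by rw [hcard τ hτB]; omega)
  · intro σ
    by_cases hσ : σ ⊆ B
    · rw [← hdd σ hσ, kd_tw sdiff_subset hφB]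
      have : cob (tw B φ) (B \ σ) = cob (cob θ0) (B \ σ) :=
        cob_congr (fun z _ => htwφ _ ((erase_subset _ _).trans sdiff_subset))
      rw [this, cob_cob, mul_zero]
    · unfold kd
      refine sum_eq_zero (fun t _ => ?_)
      rw [hφB _ (fun h => hσ ((subset_insert _ _).trans h)), mul_zero]
  · intro θ hθ hkd
    have hθB : ∀ τ, ¬ τ ⊆ B → θ τ = 0 := by
      intro τ hτ; by_contra hcon; exact hτ (hθ τ hcon).1
    have key : ∀ F, F ⊆ B → cob (tw B θ) F = cob θ0 F := by
      intro F hF
      have e1 := kd_tw hF hθB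
      rw [hkd] at e1
      have e2 := htwφ F hF
      unfold tw at e2
      have e3 := eps_mul_self (k := k) B F
      rw [← e2, e1, ← mul_assoc, e3, one_mul]
    obtain ⟨η, hη⟩ := van_cone (k := k) (Γ := fun F => F ⊆ B) x
      (fun F hF => insert_subset hx hF) d (fun F => θ0 F - tw B θ F) (fun F hF _ => by
        rw [cob_sub, key F hF, sub_self])
    obtain ⟨F, hF, hFc, hne⟩ := h2 η
    apply hne
    rw [← hη F hF.1 hFc]
    have e1 : θ0 F = ψ0 F := by
      rw [hθ0]; simp only; rw [if_pos ⟨hF.1, hF.2, hFc⟩]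
    have e2 : tw B θ F = 0 := by
      unfold tw
      have : θ (B \ F) = 0 := by
        by_contra hcon
        have := (hθ _ hcon).2
        rw [hdd F hF.1] at this
        exact hF.2 this
      rw [this, mul_zero]
    rw [e1, e2, sub_zero]

end Pool.Agent.Helper58.Edge
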