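import Pool.Agent.Helper58.Edge.Defs
import Pool.Agent.Helper58.Edge.Kos

set_option linter.unusedSectionVars false

/-!
Koszul homology of monomial ideals through families of finite sets.
-/

namespace Pool.Agent.Helper58.Edge

open Finset MvPolynomial

variable {V : Type*} [Fintype V] [LinearOrder V] {k : Type*} [Field k]

/-- The exponent vector of a squarefree monomial. -/
noncomputable def ind (τ : Finset V) : V →₀ ℕ := ∑ t ∈ τ, Finsupp.single t 1

theorem ind_apply (τ : Finset V) (v : V) : ind τ v = if v ∈ τ then 1 else 0 := by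
  unfold ind
  rw [Finsupp.finsetSum_apply]
  simp [Finsupp.single_apply]

theorem degree_ind (τ : Finset V) : (ind τ).degree = τ.card := by
  unfold ind
  rw [map_sum]
  simp

theorem ind_le_iff {τ : Finset V} {w : V →₀ ℕ} : ind τ ≤ w ↔ τ ⊆ w.support := by
  constructor
  · intro h v hv
    have := h v
    rw [ind_apply, if_pos hv] at this
    rw [Finsupp.mem_support_iff]; omega
  · intro h v
    rw [ind_apply]
    split_ifs with hv
    · have := Finsupp.mem_support_iff.mp (h hv)
      omega
    · exact Nat.zero_le _

/-- The coefficients of a chain in multidegree `w`. -/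
noncomputable def pc (c : Finset V → MvPolynomial V k) (w : V →₀ ℕ) : Finset V → k :=
  fun τ => if ind τ ≤ w then coeff (w - ind τ) (c τ) else 0

theorem pc_add (c : Finset V → MvPolynomial V k) (u : V →₀ ℕ) (σ : Finset V) :
    pc c (u + ind σ) σ = coeff u (c σ) := by
  unfold pc
  rw [if_pos (le_add_of_nonneg_left zero_le), add_tsub_cancel_right]

theorem pc_koszulDiff (c : Finset V → MvPolynomial V k) (w : V →₀ ℕ) :
    pc (koszulDiff c) w = kd (pc c w) := by
  funext σ
  unfold kd
  by_cases h : ind σ ≤ w
  · have e0 : pc (koszulDiff c) w σ = coeff (w - ind σ) (koszulDiff c σ) := by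
      unfold pc; rw [if_pos h]
    rw [e0]
    unfold koszulDiff
    rw [coeff_sum]
    refine sum_congr rfl (fun t ht => ?_)
    have htσ : t ∉ σ := by simpa using ht
    have e1 : ((-1) ^ (σ.filter (fun s => s < t)).card * X t * c (insert t σ) : MvPolynomial V k) =
        C (sg k t σ) * (X t * c (insert t σ)) := by
      unfold sg
      rw [map_pow, map_neg, map_one, mul_assoc]
    rw [e1, coeff_C_mul, coeff_X_mul']
    congr 1
    unfold pc
    have e2 : t ∈ (w - ind σ).support ↔ ind (insert t σ) ≤ w := by
      rw [Finsupp.mem_support_iff, Finsupp.tsub_apply, ind_apply, if_neg htσ, ind_le_iff,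
        insert_subset_iff, Finsupp.mem_support_iff, ← ind_le_iff]
      constructor
      · intro h'; exact ⟨by omega, h⟩
      · rintro ⟨h', _⟩; omega
    by_cases h2 : ind (insert t σ) ≤ w
    · rw [if_pos (e2.mpr h2), if_pos h2]
      congr 1
      ext v
      rw [Finsupp.tsub_apply, Finsupp.tsub_apply, Finsupp.tsub_apply, ind_apply, ind_apply,
        Finsupp.single_apply]
      by_cases hv : t = v
      · subst hv; simp [htσ]
      · have hv' : ¬ v = t := fun h => hv h.symm
        simp [hv, hv']
    · rw [if_neg (fun h' => h2 (e2.mp h')), if_neg h2]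
  · have e0 : pc (koszulDiff c) w σ = 0 := by
      unfold pc; rw [if_neg h]
    rw [e0]
    symm
    refine sum_eq_zero (fun t _ => ?_)
    have : pc c w (insert t σ) = 0 := by
      unfold pc
      rw [if_neg]
      intro h'
      rw [ind_le_iff] at h h'
      exact h ((subset_insert _ _).trans h')
    rw [this, mul_zero]

theorem chain_ext {c c' : Finset V → MvPolynomial V k} (h : ∀ w, pc c w = pc c' w) : c = c' := by
  funext σ
  ext u
  rw [← pc_add, ← pc_add, h]

theorem sub_ind_compl {w : V →₀ ℕ} {τ : Finset V} (h : τ ⊆ w.support) :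
    w - ind w.support + ind (w.support \ τ) = w - ind τ := by
  ext v
  rw [Finsupp.add_apply, Finsupp.tsub_apply, Finsupp.tsub_apply, ind_apply, ind_apply, ind_apply]
  by_cases h1 : v ∈ w.support
  · have := Finsupp.mem_support_iff.mp h1
    by_cases h2 : v ∈ τ
    · simp [h1, h2]
    · simp only [h1, h2, mem_sdiff, if_true, if_false, not_false_iff, and_self]
      omega
  · have h2 : v ∉ τ := fun h' => h1 (h h')
    simp [h1, h2]

/-- Nonvanishing Koszul homology gives nonvanishing cohomology of a family. -/
theorem tor_van {J : Ideal (MvPolynomial V k)} {P : (V →₀ ℕ) → Prop}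
    (hJ : ∀ f, f ∈ J ↔ ∀ u ∈ f.support, P u) (h0 : ¬ P 0) {i j : ℕ} (h : TorNonzero J i j) :
    ∃ w : V →₀ ℕ, w.degree = j ∧ ∃ d, i + d + 1 = w.support.card ∧
      ¬ Van k (fun F => F ⊆ w.support ∧ ¬ P (w - ind w.support + ind F)) d := by
  classical
  by_contra hcon
  push Not at hcon
  obtain ⟨c, hc1, hc2, hc3⟩ := h
  have key : ∀ w : V →₀ ℕ, ∃ θ : Finset V → k, w.degree = j →
      ((∀ τ, θ τ ≠ 0 → τ ⊆ w.support ∧ τ.card = i + 1 ∧
        P (w - ind w.support + ind (w.support \ τ))) ∧ kd θ = pc c w) := by
    intro w
    by_cases hw : w.degree = j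
    · obtain ⟨θ, h1, h2⟩ := piece_exact (k := k) (B := w.support)
        (Q := fun F => P (w - ind w.support + ind F)) (i := i) (φ := pc c w) (by
          intro τ hτ
          unfold pc at hτ
          have h1 : ind τ ≤ w := by
            by_contra h'; rw [if_neg h'] at hτ; exact hτ rfl
          rw [if_pos h1] at hτ
          have h2 := ind_le_iff.mp h1
          have h3 : w - ind τ ∈ (c τ).support := by rwa [mem_support_iff]
          refine ⟨h2, ((hc1 τ).2 _ h3).1, ?_⟩
          rw [sub_ind_compl h2]
          exact (hJ _).mp (hc1 τ).1 _ h3) (by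
          intro σ
          rw [← pc_koszulDiff, hc2]
          unfold pc
          simp) (by
          intro hB hP
          rw [Finsupp.support_eq_empty] at hB
          subst hB
          apply h0
          have : (0 : V →₀ ℕ) - ind (0 : V →₀ ℕ).support + ind ∅ = 0 := by
            ext v; simp [ind_apply]
          rwa [this] at hP) (by
          intro d hd
          exact hcon w hw d hd)
      exact ⟨θ, fun _ => ⟨h1, h2⟩⟩
    · exact ⟨fun _ => 0, fun h => absurd h hw⟩
  choose θ hθ using key
  set T : Finset (V →₀ ℕ) := univ.biUnion (fun τ => (c τ).support.image (fun u => u + ind τ)) with hT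
  have hTj : ∀ w ∈ T, w.degree = j := by
    intro w hw
    rw [hT, mem_biUnion] at hw
    obtain ⟨τ, _, hw⟩ := hw
    obtain ⟨u, hu, rfl⟩ := mem_image.mp hw
    have := (hc1 τ).2 u hu
    rw [map_add, degree_ind, this.1, this.2]
  set b : Finset V → MvPolynomial V k := fun τ => ∑ w ∈ T, monomial (w - ind τ) (θ w τ) with hb
  have hbcoeff : ∀ w', pc b w' = if w' ∈ T then θ w' else 0 := by
    intro w'
    funext τ
    unfold pc
    rw [hb]
    simp only [coeff_sum, coeff_monomial]
    have e1 : ∀ w ∈ T, ind τ ≤ w' → (if w - ind τ = w' - ind τ then θ w τ else 0) =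
        if w = w' then θ w τ else 0 := by
      intro w hw hτ
      by_cases hz : θ w τ = 0
      · rw [hz]; simp
      · have h1 := ((hθ w (hTj w hw)).1 τ hz).1
        have h2 := ind_le_iff.mpr h1
        by_cases hww : w = w'
        · rw [hww]; simp
        · rw [if_neg hww, if_neg]
          intro h3
          apply hww
          have := congrArg (fun z => z + ind τ) h3
          rwa [tsub_add_cancel_of_le h2, tsub_add_cancel_of_le hτ] at this
    by_cases hτ : ind τ ≤ w'
    · rw [if_pos hτ, sum_congr rfl (fun w hw => e1 w hw hτ), sum_ite_eq' T w' (fun w => θ w τ)]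
      split_ifs <;> rfl
    · rw [if_neg hτ]
      split_ifs with hw'
      · by_contra hne
        have h1 := ((hθ w' (hTj w' hw')).1 τ (fun h => hne h.symm)).1
        exact hτ (ind_le_iff.mpr h1)
      · rfl
  refine hc3 b ?_ ?_
  · intro τ
    constructor
    · rw [hb]
      refine J.sum_mem (fun w hw => ?_)
      by_cases hz : θ w τ = 0
      · rw [hz, map_zero]; exact J.zero_mem
      · obtain ⟨h1, h2, h3⟩ := (hθ w (hTj w hw)).1 τ hz
        rw [sub_ind_compl h1] at h3
        rw [hJ]
        intro u hu
        rw [mem_support_iff, coeff_monomial] at hu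
        have : w - ind τ = u := by
          by_contra h'; rw [if_neg h'] at hu; exact hu rfl
        rwa [← this]
    · intro u hu
      rw [mem_support_iff, ← pc_add, hbcoeff] at hu
      have hw : u + ind τ ∈ T := by
        by_contra h'; rw [if_neg h'] at hu; exact hu rfl
      rw [if_pos hw] at hu
      obtain ⟨h1, h2, h3⟩ := (hθ _ (hTj _ hw)).1 τ hu
      have h4 := hTj _ hw
      rw [map_add, degree_ind, h2] at h4
      exact ⟨h2, h4⟩
  · refine chain_ext (fun w => ?_)
    rw [pc_koszulDiff, hbcoeff]
    by_cases hw : w ∈ T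
    · rw [if_pos hw]
      exact (hθ w (hTj w hw)).2
    · rw [if_neg hw]
      funext σ
      have e1 : kd (0 : Finset V → k) σ = 0 := by
        unfold kd; simp
      rw [e1]
      by_contra hne
      apply hw
      have hne' : pc c w σ ≠ 0 := fun h => hne h.symm
      unfold pc at hne'
      have h1 : ind σ ≤ w := by
        by_contra h'; rw [if_neg h'] at hne'; exact hne' rfl
      rw [if_pos h1] at hne'
      rw [hT, mem_biUnion]
      refine ⟨σ, mem_univ _, mem_image.mpr ⟨w - ind σ, ?_, tsub_add_cancel_of_le h1⟩⟩
      rwa [mem_support_iff]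

theorem ind_sdiff_add {B τ : Finset V} (h : τ ⊆ B) : ind (B \ τ) + ind τ = ind B := by
  ext v
  rw [Finsupp.add_apply, ind_apply, ind_apply, ind_apply]
  by_cases h1 : v ∈ τ
  · simp [h1, h h1]
  · by_cases h2 : v ∈ B <;> simp [h1, h2]

/-- Nonvanishing cohomology of a family gives nonvanishing Koszul homology. -/
theorem tor_of_van {J : Ideal (MvPolynomial V k)} {P : (V →₀ ℕ) → Prop}
    (hJ : ∀ f, f ∈ J ↔ ∀ u ∈ f.support, P u) (hP : ∀ u v, u ≤ v → P u → P v)
    {B : Finset V} (hB : B.Nonempty) {d : ℕ}
    (h : ¬ Van k (fun F => F ⊆ B ∧ ¬ P (ind F)) d) :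
    ∃ i, i + d + 1 = B.card ∧ TorNonzero J i B.card := by
  classical
  obtain ⟨i, hi, φ, h1, h2, h3⟩ := piece_nonexact (k := k) hB (Q := fun F => P (ind F)) (by
    intro F F' hF
    refine hP _ _ (fun v => ?_)
    rw [ind_apply, ind_apply]
    by_cases hv : v ∈ F
    · rw [if_pos hv, if_pos (hF hv)]
    · rw [if_neg hv]; exact Nat.zero_le _) h
  set c : Finset V → MvPolynomial V k := fun τ => monomial (ind (B \ τ)) (φ τ) with hc
  have hpc : ∀ w, pc c w = if w = ind B then φ else 0 := by
    intro w
    funext τ
    unfold pc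
    rw [hc]
    simp only [coeff_monomial]
    by_cases hz : φ τ = 0
    · rw [hz]
      split_ifs <;> first | rfl | exact hz.symm
    · have hτ := (h1 τ hz).1
      have e := ind_sdiff_add hτ
      by_cases hw : w = ind B
      · rw [if_pos hw, hw, if_pos (by rw [← e]; exact le_add_of_nonneg_left zero_le), if_pos]
        rw [← e, add_tsub_cancel_right]
      · rw [if_neg hw]
        by_cases hτw : ind τ ≤ w
        · rw [if_pos hτw, if_neg]
          · rfl
          · intro h'
            apply hw
            rw [← e, h', tsub_add_cancel_of_le hτw]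
        · rw [if_neg hτw]; rfl
  refine ⟨i, hi, c, ?_, ?_, ?_⟩
  · intro τ
    by_cases hz : φ τ = 0
    · rw [hc]
      simp only
      rw [hz, map_zero]
      exact ⟨J.zero_mem, fun u hu => by simp at hu⟩
    · obtain ⟨g1, g2, g3⟩ := h1 τ hz
      have hu0 : ∀ u ∈ (c τ).support, ind (B \ τ) = u := by
        intro u hu
        rw [hc, mem_support_iff, coeff_monomial] at hu
        by_contra h'; rw [if_neg h'] at hu; exact hu rfl
      constructor
      · rw [hJ]
        intro u hu
        rw [← hu0 u hu]; exact g3
      · intro u hu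
        refine ⟨g2, ?_⟩
        rw [← hu0 u hu, degree_ind, card_sdiff_of_subset g1, g2]
        have := card_le_card g1
        omega
  · refine chain_ext (fun w => ?_)
    rw [pc_koszulDiff, hpc]
    have e0 : pc (0 : Finset V → MvPolynomial V k) w = 0 := by
      funext τ; unfold pc; simp
    rw [e0]
    funext σ
    split_ifs
    · exact h2 σ
    · unfold kd; simp
  · intro b hb hbc
    refine h3 (pc b (ind B)) ?_ ?_
    · intro τ hτ
      unfold pc at hτ
      have g1 : ind τ ≤ ind B := by
        by_contra h'; rw [if_neg h'] at hτ; exact hτ rfl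
      rw [if_pos g1] at hτ
      have g2 : τ ⊆ B := by
        intro v hv
        have := g1 v
        rw [ind_apply, ind_apply, if_pos hv] at this
        by_contra h'; rw [if_neg h'] at this; omega
      refine ⟨g2, ?_⟩
      have g3 : ind B - ind τ = ind (B \ τ) := by
        rw [← ind_sdiff_add g2, add_tsub_cancel_right]
      rw [g3] at hτ
      exact (hJ _).mp (hb τ).1 _ (by rwa [mem_support_iff])
    · rw [← pc_koszulDiff, hbc, hpc, if_pos rfl]

end Pool.Agent.Helper58.Edge
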