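import Pool.Agent.Helper58.Edge.Cech
import Pool.Agent.Helper58.Edge.Reg

set_option linter.unusedSectionVars false

/-!
Regularity of powers of edge ideals.
-/

namespace Pool.Agent.Helper58.Edge

open Finset MvPolynomial Pointwise

variable {V : Type*} [Fintype V] [LinearOrder V] {k : Type*} [Field k] {G : SimpleGraph V}

/-- Exponents of products of `q` edges. -/
def EE (G : SimpleGraph V) (q : ℕ) : Set (V →₀ ℕ) :=
  {u | ∃ s : Multiset (V × V), s.card = q ∧ (∀ p ∈ s, G.Adj p.1 p.2) ∧ ∀ v, u v = use s v}

theorem edge_pow (q : ℕ) : edgeIdeal k G ^ q =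
    Ideal.span ((fun s => monomial s (1 : k)) '' EE G q) := by
  induction q with
  | zero =>
    have : (fun s : V →₀ ℕ => monomial s (1 : k)) '' EE G 0 = {1} := by
      ext f
      constructor
      · rintro ⟨u, ⟨s, hs, _, hu⟩, rfl⟩
        rw [Multiset.card_eq_zero] at hs
        subst hs
        have : u = 0 := by
          ext v; rw [hu v]; rfl
        rw [this]; rfl
      · rintro rfl
        exact ⟨0, ⟨0, rfl, by simp, fun v => rfl⟩, rfl⟩
    rw [pow_zero, this, Ideal.span_singleton_one, Ideal.one_eq_top]
  | succ q ih =>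
    rw [pow_succ, ih]
    unfold edgeIdeal
    rw [Ideal.span_mul_span']
    congr 1
    ext f
    rw [Set.mem_mul]
    constructor
    · rintro ⟨_, ⟨u, ⟨s, h1, h2, h3⟩, rfl⟩, _, ⟨x, y, hxy, rfl⟩, rfl⟩
      refine ⟨u + (Finsupp.single x 1 + Finsupp.single y 1), ⟨(x, y) ::ₘ s, ?_, ?_, ?_⟩, ?_⟩
      · rw [Multiset.card_cons, h1]
      · intro p hp
        rcases Multiset.mem_cons.mp hp with rfl | hp
        · exact hxy
        · exact h2 p hp
      · intro v
        rw [use_cons, Finsupp.add_apply, Finsupp.add_apply, h3 v, Finsupp.single_apply,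
          Finsupp.single_apply]
        unfold ep
        ring
      · simp only [X, monomial_mul, mul_one]
    · rintro ⟨u, ⟨s, h1, h2, h3⟩, rfl⟩
      obtain ⟨p, hps⟩ := Multiset.card_pos_iff_exists_mem.mp (by omega : 0 < s.card)
      obtain ⟨s', rfl⟩ := Multiset.exists_cons_of_mem hps
      have h1' : s'.card = q := by rw [Multiset.card_cons] at h1; omega
      have hp := h2 p hps
      have hsub : Finsupp.single p.1 1 + Finsupp.single p.2 1 ≤ u := by
        intro v
        rw [h3 v, use_cons, Finsupp.add_apply, Finsupp.single_apply, Finsupp.single_apply]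
        unfold ep
        omega
      refine ⟨monomial (u - (Finsupp.single p.1 1 + Finsupp.single p.2 1)) 1,
        ⟨_, ⟨s', h1', fun p' hp' => h2 p' (Multiset.mem_cons_of_mem hp'), fun v => ?_⟩, rfl⟩,
        X p.1 * X p.2, ⟨p.1, p.2, hp, rfl⟩, ?_⟩
      · rw [Finsupp.tsub_apply, Finsupp.add_apply, Finsupp.single_apply, Finsupp.single_apply, h3 v,
          use_cons]
        unfold ep
        omega
      · simp only [X, monomial_mul, mul_one]
        rw [tsub_add_cancel_of_le hsub]

theorem mem_edge_pow (q : ℕ) (f : MvPolynomial V k) :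
    f ∈ edgeIdeal k G ^ q ↔ ∀ u ∈ f.support, Mat G (fun v => u v) q := by
  rw [edge_pow, mem_ideal_span_monomial_image]
  refine forall₂_congr (fun u _ => ?_)
  constructor
  · rintro ⟨e, ⟨s, h1, h2, h3⟩, he⟩
    exact ⟨s, h1, h2, fun v => by rw [← h3 v]; exact he v⟩
  · rintro ⟨s, h1, h2, h3⟩
    refine ⟨Finsupp.equivFunOnFinite.symm (fun v => use s v), ⟨s, h1, h2, fun v => rfl⟩, fun v => ?_⟩
    exact h3 v

theorem mem_colon_edge (x : V) (f : MvPolynomial V k) :
    f ∈ (edgeIdeal k G).colon {X x} ↔
      ∀ u ∈ f.support, Mat G (fun v => u v + if v = x then 1 else 0) 1 := by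
  rw [Submodule.mem_colon_singleton, smul_eq_mul, mul_comm, ← pow_one (edgeIdeal k G), mem_edge_pow,
    support_X_mul]
  simp only [mem_map, forall_exists_index, and_imp, forall_apply_eq_imp_iff₂]
  refine forall₂_congr (fun u _ => ?_)
  have : (fun v => (addLeftEmbedding (Finsupp.single x 1) u) v) =
      fun v => u v + if v = x then 1 else 0 := by
    funext v
    rw [addLeftEmbedding_apply, Finsupp.add_apply, Finsupp.single_apply, add_comm]
    congr 1
    by_cases h : v = x
    · rw [if_pos h, if_pos h.symm]
    · rw [if_neg h, if_neg (fun h' => h h'.symm)]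
  rw [this]

theorem mat_one_iff {b : V → ℕ} (hb : ∀ v, b v ≤ 1) :
    Mat G b 1 ↔ ∃ x y, G.Adj x y ∧ b x = 1 ∧ b y = 1 := by
  constructor
  · rintro ⟨s, h1, h2, h3⟩
    obtain ⟨p, rfl⟩ := Multiset.card_eq_one.mp h1
    refine ⟨p.1, p.2, h2 p (Multiset.mem_singleton_self _), ?_, ?_⟩
    · have h4 := h3 p.1
      have h5 := hb p.1
      unfold use ep at h4
      simp only [Multiset.map_singleton, Multiset.sum_singleton, if_true] at h4
      omega
    · have h4 := h3 p.2
      have h5 := hb p.2
      unfold use ep at h4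
      simp only [Multiset.map_singleton, Multiset.sum_singleton, if_true] at h4
      omega
  · rintro ⟨x, y, hxy, hx, hy⟩
    refine ⟨{(x, y)}, rfl, ?_, fun v => ?_⟩
    · intro p hp
      rw [Multiset.mem_singleton] at hp
      rw [hp]; exact hxy
    · unfold use ep
      simp only [Multiset.map_singleton, Multiset.sum_singleton]
      have hne := G.ne_of_adj hxy
      by_cases h1 : x = v
      · have h2 : ¬ y = v := fun h => hne (h1.trans h.symm)
        rw [if_pos h1, if_neg h2, ← h1, hx]
      · by_cases h2 : y = v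
        · rw [if_neg h1, if_pos h2, ← h2, hy]
        · rw [if_neg h1, if_neg h2]; exact Nat.zero_le _

/-- The bound for powers, from a bound for the independence complexes. -/
theorem reg_pow_of_ind {r : ℤ} (hr : ∀ (W : Finset V) (p : ℕ), ¬ Van k (Ind G W) p → (p : ℤ) ≤ r)
    {q : ℕ} (hq : 1 ≤ q) : RegLE (edgeIdeal k G ^ q) (2 * q + r - 1) := by
  intro i j h
  obtain ⟨w, hw, d, hd, hvan⟩ := tor_van (mem_edge_pow q) (fun h => by
    have h1 := h.two_mul_le
    simp at h1
    omega) h
  obtain ⟨q', rfl⟩ : ∃ q', q = q' + 1 := ⟨q - 1, by omega⟩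
  set a : V → ℕ := fun v => (w - Edge.ind w.support) v with ha
  have hsupp : supp a ⊆ w.support := by
    intro v hv
    rw [mem_supp, ha] at hv
    simp only [Finsupp.tsub_apply] at hv
    rw [Finsupp.mem_support_iff]
    omega
  have key := comb_main (k := k) hr hsupp (q := q') (d := d) (by
    intro hv
    refine hvan ((van_congr (k := k) (fun F => ?_)).mp hv)
    have : (fun v => a v + if v ∈ F then 1 else 0) =
        fun v => (w - Edge.ind w.support + Edge.ind F) v := by
      funext v
      rw [Finsupp.add_apply, ind_apply]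
    rw [this])
  have hsum : wt a univ + w.support.card = w.degree := by
    have e1 : wt a univ = (w - Edge.ind w.support).degree := by
      rw [Finsupp.degree_eq_sum]; rfl
    rw [e1, ← degree_ind w.support, ← map_add, tsub_add_cancel_of_le (ind_le_iff.mpr subset_rfl)]
  push_cast
  omega

theorem van_edgeless (hE : ¬ ∃ x y, G.Adj x y) {q : ℕ} (hq : 1 ≤ q) (r : ℤ) :
    RegLE (edgeIdeal k G ^ q) r := by
  intro i j h
  exfalso
  have hmat : ∀ b : V → ℕ, ¬ Mat G b q := by
    rintro b ⟨s, h1, h2, _⟩
    obtain ⟨p, hp⟩ := Multiset.card_pos_iff_exists_mem.mp (by omega : 0 < s.card)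
    exact hE ⟨_, _, h2 p hp⟩
  obtain ⟨w, hw, d, hd, hvan⟩ := tor_van (mem_edge_pow q) (hmat _) h
  obtain ⟨x, hx⟩ : w.support.Nonempty := by rw [← card_pos]; omega
  exact hvan (van_cone x (fun F hF => ⟨insert_subset hx hF.1, hmat _⟩) d)

/-- A bound for the regularity of the colon ideals bounds the independence complexes. -/
theorem ind_of_colon {r : ℤ} (h : ∀ x : V, RegLE ((edgeIdeal k G).colon {X x}) r)
    (hE : ∃ x y, G.Adj x y) (W : Finset V) (p : ℕ) (hp : ¬ Van k (Ind G W) p) : (p : ℤ) ≤ r := by
  have hup : ∀ x : V, ∀ u v : V →₀ ℕ, u ≤ v → Mat G (fun z => u z + if z = x then 1 else 0) 1 →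
      Mat G (fun z => v z + if z = x then 1 else 0) 1 := by
    intro x u v huv hm
    exact hm.mono (fun z => Nat.add_le_add_right (huv z) _)
  have hr1 : 1 ≤ r := by
    obtain ⟨x, y, hxy⟩ := hE
    obtain ⟨i, hi, ht⟩ := tor_of_van (k := k) (mem_colon_edge x) (hup x) (B := {y}) (singleton_nonempty y)
      (d := 0) (by
        intro hv
        obtain ⟨ψ, hψ⟩ := hv (fun _ => 1) (by
          rintro F ⟨hF1, hF2⟩ hc
          exfalso
          apply hF2
          have : F = {y} := eq_of_subset_of_card_le hF1 (by rw [hc]; simp)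
          rw [this, mat_one_iff]
          · refine ⟨x, y, hxy, ?_, ?_⟩
            · rw [ind_apply, if_neg (by simpa using G.ne_of_adj hxy), if_pos rfl]
            · rw [ind_apply, if_pos (mem_singleton_self y), if_neg (G.ne_of_adj hxy).symm]
          · intro v
            rw [ind_apply]
            by_cases h1 : v = x
            · have h2 : v ∉ ({y} : Finset V) := by
                rw [mem_singleton, h1]; exact G.ne_of_adj hxy
              rw [if_neg h2, if_pos h1]
            · rw [if_neg h1]; split_ifs <;> omega)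
        have := hψ ∅ ⟨empty_subset _, fun hm => by
          have h1 := hm.two_mul_le
          simp [ind_apply] at h1⟩ rfl
        unfold cob at this
        simp at this)
    have := h x i _ ht
    rw [card_singleton] at this hi
    have hi0 : i = 0 := by omega
    subst hi0
    simpa using this
  refine ind_bound (k := k) (G := G) hr1 (fun x W' hW' hd p' hp' => ?_) _ W p rfl hp
  obtain ⟨i, hi, ht⟩ := tor_of_van (k := k) (mem_colon_edge x) (hup x) (B := W') hW' (d := p') (by
    intro hv
    refine hp' ((van_congr (k := k) (fun F => ?_)).mp hv)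
    unfold Ind
    refine and_congr_right (fun hF => ?_)
    have hxF : ∀ v ∈ F, v ≠ x ∧ ¬ G.Adj x v := by
      intro v hv
      have := disjoint_left.mp hd (hF hv)
      rw [mem_insert, mem_nbr_singleton, not_or] at this
      exact this
    rw [mat_one_iff]
    · constructor
      · intro h' u hu v hv huv
        apply h'
        refine ⟨u, v, huv, ?_, ?_⟩
        · rw [ind_apply, if_pos hu, if_neg (hxF u hu).1]
        · rw [ind_apply, if_pos hv, if_neg (hxF v hv).1]
      · rintro h' ⟨u, v, huv, hu, hv⟩
        rw [ind_apply] at hu hv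
        by_cases hu' : u ∈ F
        · by_cases hv' : v ∈ F
          · exact h' u hu' v hv' huv
          · rw [if_neg hv'] at hv
            have hvx : v = x := by by_contra hne; rw [if_neg hne] at hv; omega
            exact (hxF u hu').2 (hvx ▸ huv.symm)
        · rw [if_neg hu'] at hu
          have hux : u = x := by by_contra hne; rw [if_neg hne] at hu; omega
          by_cases hv' : v ∈ F
          · exact (hxF v hv').2 (hux ▸ huv)
          · rw [if_neg hv'] at hv
            have hvx : v = x := by by_contra hne; rw [if_neg hne] at hv; omega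
            exact G.ne_of_adj huv (hux.trans hvx.symm)
    · intro v
      rw [ind_apply]
      by_cases h1 : v ∈ F
      · rw [if_pos h1, if_neg (hxF v h1).1]
      · rw [if_neg h1]; split_ifs <;> omega)
  have := h x i _ ht
  omega

/-- Regularity of powers from the regularity of the colon ideals. -/
theorem reg_pow_of_colon {r : ℤ} (h : ∀ x : V, RegLE ((edgeIdeal k G).colon {X x}) r)
    {q : ℕ} (hq : 1 ≤ q) : RegLE (edgeIdeal k G ^ q) (2 * q + r - 1) := by
  by_cases hE : ∃ x y, G.Adj x y
  · exact reg_pow_of_ind (ind_of_colon h hE) hq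
  · exact van_edgeless hE hq _

/-- The regularity of the edge ideal bounds the independence complexes. -/
theorem ind_of_reg {r : ℤ} (h : RegLE (edgeIdeal k G) r) (hE : ∃ x y, G.Adj x y)
    (W : Finset V) (p : ℕ) (hp : ¬ Van k (Ind G W) p) : (p : ℤ) ≤ r - 1 := by
  have hJ : ∀ f : MvPolynomial V k, f ∈ edgeIdeal k G ↔
      ∀ u ∈ f.support, Mat G (fun v => u v) 1 := by
    intro f
    rw [← mem_edge_pow 1 f, pow_one]
  have hup : ∀ u v : V →₀ ℕ, u ≤ v → Mat G (fun z => u z) 1 → Mat G (fun z => v z) 1 :=
    fun u v huv hm => hm.mono (fun z => huv z)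
  have hone : ∀ F : Finset V, Mat G (fun z => Edge.ind F z) 1 ↔ ¬ Indep G F := by
    intro F
    rw [mat_one_iff (fun v => by rw [ind_apply]; split_ifs <;> omega)]
    constructor
    · rintro ⟨x, y, hxy, hx, hy⟩ hF
      rw [ind_apply] at hx hy
      have hx' : x ∈ F := by by_contra hne; rw [if_neg hne] at hx; omega
      have hy' : y ∈ F := by by_contra hne; rw [if_neg hne] at hy; omega
      exact hF x hx' y hy' hxy
    · intro hF
      unfold Indep at hF
      push Not at hF
      obtain ⟨x, hx, y, hy, hxy⟩ := hF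
      exact ⟨x, y, hxy, by rw [ind_apply, if_pos hx], by rw [ind_apply, if_pos hy]⟩
  have hmain : ∀ (W : Finset V), W.Nonempty → ∀ p : ℕ, ¬ Van k (Ind G W) p → (p : ℤ) ≤ r - 1 := by
    intro W hW p hp
    obtain ⟨i, hi, ht⟩ := tor_of_van (k := k) hJ hup (B := W) hW (d := p) (by
      intro hv
      refine hp ((van_congr (k := k) (fun F => ?_)).mp hv)
      unfold Ind
      rw [hone, not_not])
    have := h i _ ht
    omega
  rcases W.eq_empty_or_nonempty with rfl | hW
  · have hp0 : p = 0 := by
      by_contra hne
      refine hp (fun φ _ => ⟨fun _ => 0, fun F hF hc => ?_⟩)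
      have : F = ∅ := subset_empty.mp hF.1
      rw [this, card_empty] at hc
      exact absurd hc.symm hne
    subst hp0
    obtain ⟨x, y, hxy⟩ := hE
    have h1 := hmain ({x, y} : Finset V) ⟨x, by simp⟩ 1 (by
      intro hv
      have hne := G.ne_of_adj hxy
      refine hp ?_
      refine van_of_susp (k := k) (Γ := Ind G {x, y}) hne ?_ ?_ ?_ ?_ ?_ hv
      · intro F hF hxF; exact absurd (hF.1 hxF) (notMem_empty _)
      · intro F hF hxF; exact absurd (hF.1 hxF) (notMem_empty _)
      · intro F hF
        have : F = ∅ := subset_empty.mp hF.1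
        subst this
        refine ⟨by simp, ?_⟩
        intro u hu v hv huv
        simp at hu hv
        exact G.ne_of_adj huv (hu.trans hv.symm)
      · intro F hF
        have : F = ∅ := subset_empty.mp hF.1
        subst this
        refine ⟨by simp, ?_⟩
        intro u hu v hv huv
        simp at hu hv
        exact G.ne_of_adj huv (hu.trans hv.symm)
      · intro F hF hxF
        refine ⟨fun v hv => ?_, hF.2.mono (erase_subset _ _)⟩
        rw [mem_erase] at hv
        rcases mem_insert.mp (hF.1 hv.2) with h' | h'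
        · exact absurd h' hv.1
        · rw [mem_singleton] at h'
          rw [h'] at hv
          exact absurd hxy (hF.2 x hxF y hv.2))
    push_cast at h1 ⊢
    omega
  · exact hmain W hW p hp

/-- Regularity of powers from the regularity of the edge ideal. -/
theorem reg_pow_of_reg {r : ℤ} (h : RegLE (edgeIdeal k G) r) {q : ℕ} (hq : 1 ≤ q) :
    RegLE (edgeIdeal k G ^ q) (2 * q + r - 2) := by
  by_cases hE : ∃ x y, G.Adj x y
  · have := reg_pow_of_ind (ind_of_reg h hE) hq
    have e : (2 * (q : ℤ) + (r - 1) - 1) = 2 * q + r - 2 := by ring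
    rwa [e] at this
  · exact van_edgeless hE hq _

end Pool.Agent.Helper58.Edge
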