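import Mathlib

/-!
Weighted matchings: `Mat G a m` says that there are `m` edges of `G` (with repetition) such that
every vertex `v` is used at most `a v` times.
-/

set_option linter.unusedSectionVars false

namespace Pool.Agent.Helper58.Edge

open Finset

theorem exists_le_card {α : Type*} (s : Multiset α) {m : ℕ} (h : m ≤ s.card) :
    ∃ t ≤ s, t.card = m := by
  have h1 : 0 < (Multiset.powersetCard m s).card := by
    rw [Multiset.card_powersetCard]; exact Nat.choose_pos h
  obtain ⟨t, ht⟩ := Multiset.card_pos_iff_exists_mem.mp h1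
  rw [Multiset.mem_powersetCard] at ht
  exact ⟨t, ht.1, ht.2⟩

variable {V : Type*} [LinearOrder V]

/-- How often the pair `p` uses the vertex `v`. -/
def ep (p : V × V) (v : V) : ℕ := (if p.1 = v then 1 else 0) + (if p.2 = v then 1 else 0)

/-- How often the edges of the multiset `s` use the vertex `v`. -/
def use (s : Multiset (V × V)) (v : V) : ℕ := (s.map (fun p => ep p v)).sum

/-- There are `m` edges with vertex use at most `a`. -/
def Mat (G : SimpleGraph V) (a : V → ℕ) (m : ℕ) : Prop :=
  ∃ s : Multiset (V × V), s.card = m ∧ (∀ p ∈ s, G.Adj p.1 p.2) ∧ ∀ v, use s v ≤ a v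

variable {G : SimpleGraph V}

theorem use_zero (v : V) : use (0 : Multiset (V × V)) v = 0 := rfl

theorem use_add (s t : Multiset (V × V)) (v : V) : use (s + t) v = use s v + use t v := by
  unfold use; simp

theorem use_cons (p : V × V) (s : Multiset (V × V)) (v : V) :
    use (p ::ₘ s) v = ep p v + use s v := by
  unfold use; simp

theorem use_mono {s t : Multiset (V × V)} (h : s ≤ t) (v : V) : use s v ≤ use t v := by
  obtain ⟨u, rfl⟩ := Multiset.le_iff_exists_add.mp h
  rw [use_add]; omega

theorem Mat.mono {a b : V → ℕ} {m : ℕ} (h : Mat G a m) (hab : ∀ v, a v ≤ b v) : Mat G b m := by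
  obtain ⟨s, h1, h2, h3⟩ := h
  exact ⟨s, h1, h2, fun v => (h3 v).trans (hab v)⟩

theorem Mat.zero (a : V → ℕ) : Mat G a 0 :=
  ⟨0, rfl, by simp, fun v => by rw [use_zero]; exact Nat.zero_le _⟩

theorem Mat.le {a : V → ℕ} {m m' : ℕ} (h : Mat G a m) (hm : m' ≤ m) : Mat G a m' := by
  obtain ⟨s, h1, h2, h3⟩ := h
  obtain ⟨t, ht, hc⟩ := exists_le_card s (m := m') (by omega)
  exact ⟨t, hc, fun p hp => h2 p (Multiset.mem_of_le ht hp), fun v => (use_mono ht v).trans (h3 v)⟩

theorem Mat.add {a b c : V → ℕ} {m n : ℕ} (h : Mat G a m) (h' : Mat G b n)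
    (hc : ∀ v, a v + b v ≤ c v) : Mat G c (m + n) := by
  obtain ⟨s, h1, h2, h3⟩ := h
  obtain ⟨t, h1', h2', h3'⟩ := h'
  refine ⟨s + t, by rw [Multiset.card_add, h1, h1'], ?_, fun v => ?_⟩
  · intro p hp
    rcases Multiset.mem_add.mp hp with h | h
    · exact h2 p h
    · exact h2' p h
  · rw [use_add]
    have := h3 v; have := h3' v; have := hc v
    omega

/-- The weights `a`, set to zero on `T`. -/
def off (T : Finset V) (a : V → ℕ) : V → ℕ := fun v => if v ∈ T then 0 else a v

theorem off_mem {T : Finset V} {a : V → ℕ} {v : V} (h : v ∈ T) : off T a v = 0 := if_pos h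
theorem off_notMem {T : Finset V} {a : V → ℕ} {v : V} (h : v ∉ T) : off T a v = a v := if_neg h
theorem off_le (T : Finset V) (a : V → ℕ) (v : V) : off T a v ≤ a v := by
  unfold off; split_ifs <;> omega
theorem off_off (S T : Finset V) (a : V → ℕ) : off S (off T a) = off (S ∪ T) a := by
  funext v
  unfold off
  by_cases h1 : v ∈ S <;> by_cases h2 : v ∈ T <;> simp [h1, h2]
theorem off_empty (a : V → ℕ) : off ∅ a = a := by funext v; simp [off]
theorem off_anti {S T : Finset V} (h : S ⊆ T) (a : V → ℕ) (v : V) : off T a v ≤ off S a v := by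
  unfold off
  by_cases h1 : v ∈ S
  · simp [h1, h h1]
  · simp only [h1, if_false]; split_ifs <;> omega

/-- Total weight of a set. -/
def wt (a : V → ℕ) (T : Finset V) : ℕ := ∑ v ∈ T, a v

theorem wt_union_add_inter (a : V → ℕ) (S T : Finset V) :
    wt a (S ∪ T) + wt a (S ∩ T) = wt a S + wt a T := by
  unfold wt; exact sum_union_inter

theorem wt_union {a : V → ℕ} {S T : Finset V} (h : Disjoint S T) :
    wt a (S ∪ T) = wt a S + wt a T := by
  unfold wt; exact sum_union h

theorem wt_mono (a : V → ℕ) {S T : Finset V} (h : S ⊆ T) : wt a S ≤ wt a T := by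
  unfold wt; exact sum_le_sum_of_subset h

theorem wt_empty (a : V → ℕ) : wt a ∅ = 0 := by simp [wt]

theorem wt_congr {a b : V → ℕ} {S : Finset V} (h : ∀ v ∈ S, a v = b v) : wt a S = wt b S := by
  unfold wt; exact sum_congr rfl h

theorem wt_off (a : V → ℕ) (S T : Finset V) : wt (off S a) T = wt a (T \ S) := by
  unfold wt off
  rw [sum_ite, sum_const_zero, zero_add]
  refine sum_congr ?_ (fun _ _ => rfl)
  ext v; simp

theorem wt_sdiff_add (a : V → ℕ) {S T : Finset V} (h : S ⊆ T) :
    wt a (T \ S) + wt a S = wt a T := by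
  unfold wt; exact sum_sdiff h

theorem wt_singleton (a : V → ℕ) (v : V) : wt a {v} = a v := by simp [wt]

/-- Deleting the vertices of `T` costs at most the weight of `T`. -/
theorem Mat.off {a : V → ℕ} {m : ℕ} (h : Mat G a m) (T : Finset V) :
    Mat G (off T a) (m - wt a T) := by
  obtain ⟨s, h1, h2, h3⟩ := h
  classical
  set s' := s.filter (fun p => p.1 ∉ T ∧ p.2 ∉ T) with hs'
  set s'' := s.filter (fun p => ¬ (p.1 ∉ T ∧ p.2 ∉ T)) with hs''
  have hsplit : s' + s'' = s := Multiset.filter_add_not _ s
  have hcard : s''.card ≤ wt a T := by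
    have e1 : s''.card ≤ ∑ v ∈ T, use s'' v := by
      have : ∀ t : Multiset (V × V), (∀ p ∈ t, ¬ (p.1 ∉ T ∧ p.2 ∉ T)) →
          t.card ≤ ∑ v ∈ T, use t v := by
        intro t
        induction t using Multiset.induction_on with
        | empty => intro _; simp
        | cons p t ih =>
          intro ht
          have ih' := ih (fun q hq => ht q (Multiset.mem_cons_of_mem hq))
          have hp := ht p (Multiset.mem_cons_self p t)
          simp only [use_cons, sum_add_distrib, Multiset.card_cons]
          have : 1 ≤ ∑ v ∈ T, ep p v := by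
            have hp' : p.1 ∈ T ∨ p.2 ∈ T := by
              by_contra hcon
              push Not at hcon
              exact hp hcon
            rcases hp' with hp' | hp'
            · refine le_trans ?_ (single_le_sum (f := fun v => ep p v) (fun _ _ => Nat.zero_le _) hp')
              simp [ep]
            · refine le_trans ?_ (single_le_sum (f := fun v => ep p v) (fun _ _ => Nat.zero_le _) hp')
              simp [ep]
          omega
      exact this s'' (fun p hp => (Multiset.mem_filter.mp hp).2)
    refine e1.trans ?_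
    unfold wt
    refine sum_le_sum (fun v _ => ?_)
    exact (use_mono (Multiset.filter_le _ _) v).trans (h3 v)
  have hc : s.card = s'.card + s''.card := by rw [← Multiset.card_add, hsplit]
  have : Mat G (Edge.off T a) s'.card := by
    refine ⟨s', rfl, fun p hp => h2 p (Multiset.mem_filter.mp hp).1, fun v => ?_⟩
    by_cases hv : v ∈ T
    · have : use s' v = 0 := by
        unfold use
        refine Multiset.sum_eq_zero (fun x hx => ?_)
        obtain ⟨p, hp, rfl⟩ := Multiset.mem_map.mp hx
        have hp' := (Multiset.mem_filter.mp hp).2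
        have e1 : p.1 ≠ v := fun h => hp'.1 (by rw [h]; exact hv)
        have e2 : p.2 ≠ v := fun h => hp'.2 (by rw [h]; exact hv)
        unfold ep
        simp only [if_neg e1, if_neg e2, add_zero]
      rw [this]; exact Nat.zero_le _
    · rw [off_notMem hv]
      exact (use_mono (Multiset.filter_le _ _) v).trans (h3 v)
  exact this.le (by omega)

/-- Vertices all of whose neighbours have weight zero may be deleted. -/
theorem Mat.off_iso {a : V → ℕ} {m : ℕ} (h : Mat G a m) (T : Finset V)
    (hT : ∀ x ∈ T, ∀ y, G.Adj x y → a y = 0) : Mat G (Edge.off T a) m := by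
  obtain ⟨s, h1, h2, h3⟩ := h
  refine ⟨s, h1, h2, fun v => ?_⟩
  by_cases hv : v ∈ T
  · have : use s v = 0 := by
      unfold use
      refine Multiset.sum_eq_zero (fun x hx => ?_)
      obtain ⟨p, hp, rfl⟩ := Multiset.mem_map.mp hx
      have hadj := h2 p hp
      have huse : ∀ w, ep p w ≤ a w := by
        intro w
        refine le_trans ?_ (h3 w)
        unfold use
        exact Multiset.single_le_sum (fun _ _ => Nat.zero_le _) _
          (Multiset.mem_map_of_mem (fun p => ep p w) hp)
      unfold ep
      have e1 : p.1 ≠ v := by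
        intro hpv
        have := hT v hv p.2 (hpv ▸ hadj)
        have h4 := huse p.2
        rw [this] at h4
        simp [ep] at h4
      have e2 : p.2 ≠ v := by
        intro hpv
        have := hT v hv p.1 (hpv ▸ hadj.symm)
        have h4 := huse p.1
        rw [this] at h4
        simp [ep] at h4
      simp only [if_neg e1, if_neg e2, add_zero]
    rw [this]; exact Nat.zero_le _
  · rw [off_notMem hv]; exact h3 v

variable [Fintype V]

theorem sum_ep (p : V × V) : ∑ v, ep p v = 2 := by
  unfold ep
  rw [sum_add_distrib]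
  simp

theorem sum_use (s : Multiset (V × V)) : ∑ v, use s v = 2 * s.card := by
  induction s using Multiset.induction_on with
  | empty => simp [use]
  | cons p s ih =>
    simp only [use_cons, sum_add_distrib, ih, sum_ep, Multiset.card_cons]
    ring

theorem Mat.two_mul_le {a : V → ℕ} {m : ℕ} (h : Mat G a m) : 2 * m ≤ ∑ v, a v := by
  obtain ⟨s, h1, h2, h3⟩ := h
  rw [← h1, ← sum_use]
  exact sum_le_sum (fun v _ => h3 v)

open Classical in
/-- The matching number. -/
noncomputable def nu (G : SimpleGraph V) (a : V → ℕ) : ℕ :=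
  Nat.findGreatest (fun m => Mat G a m) (∑ v, a v)

theorem le_nu_iff {a : V → ℕ} {m : ℕ} : m ≤ nu G a ↔ Mat G a m := by
  classical
  unfold nu
  constructor
  · intro h
    have := Nat.findGreatest_spec (P := fun m => Mat G a m) (Nat.zero_le (∑ v, a v)) (Mat.zero a)
    exact Mat.le this h
  · intro h
    exact Nat.le_findGreatest (by have := h.two_mul_le; omega) h

theorem mat_nu (a : V → ℕ) : Mat G a (nu G a) := le_nu_iff.mp le_rfl

theorem nu_mono {a b : V → ℕ} (h : ∀ v, a v ≤ b v) : nu G a ≤ nu G b :=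
  le_nu_iff.mpr ((mat_nu a).mono h)

theorem nu_add {a b c : V → ℕ} (h : ∀ v, a v + b v ≤ c v) : nu G a + nu G b ≤ nu G c :=
  le_nu_iff.mpr ((mat_nu a).add (mat_nu b) h)

theorem nu_off (a : V → ℕ) (T : Finset V) : nu G a ≤ nu G (off T a) + wt a T := by
  have := le_nu_iff.mpr ((mat_nu (G := G) a).off T)
  omega

theorem nu_off_iso {a : V → ℕ} {T : Finset V} (hT : ∀ x ∈ T, ∀ y, G.Adj x y → a y = 0) :
    nu G (off T a) = nu G a :=
  le_antisymm (nu_mono (off_le T a)) (le_nu_iff.mpr ((mat_nu (G := G) a).off_iso T hT))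

open Classical in
/-- The neighbourhood of a set. -/
noncomputable def nbr (G : SimpleGraph V) (F : Finset V) : Finset V :=
  univ.filter (fun v => ∃ x ∈ F, G.Adj x v)

theorem mem_nbr {F : Finset V} {v : V} : v ∈ nbr G F ↔ ∃ x ∈ F, G.Adj x v := by
  unfold nbr; simp

theorem nbr_union (F F' : Finset V) : nbr G (F ∪ F') = nbr G F ∪ nbr G F' := by
  ext v; simp only [mem_nbr, mem_union]
  constructor
  · rintro ⟨x, h | h, h'⟩
    · exact Or.inl ⟨x, h, h'⟩
    · exact Or.inr ⟨x, h, h'⟩
  · rintro (⟨x, h, h'⟩ | ⟨x, h, h'⟩)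
    · exact ⟨x, Or.inl h, h'⟩
    · exact ⟨x, Or.inr h, h'⟩

theorem nbr_mono {F F' : Finset V} (h : F ⊆ F') : nbr G F ⊆ nbr G F' := by
  intro v hv
  rw [mem_nbr] at hv ⊢
  obtain ⟨x, hx, h'⟩ := hv
  exact ⟨x, h hx, h'⟩

theorem nbr_empty : nbr G (∅ : Finset V) = ∅ := by
  ext v; simp [mem_nbr]

theorem nbr_insert (x : V) (F : Finset V) : nbr G (insert x F) = nbr G {x} ∪ nbr G F := by
  rw [insert_eq, nbr_union]

theorem mem_nbr_singleton {x v : V} : v ∈ nbr G {x} ↔ G.Adj x v := by
  simp [mem_nbr]

/-- Independent sets. -/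
def Indep (G : SimpleGraph V) (F : Finset V) : Prop := ∀ x ∈ F, ∀ y ∈ F, ¬ G.Adj x y

theorem Indep.mono {F F' : Finset V} (h : Indep G F) (hF : F' ⊆ F) : Indep G F' :=
  fun x hx y hy => h x (hF hx) y (hF hy)

theorem indep_iff_disjoint {F : Finset V} : Indep G F ↔ Disjoint F (nbr G F) := by
  rw [disjoint_left]
  constructor
  · intro h v hv hv'
    obtain ⟨x, hx, h'⟩ := mem_nbr.mp hv'
    exact h x hx v hv h'
  · intro h x hx y hy hxy
    exact h hy (mem_nbr.mpr ⟨x, hx, hxy⟩)

/-- The support of the weights. -/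
def supp (a : V → ℕ) : Finset V := univ.filter (fun v => a v ≠ 0)

theorem mem_supp {a : V → ℕ} {v : V} : v ∈ supp a ↔ a v ≠ 0 := by simp [supp]

theorem supp_off (T : Finset V) (a : V → ℕ) : supp (off T a) = supp a \ T := by
  ext v
  rw [mem_supp, mem_sdiff, mem_supp]
  unfold off
  by_cases h : v ∈ T <;> simp [h]

/-- `ff G a T` is the weight of `T` plus the matching number of the rest. -/
noncomputable def ff (G : SimpleGraph V) (a : V → ℕ) (T : Finset V) : ℕ := wt a T + nu G (off T a)

theorem ff_mono (a : V → ℕ) {S T : Finset V} (h : S ⊆ T) : ff G a S ≤ ff G a T := by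
  unfold ff
  have h1 := nu_off (G := G) (off S a) (T \ S)
  rw [off_off, sdiff_union_of_subset h, wt_off] at h1
  have h2 : (T \ S) \ S = T \ S := by ext v; simp
  rw [h2] at h1
  have h3 := wt_sdiff_add a h
  omega

end Pool.Agent.Helper58.Edge
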