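import Mathlib

/-!
Elementary cochain calculus for families of finite sets.
`Van k Γ d` says that the reduced simplicial cohomology of the family `Γ` vanishes in
cardinality degree `d` (that is, in dimension `d - 1`), with coefficients in `k`.
-/

namespace Pool.Agent.Helper58.Edge

open Finset

variable {V : Type*} [LinearOrder V] {k : Type*} [Field k]

/-- The sign attached to `x` in the finite set `F`. -/
def sg (k : Type*) [Field k] (x : V) (F : Finset V) : k := (-1) ^ (F.filter (fun y => y < x)).card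

/-- The coboundary of a function on finite sets. -/
def cob (φ : Finset V → k) (F : Finset V) : k := ∑ x ∈ F, sg k x F * φ (F.erase x)

/-- Vanishing of the cohomology of the family `Γ` in cardinality `d`. -/
def Van (k : Type*) [Field k] (Γ : Finset V → Prop) (d : ℕ) : Prop :=
  ∀ φ : Finset V → k, (∀ F, Γ F → F.card = d + 1 → cob φ F = 0) →
    ∃ ψ : Finset V → k, ∀ F, Γ F → F.card = d → φ F = cob ψ F

/-- A family of finite sets closed under taking subsets. -/
def Down (Γ : Finset V → Prop) : Prop := ∀ F G, Γ F → G ⊆ F → Γ G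

theorem sg_mul_self (x : V) (F : Finset V) : sg k x F * sg k x F = 1 := by
  unfold sg
  rw [← pow_add, ← two_mul, pow_mul]
  simp

theorem sg_insert_self (x : V) (F : Finset V) : sg k x (insert x F) = sg k x F := by
  unfold sg
  rw [filter_insert]
  simp

theorem sg_erase_self (x : V) (F : Finset V) : sg k x (F.erase x) = sg k x F := by
  unfold sg
  congr 2
  ext y
  simp only [mem_filter, mem_erase]
  constructor
  · rintro ⟨⟨_, h⟩, h2⟩; exact ⟨h, h2⟩
  · rintro ⟨h, h2⟩; exact ⟨⟨ne_of_lt h2, h⟩, h2⟩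

theorem sg_insert_lt {x y : V} {F : Finset V} (h : x < y) (hx : x ∉ F) :
    sg k y (insert x F) = - sg k y F := by
  unfold sg
  rw [filter_insert, if_pos h, card_insert_of_notMem (by simp [hx]), pow_succ]
  ring

theorem sg_insert_gt {x y : V} {F : Finset V} (h : y < x) :
    sg k y (insert x F) = sg k y F := by
  unfold sg
  rw [filter_insert, if_neg (not_lt.mpr h.le)]

theorem sg_erase_lt {x y : V} {F : Finset V} (h : x < y) (hx : x ∈ F) :
    sg k y (F.erase x) = - sg k y F := by
  have := sg_insert_lt (k := k) (F := F.erase x) h (notMem_erase x F)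
  rw [insert_erase hx] at this
  rw [this, neg_neg]

theorem sg_erase_gt {x y : V} {F : Finset V} (h : y < x) (hx : x ∈ F) :
    sg k y (F.erase x) = sg k y F := by
  have := sg_insert_gt (k := k) (F := F.erase x) h
  rw [insert_erase hx] at this
  exact this.symm

/-- The basic sign rule. -/
theorem sg_swap {x y : V} {G : Finset V} (hy : y ∈ G) (hx : x ∉ G) :
    sg k y (insert x G) * sg k x (G.erase y) = - (sg k y G * sg k x G) := by
  rcases lt_trichotomy x y with h | h | h
  · rw [sg_insert_lt h hx, sg_erase_gt h hy]; ring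
  · subst h; exact absurd hy hx
  · rw [sg_insert_gt h, sg_erase_lt h hy]; ring

theorem sg_comm {x y : V} {F : Finset V} (hx : x ∈ F) (hy : y ∈ F) (hxy : x ≠ y) :
    sg k x F * sg k y (F.erase x) = - (sg k y F * sg k x (F.erase y)) := by
  rcases lt_or_gt_of_ne hxy with h | h
  · rw [sg_erase_lt h hx, sg_erase_gt h hy]; ring
  · rw [sg_erase_gt h hx, sg_erase_lt h hy]; ring

theorem cob_cob (ψ : Finset V → k) (F : Finset V) : cob (cob ψ) F = 0 := by
  unfold cob
  simp only [mul_sum]
  rw [sum_sigma']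
  refine Finset.sum_involution (fun p _ => ⟨p.2, p.1⟩) ?_ ?_ ?_ ?_
  · rintro ⟨x, y⟩ h
    simp only [mem_sigma, mem_erase] at h
    obtain ⟨hx, hyx, hy⟩ := h
    have h1 := sg_comm (k := k) hx hy (Ne.symm hyx)
    simp only
    rw [erase_right_comm (a := y) (b := x)]
    have h2 : sg k x F * (sg k y (F.erase x) * ψ ((F.erase x).erase y)) =
      (sg k x F * sg k y (F.erase x)) * ψ ((F.erase x).erase y) := by ring
    rw [h2, h1]; ring
  · rintro ⟨x, y⟩ h _ heq
    simp only [mem_sigma, mem_erase] at h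
    simp only [Sigma.mk.injEq] at heq
    exact h.2.1 heq.1
  · rintro ⟨x, y⟩ h
    simp only [mem_sigma, mem_erase] at h ⊢
    exact ⟨h.2.2, Ne.symm h.2.1, h.1⟩
  · rintro ⟨x, y⟩ h
    rfl

theorem cob_sub (φ ψ : Finset V → k) (F : Finset V) :
    cob (fun G => φ G - ψ G) F = cob φ F - cob ψ F := by
  unfold cob; simp only [mul_sub, sum_sub_distrib]

theorem cob_add (φ ψ : Finset V → k) (F : Finset V) :
    cob (fun G => φ G + ψ G) F = cob φ F + cob ψ F := by
  unfold cob; simp only [mul_add, sum_add_distrib]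

theorem cob_congr {φ ψ : Finset V → k} {F : Finset V} (h : ∀ x ∈ F, φ (F.erase x) = ψ (F.erase x)) :
    cob φ F = cob ψ F := by
  unfold cob; exact sum_congr rfl (fun x hx => by rw [h x hx])

/-- The coboundary at a set `insert x G`. -/
theorem cob_insert (φ : Finset V → k) {x : V} {G : Finset V} (hx : x ∉ G) :
    cob φ (insert x G) = sg k x G * φ G +
      ∑ y ∈ G, sg k y (insert x G) * φ (insert x (G.erase y)) := by
  unfold cob
  rw [sum_insert hx, sg_insert_self, erase_insert hx]
  congr 1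
  refine sum_congr rfl (fun y hy => ?_)
  have : x ≠ y := fun h => hx (h ▸ hy)
  rw [erase_insert_of_ne this]

/-- The slice of `φ` along `x`, with sign. -/
def slice (x : V) (φ : Finset V → k) : Finset V → k := fun G => sg k x G * φ (insert x G)

/-- The function supported on sets containing `x` with prescribed slice (up to sign). -/
def unslice (x : V) (ψ : Finset V → k) : Finset V → k :=
  fun F => if x ∈ F then - (sg k x F * ψ (F.erase x)) else 0

theorem cob_slice (φ : Finset V → k) {x : V} {G : Finset V} (hx : x ∉ G) :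
    cob (slice x φ) G = - (sg k x G * (cob φ (insert x G) - sg k x G * φ G)) := by
  rw [cob_insert φ hx, add_sub_cancel_left]
  unfold cob slice
  rw [mul_sum, ← sum_neg_distrib]
  refine sum_congr rfl (fun y hy => ?_)
  have h1 := sg_swap (k := k) hy hx
  have h2 : sg k x G * (sg k y (insert x G) * φ (insert x (G.erase y))) =
     (sg k y (insert x G) * sg k x (G.erase y)) * (sg k x G * sg k x (G.erase y)) *
        φ (insert x (G.erase y)) := by
    have := sg_mul_self (k := k) x (G.erase y)
    linear_combination (-(sg k x G * sg k y (insert x G) * φ (insert x (G.erase y)))) * this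
  rw [h2, h1]
  have h3 := sg_mul_self (k := k) x G
  linear_combination (-(sg k y G * sg k x (G.erase y) * φ (insert x (G.erase y)))) * h3

theorem cob_unslice_of_notMem (ψ : Finset V → k) {x : V} {F : Finset V} (hx : x ∉ F) :
    cob (unslice x ψ) F = 0 := by
  unfold cob unslice
  refine sum_eq_zero (fun y _ => ?_)
  rw [if_neg (fun h => hx (mem_of_mem_erase h)), mul_zero]

theorem cob_unslice (ψ : Finset V → k) {x : V} {G : Finset V} (hx : x ∉ G) :
    cob (unslice x ψ) (insert x G) = sg k x G * cob ψ G := by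
  rw [cob_insert _ hx]
  unfold unslice
  rw [if_neg hx, mul_zero, zero_add]
  unfold cob
  rw [mul_sum]
  refine sum_congr rfl (fun y hy => ?_)
  rw [if_pos (mem_insert_self _ _)]
  have hx' : x ∉ G.erase y := fun h => hx (mem_of_mem_erase h)
  rw [erase_insert hx', sg_insert_self]
  have h1 := sg_swap (k := k) hy hx
  have h2 : sg k y (insert x G) * -(sg k x (G.erase y) * ψ (G.erase y)) =
    - (sg k y (insert x G) * sg k x (G.erase y)) * ψ (G.erase y) := by ring
  rw [h2, h1]; ring

/-- Deletion and link, positive degree. -/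
theorem van_of_del_link {Γ : Finset V → Prop} (hΓ : Down Γ) (x : V) {d : ℕ}
    (h1 : Van k (fun F => Γ F ∧ x ∉ F) (d + 1))
    (h2 : Van k (fun F => x ∉ F ∧ Γ (insert x F)) d) : Van k Γ (d + 1) := by
  intro φ hφ
  obtain ⟨ψ1, hψ1⟩ := h1 φ (fun F hF hc => hφ F hF.1 hc)
  set ψ1' : Finset V → k := fun F => if x ∈ F then 0 else ψ1 F with hψ1'
  set φ' : Finset V → k := fun F => φ F - cob ψ1' F with hφ'
  have hcoc : ∀ F, Γ F → F.card = d + 1 + 1 → cob φ' F = 0 := by
    intro F hF hc
    rw [hφ', cob_sub, hφ F hF hc, cob_cob, sub_zero]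
  have hvan : ∀ F, Γ F → x ∉ F → F.card = d + 1 → φ' F = 0 := by
    intro F hF hx hc
    have : cob ψ1' F = cob ψ1 F := cob_congr (fun y hy => by
      rw [hψ1']; simp only; rw [if_neg (fun h => hx (mem_of_mem_erase h))])
    rw [hφ']; simp only
    rw [this, hψ1 F ⟨hF, hx⟩ hc, sub_self]
  obtain ⟨ψ2, hψ2⟩ := h2 (slice x φ') (by
    rintro G ⟨hx, hG⟩ hc
    rw [cob_slice φ' hx, hcoc _ hG (by rw [card_insert_of_notMem hx, hc]),
      hvan G (hΓ _ _ hG (subset_insert _ _)) hx hc]
    simp)
  refine ⟨fun F => ψ1' F + unslice x ψ2 F, fun F hF hc => ?_⟩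
  rw [cob_add]
  by_cases hx : x ∈ F
  · obtain ⟨G, hG, rfl⟩ : ∃ G, x ∉ G ∧ F = insert x G :=
      ⟨F.erase x, notMem_erase _ _, (insert_erase hx).symm⟩
    rw [cob_unslice ψ2 hG]
    have hGc : G.card = d := by rw [card_insert_of_notMem hG] at hc; omega
    have := hψ2 G ⟨hG, hF⟩ hGc
    unfold slice at this
    rw [← this, ← mul_assoc, sg_mul_self, one_mul, hφ']
    simp only
    ring
  · rw [cob_unslice_of_notMem ψ2 hx]
    have := hvan F hF hx hc
    rw [hφ'] at this
    simp only at this
    linear_combination this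

theorem van_zero_of_del {Γ : Finset V → Prop} (x : V)
    (h1 : Van k (fun F => Γ F ∧ x ∉ F) 0) : Van k Γ 0 := by
  intro φ hφ
  obtain ⟨ψ, hψ⟩ := h1 φ (fun F hF hc => hφ F hF.1 hc)
  refine ⟨ψ, fun F hF hc => hψ F ⟨hF, ?_⟩ hc⟩
  rw [card_eq_zero] at hc
  subst hc; simp

/-- A cone is acyclic. -/
theorem van_cone {Γ : Finset V → Prop} (x : V)
    (h : ∀ F, Γ F → Γ (insert x F)) (d : ℕ) : Van k Γ d := by
  intro φ hφ
  refine ⟨fun G => if x ∈ G then 0 else slice x φ G, fun F hF hc => ?_⟩
  by_cases hx : x ∈ F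
  · obtain ⟨G, hG, rfl⟩ : ∃ G, x ∉ G ∧ F = insert x G :=
      ⟨F.erase x, notMem_erase _ _, (insert_erase hx).symm⟩
    rw [cob_insert _ hG, if_neg hG]
    have : ∑ y ∈ G, sg k y (insert x G) *
        (if x ∈ insert x (G.erase y) then 0 else slice x φ (insert x (G.erase y))) = 0 :=
      sum_eq_zero (fun y _ => by rw [if_pos (mem_insert_self _ _), mul_zero])
    rw [this, add_zero]
    unfold slice
    rw [← mul_assoc, sg_mul_self, one_mul]
  · have h1 := cob_slice φ hx
    rw [hφ _ (h F hF) (by rw [card_insert_of_notMem hx, hc])] at h1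
    have h2 : cob (fun G => if x ∈ G then 0 else slice x φ G) F = cob (slice x φ) F :=
      cob_congr (fun y _ => by rw [if_neg (fun h => hx (mem_of_mem_erase h))])
    rw [h2, h1]
    have := sg_mul_self (k := k) x F
    linear_combination (-(φ F)) * this

/-- Suspension. -/
theorem van_of_susp {Γ' Γ : Finset V → Prop} {x y : V} (hxy : x ≠ y)
    (hx : ∀ F, Γ' F → x ∉ F) (hy : ∀ F, Γ' F → y ∉ F)
    (h1 : ∀ F, Γ' F → Γ (insert x F)) (h2 : ∀ F, Γ' F → Γ (insert y F))
    (h3 : ∀ F, Γ F → x ∈ F → Γ' (F.erase x)) {d : ℕ}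
    (h : Van k Γ (d + 1)) : Van k Γ' d := by
  intro φ hφ
  obtain ⟨Ψ, hΨ⟩ := h (fun F => if x ∈ F then sg k x F * φ (F.erase x) else 0) (by
    intro F hF hc
    by_cases hxF : x ∈ F
    · obtain ⟨G, hG, rfl⟩ : ∃ G, x ∉ G ∧ F = insert x G :=
        ⟨F.erase x, notMem_erase _ _, (insert_erase hxF).symm⟩
      have e1 : cob (fun F => if x ∈ F then sg k x F * φ (F.erase x) else 0) (insert x G) =
          - cob (unslice x φ) (insert x G) := by
        unfold cob unslice
        rw [← sum_neg_distrib]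
        refine sum_congr rfl (fun z _ => ?_)
        dsimp only
        split_ifs <;> ring
      have hG' := h3 _ hF (mem_insert_self _ _)
      rw [erase_insert hG] at hG'
      rw [e1, cob_unslice φ hG, hφ G hG' (by rw [card_insert_of_notMem hG] at hc; omega)]
      simp
    · unfold cob
      refine sum_eq_zero (fun z _ => ?_)
      dsimp only
      rw [if_neg (fun h => hxF (mem_of_mem_erase h)), mul_zero])
  refine ⟨fun G => - slice x Ψ G + slice y Ψ G, fun F hF hc => ?_⟩
  have hxF := hx F hF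
  have hyF := hy F hF
  have e1 := hΨ (insert x F) (h1 F hF) (by rw [card_insert_of_notMem hxF, hc])
  have e2 := hΨ (insert y F) (h2 F hF) (by rw [card_insert_of_notMem hyF, hc])
  rw [if_pos (mem_insert_self _ _), sg_insert_self, erase_insert hxF] at e1
  have hx2 : x ∉ insert y F := by simp [hxy, hxF]
  rw [if_neg hx2] at e2
  have e3 : cob (fun G => - slice x Ψ G + slice y Ψ G) F = - cob (slice x Ψ) F + cob (slice y Ψ) F := by
    rw [cob_add]
    congr 1
    unfold cob
    rw [← sum_neg_distrib]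
    exact sum_congr rfl (fun z _ => by ring)
  rw [e3, cob_slice Ψ hxF, cob_slice Ψ hyF, ← e1, ← e2]
  have s1 := sg_mul_self (k := k) x F
  have s2 := sg_mul_self (k := k) y F
  linear_combination (-(φ F) + Ψ F) * s1 - Ψ F * s2

/-- The family whose members avoiding `x` are given by `Y` and whose link at `x` is `Y'`. -/
def KK (x : V) (Y Y' : Finset V → Prop) : Finset V → Prop :=
  fun F => (x ∉ F ∧ Y F) ∨ (x ∈ F ∧ Y' (F.erase x))

theorem KK_insert {x : V} {Y Y' : Finset V → Prop} {G : Finset V} (hx : x ∉ G) :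
    KK x Y Y' (insert x G) ↔ Y' G := by
  unfold KK
  simp [erase_insert hx]

theorem KK_of_notMem {x : V} {Y Y' : Finset V → Prop} {G : Finset V} (hx : x ∉ G) :
    KK x Y Y' G ↔ Y G := by
  unfold KK
  simp [hx]

theorem van_congr {Γ Γ' : Finset V → Prop} (h : ∀ F, Γ F ↔ Γ' F) {d : ℕ} :
    Van k Γ d ↔ Van k Γ' d := by
  have : Γ = Γ' := funext (fun F => propext (h F))
  rw [this]

theorem van_split_zero {x : V} {Yn Yp Ym : Finset V → Prop}
    (hmp : ∀ F, Ym F → Yp F) (h1 : Van k (KK x Yn Ym) 0) : Van k (KK x Yn Yp) 0 := by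
  intro φ hφ
  obtain ⟨ψ, hψ⟩ := h1 φ (fun F hF hc => hφ F (by
    unfold KK at hF ⊢
    exact hF.imp id (fun h => ⟨h.1, hmp _ h.2⟩)) hc)
  refine ⟨ψ, fun F hF hc => ?_⟩
  rw [card_eq_zero] at hc
  subst hc
  refine hψ _ ?_ card_empty
  rw [KK_of_notMem (notMem_empty x)] at hF ⊢
  exact hF

theorem van_split {x : V} {Yn Yp Ym : Finset V → Prop}
    (hpn : ∀ F, Yp F → Yn F) (hmp : ∀ F, Ym F → Yp F) {d : ℕ}
    (h1 : Van k (KK x Yn Ym) (d + 1)) (h2 : Van k (KK x Yp Ym) d) :
    Van k (KK x Yn Yp) (d + 1) := by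
  intro φ hφ
  obtain ⟨ψ, hψ⟩ := h1 φ (fun F hF hc => hφ F (by
    unfold KK at hF ⊢
    exact hF.imp id (fun h => ⟨h.1, hmp _ h.2⟩)) hc)
  set φ' : Finset V → k := fun F => φ F - cob ψ F with hφ'
  have hcoc : ∀ F, KK x Yn Yp F → F.card = d + 1 + 1 → cob φ' F = 0 := by
    intro F hF hc
    rw [hφ', cob_sub, hφ F hF hc, cob_cob, sub_zero]
  have hvan : ∀ F, KK x Yn Ym F → F.card = d + 1 → φ' F = 0 := by
    intro F hF hc
    rw [hφ']; simp only
    rw [hψ F hF hc, sub_self]
  obtain ⟨Ψ, hΨ⟩ := h2 (fun G => if x ∈ G then 0 else slice x φ' G) (by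
    intro F hF hc
    by_cases hx : x ∈ F
    · obtain ⟨G, hG, rfl⟩ : ∃ G, x ∉ G ∧ F = insert x G :=
        ⟨F.erase x, notMem_erase _ _, (insert_erase hx).symm⟩
      rw [KK_insert hG] at hF
      rw [cob_insert _ hG, if_neg hG]
      have : ∑ y ∈ G, sg k y (insert x G) *
          (if x ∈ insert x (G.erase y) then 0 else slice x φ' (insert x (G.erase y))) = 0 :=
        sum_eq_zero (fun y _ => by rw [if_pos (mem_insert_self _ _), mul_zero])
      rw [this, add_zero]
      unfold slice
      rw [hvan (insert x G) ((KK_insert hG).mpr hF) hc]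
      simp
    · rw [KK_of_notMem hx] at hF
      have e : cob (fun G => if x ∈ G then 0 else slice x φ' G) F = cob (slice x φ') F :=
        cob_congr (fun y _ => by rw [if_neg (fun h => hx (mem_of_mem_erase h))])
      rw [e, cob_slice φ' hx, hcoc _ ((KK_insert hx).mpr hF) (by rw [card_insert_of_notMem hx, hc]),
        hvan F ((KK_of_notMem hx).mpr (hpn F hF)) hc]
      simp)
  refine ⟨fun F => ψ F + unslice x Ψ F, fun F hF hc => ?_⟩
  rw [cob_add]
  by_cases hx : x ∈ F
  · obtain ⟨G, hG, rfl⟩ : ∃ G, x ∉ G ∧ F = insert x G :=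
      ⟨F.erase x, notMem_erase _ _, (insert_erase hx).symm⟩
    rw [KK_insert hG] at hF
    rw [cob_unslice Ψ hG]
    have hGc : G.card = d := by rw [card_insert_of_notMem hG] at hc; omega
    have := hΨ G ((KK_of_notMem hG).mpr hF) hGc
    rw [if_neg hG] at this
    unfold slice at this
    rw [← this, ← mul_assoc, sg_mul_self, one_mul, hφ']
    simp only
    ring
  · rw [KK_of_notMem hx] at hF
    rw [cob_unslice_of_notMem Ψ hx]
    have := hvan F ((KK_of_notMem hx).mpr hF) hc
    rw [hφ'] at this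
    simp only at this
    linear_combination this

theorem van_out {x : V} {Yn YN : Finset V → Prop} (hx : ∀ F, Yn F → x ∉ F)
    (hn : ∀ F, YN F → Yn F) {d : ℕ}
    (h1 : Van k (KK x Yn YN) d) (h2 : Van k YN d) : Van k Yn d := by
  intro φ hφ
  obtain ⟨ψ, hψ⟩ := h2 φ (fun F hF hc => hφ F (hn F hF) hc)
  obtain ⟨Ψ, hΨ⟩ := h1 (fun F => (if x ∈ F then 0 else φ F) - unslice x ψ F) (by
    intro F hF hc
    rw [cob_sub]
    by_cases hxF : x ∈ F
    · obtain ⟨G, hG, rfl⟩ : ∃ G, x ∉ G ∧ F = insert x G :=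
        ⟨F.erase x, notMem_erase _ _, (insert_erase hxF).symm⟩
      rw [KK_insert hG] at hF
      rw [cob_unslice ψ hG, cob_insert _ hG, if_neg hG]
      have : ∑ y ∈ G, sg k y (insert x G) *
          (if x ∈ insert x (G.erase y) then 0 else φ (insert x (G.erase y))) = 0 :=
        sum_eq_zero (fun y _ => by rw [if_pos (mem_insert_self _ _), mul_zero])
      rw [this, add_zero, hψ G hF (by rw [card_insert_of_notMem hG] at hc; omega), sub_self]
    · rw [KK_of_notMem hxF] at hF
      rw [cob_unslice_of_notMem ψ hxF, sub_zero]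
      have e : cob (fun G => if x ∈ G then 0 else φ G) F = cob φ F :=
        cob_congr (fun y _ => by rw [if_neg (fun h => hxF (mem_of_mem_erase h))])
      rw [e, hφ F hF hc])
  refine ⟨Ψ, fun F hF hc => ?_⟩
  have hxF := hx F hF
  have := hΨ F ((KK_of_notMem hxF).mpr hF) hc
  rw [if_neg hxF] at this
  unfold unslice at this
  rw [if_neg hxF, sub_zero] at this
  exact this

end Pool.Agent.Helper58.Edge
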